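import Pool.Agent.Lib.MP_546591_co.FamilyDef

/-!
# Common lemmas for the two basic constructions
-/

namespace Pool.Agent.MP_546591_co

open Finset

/-- Counting additive quadruples through a parametrization. -/
theorem energy_image_le {A V : Type} [Add V] [DecidableEq V] [DecidableEq A] (S : Finset A)
    (f : A → V) :
    energy (S.image f) ≤ (((S ×ˢ S) ×ˢ (S ×ˢ S)).filter
      fun z => f z.1.1 + f z.1.2 = f z.2.1 + f z.2.2).card := by
  unfold energy
  refine le_trans (card_le_card ?_) (card_image_le (f := fun z : (A × A) × (A × A) =>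
    (((f z.1.1, f z.1.2), (f z.2.1, f z.2.2)) : (V × V) × (V × V))))
  rintro ⟨⟨a, b⟩, ⟨c, d⟩⟩ hz
  simp only [mem_filter, mem_product, mem_image] at hz
  obtain ⟨⟨⟨⟨a', ha', rfl⟩, b', hb', rfl⟩, ⟨c', hc', rfl⟩, d', hd', rfl⟩, hs⟩ := hz
  simp only [mem_image, mem_filter, mem_product]
  exact ⟨((a', b'), (c', d')), ⟨⟨⟨ha', hb'⟩, hc', hd'⟩, hs⟩, rfl⟩

theorem card_filter_pow_eq_one {K : Type} [Field K] [Fintype K] [DecidableEq K] (N : ℕ)
    (hN : N ∣ Fintype.card K - 1) :
    ((univ : Finset K).filter fun a => a ^ N = 1).card = N := by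
  have hq : 0 < Fintype.card K - 1 := by
    have := Fintype.one_lt_card (α := K)
    omega
  have hN0 : 0 < N := Nat.pos_of_dvd_of_pos hN hq
  obtain ⟨g, hg⟩ := IsCyclic.exists_generator (α := Kˣ)
  have ho : orderOf g = Fintype.card K - 1 := by
    rw [orderOf_eq_card_of_forall_mem_zpowers hg, Nat.card_eq_fintype_card, Fintype.card_units]
  have hpr : IsPrimitiveRoot (g : K) (Fintype.card K - 1) := by
    have := IsPrimitiveRoot.orderOf g
    rw [ho] at this
    exact this.map_of_injective (f := Units.coeHom K) Units.val_injective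
  obtain ⟨m, hm⟩ := hN
  have hpr' : IsPrimitiveRoot ((g : K) ^ m) N :=
    hpr.pow hq (by rw [hm, mul_comm])
  have h1 : ((univ : Finset K).filter fun a => a ^ N = 1) = Polynomial.nthRootsFinset N (1 : K) := by
    ext x
    rw [Polynomial.mem_nthRootsFinset hN0]
    simp
  rw [h1, hpr'.card_nthRootsFinset]

theorem exists_sq_eq_neg_one {K : Type} [Field K] [Fintype K] (h : Fintype.card K % 4 = 1) :
    ∃ i : K, i ^ 2 = -1 := by
  have : IsSquare (-1 : K) := by
    rw [FiniteField.isSquare_neg_one_iff, h]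
    decide
  obtain ⟨i, hi⟩ := this
  exact ⟨i, by rw [sq, ← hi]⟩

end Pool.Agent.MP_546591_co
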