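import Pool.Agent.Lib.MP_546591_co.Defs

/-!
# Families of sets with few distances and small energy
-/

namespace Pool.Agent.MP_546591_co

/-- A supply of sets with few distances, of size almost `q^m` and with
`|E|⁴ / Λ₄(E)` almost `q^r`, over arbitrarily large fields of odd characteristic that contain
a square root of `-1`. -/
def Family (d : ℕ) (m r : ℝ) : Prop :=
  ∀ c ε Q₀ : ℝ, 0 < c → 0 < ε →
    ∃ (F : Type) (_ : Field F) (_ : Fintype F) (_ : DecidableEq F),
      ringChar F ≠ 2 ∧ (∃ i : F, i ^ 2 = -1) ∧ Q₀ ≤ (Fintype.card F : ℝ) ∧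
      ∃ E : Finset (Fin d → F),
        ((distSet E).card : ℝ) ≤ c * (Fintype.card F : ℝ) ∧
        (Fintype.card F : ℝ) ^ (m - ε) ≤ (E.card : ℝ) ∧
        (energy E : ℝ) ≤ (Fintype.card F : ℝ) ^ (-r + ε) * (E.card : ℝ) ^ 4

end Pool.Agent.MP_546591_co
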