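import Pool.Agent.Lib.MP_546591_co.Sample
import Pool.Agent.Lib.MP_546591_co.FamilyDef

/-!
# From a family of sets to a lower bound for the threshold
-/

namespace Pool.Agent.MP_546591_co

open Finset

theorem distSet_mono {d : ℕ} {F : Type} [Field F] [DecidableEq F] {E E' : Finset (Fin d → F)}
    (h : E' ⊆ E) : distSet E' ⊆ distSet E := by
  unfold distSet
  exact image_subset_image (product_subset_product h h)

theorem not_admissible_of_family {d : ℕ} {m r : ℝ} (hF : Family d m r) (hm : 0 < m) (hr : 0 < r)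
    (s : ℝ) (h1 : 1 / 4 ≤ s) (h2 : s ≤ 1 / 2) (α : ℝ) (hα : α < m) (hα' : 4 * s * α < r) :
    ¬ Admissible d s α := by
  intro hA
  obtain ⟨C, c, hC, hc, hA⟩ := hA 5 (by norm_num)
  set a : ℝ := max α 0 with ha
  have ha0 : 0 ≤ a := le_max_right _ _
  have ham : a < m := max_lt hα hm
  have har : 4 * s * a < r := by
    rcases le_total α 0 with h | h
    · rw [ha, max_eq_right h]; simpa using hr
    · rw [ha, max_eq_left h]; exact hα'
  set ε : ℝ := min ((m - a) / 2) ((r - 4 * s * a) / 3) with hε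
  have hε0 : 0 < ε := lt_min (by linarith) (by linarith)
  have hε1 : a + ε ≤ m - ε := by
    have : ε ≤ (m - a) / 2 := min_le_left _ _
    linarith
  have hε2 : 4 * s * (a + ε) ≤ r - ε := by
    have : ε ≤ (r - 4 * s * a) / 3 := min_le_right _ _
    nlinarith
  set Q₀ : ℝ := max 1 ((C + 1) ^ (1 / ε)) with hQ₀
  obtain ⟨F, iF, iF', iD, hchar, -, hq, E, hΔ, hcard, hen⟩ := hF (c / 2) ε Q₀ (by linarith) hε0
  set q : ℝ := (Fintype.card F : ℝ) with hqdef
  have hq1 : 1 ≤ q := (le_max_left _ _).trans hq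
  have hq0 : 0 < q := by linarith
  have hqε : C + 1 ≤ q ^ ε := by
    have h3 : (C + 1) ^ (1 / ε) ≤ q := (le_max_right _ _).trans hq
    have h4 : ((C + 1) ^ (1 / ε)) ^ ε ≤ q ^ ε :=
      Real.rpow_le_rpow (by positivity) h3 hε0.le
    rwa [← Real.rpow_mul (by linarith), one_div, inv_mul_cancel₀ hε0.ne', Real.rpow_one] at h4
  set n : ℕ := ⌈C * q ^ a⌉₊ with hn
  have hqa : 1 ≤ q ^ a := Real.one_le_rpow hq1 ha0
  have hCq : 0 < C * q ^ a := by positivity
  have hn0 : 0 < n := Nat.ceil_pos.mpr hCq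
  have hn1 : C * q ^ a ≤ n := Nat.le_ceil _
  have hn2 : (n : ℝ) ≤ q ^ (a + ε) := by
    have h3 : (n : ℝ) < C * q ^ a + 1 := Nat.ceil_lt_add_one hCq.le
    have h4 : C * q ^ a + 1 ≤ (C + 1) * q ^ a := by nlinarith
    have h5 : (C + 1) * q ^ a ≤ q ^ ε * q ^ a := mul_le_mul_of_nonneg_right hqε (by linarith)
    rw [Real.rpow_add hq0, mul_comm (q ^ a)]
    linarith
  have hM : (n : ℝ) ≤ E.card := by
    refine hn2.trans (le_trans ?_ hcard)
    exact Real.rpow_le_rpow_of_exponent_le hq1 hε1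
  have hM' : n ≤ E.card := by exact_mod_cast hM
  have hM0 : 0 < E.card := lt_of_lt_of_le hn0 hM'
  obtain ⟨E', hE', hE'card, hE'en⟩ := exists_subset_energy E n hM' hM0
  have hn1' : (1 : ℝ) ≤ n := by exact_mod_cast hn0
  have hn0' : (0 : ℝ) < n := by linarith
  have hMpos : (0 : ℝ) < E.card := by exact_mod_cast hM0
  have e1 : ((n : ℝ) / E.card) ^ 4 * (energy E : ℝ) ≤ (n : ℝ) ^ (4 - 4 * s) := by
    calc ((n : ℝ) / E.card) ^ 4 * (energy E : ℝ)
        ≤ ((n : ℝ) / E.card) ^ 4 * (q ^ (-r + ε) * (E.card : ℝ) ^ 4) :=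
          mul_le_mul_of_nonneg_left hen (by positivity)
      _ = (n : ℝ) ^ 4 * q ^ (-r + ε) := by
          field_simp
      _ = (n : ℝ) ^ (4 - 4 * s) * ((n : ℝ) ^ (4 * s) * q ^ (-r + ε)) := by
          rw [← mul_assoc, ← Real.rpow_add hn0']
          congr 1
          rw [show (4 - 4 * s + 4 * s : ℝ) = ((4 : ℕ) : ℝ) by push_cast; ring, Real.rpow_natCast]
      _ ≤ (n : ℝ) ^ (4 - 4 * s) * 1 := by
          apply mul_le_mul_of_nonneg_left _ (by positivity)
          calc (n : ℝ) ^ (4 * s) * q ^ (-r + ε)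
              ≤ (q ^ (a + ε)) ^ (4 * s) * q ^ (-r + ε) := by
                apply mul_le_mul_of_nonneg_right _ (by positivity)
                exact Real.rpow_le_rpow hn0'.le hn2 (by linarith)
            _ = q ^ ((a + ε) * (4 * s) + (-r + ε)) := by
                rw [← Real.rpow_mul hq0.le, ← Real.rpow_add hq0]
            _ ≤ q ^ (0 : ℝ) := by
                apply Real.rpow_le_rpow_of_exponent_le hq1
                nlinarith
            _ = 1 := Real.rpow_zero _
      _ = _ := mul_one _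
  have e2 : (n : ℝ) ^ 2 ≤ (n : ℝ) ^ (4 - 4 * s) := by
    rw [← Real.rpow_natCast]
    apply Real.rpow_le_rpow_of_exponent_le hn1'
    push_cast
    linarith
  have e3 : (energy E' : ℝ) ≤ 5 * (q ^ (-(d : ℝ)) * (E'.card : ℝ) ^ 4
      + (E'.card : ℝ) ^ (4 - 4 * s)) := by
    rw [hE'card]
    have : 0 ≤ q ^ (-(d : ℝ)) * (n : ℝ) ^ 4 := by positivity
    linarith
  have e4 : C * q ^ α ≤ E'.card := by
    rw [hE'card]
    refine le_trans ?_ hn1
    apply mul_le_mul_of_nonneg_left _ hC.le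
    exact Real.rpow_le_rpow_of_exponent_le hq1 (le_max_left _ _)
  have e5 := hA F hchar E' e3 e4
  have e6 : ((distSet E').card : ℝ) ≤ (distSet E).card := by
    exact_mod_cast card_le_card (distSet_mono hE')
  have e7 : 0 < c * q := by positivity
  rw [← hqdef] at e5
  linarith

theorem lower_of_family {d : ℕ} {m r : ℝ} (hF : Family d m r) (hm : 0 < m) (hr : 0 < r)
    (s : ℝ) (h1 : 1 / 4 ≤ s) (h2 : s ≤ 1 / 2) (β : ℝ) (hβ : Admissible d s β) :
    min m (r / (4 * s)) ≤ β := by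
  by_contra h
  push Not at h
  rw [lt_min_iff] at h
  refine not_admissible_of_family hF hm hr s h1 h2 β h.1 ?_ hβ
  have h3 := h.2
  rw [lt_div_iff₀ (by linarith)] at h3
  linarith

theorem le_alpha_of_family {d : ℕ} {m r : ℝ} (hF : Family d m r) (hm : 0 < m) (hr : 0 < r)
    (s : ℝ) (h1 : 1 / 4 ≤ s) (h2 : s ≤ 1 / 2) (β : ℝ) (hβ : Admissible d s β) :
    min m (r / (4 * s)) ≤ alpha d s :=
  le_csInf ⟨β, hβ⟩ fun b hb => lower_of_family hF hm hr s h1 h2 b hb

theorem alpha_le_of_admissible {d : ℕ} {m r : ℝ} (hF : Family d m r) (hm : 0 < m) (hr : 0 < r)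
    (s : ℝ) (h1 : 1 / 4 ≤ s) (h2 : s ≤ 1 / 2) (β : ℝ) (hβ : Admissible d s β) :
    alpha d s ≤ β :=
  csInf_le ⟨min m (r / (4 * s)), fun b hb => lower_of_family hF hm hr s h1 h2 b hb⟩ hβ

end Pool.Agent.MP_546591_co
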