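import Mathlib

/-!
# Distance sets of `(4,s)`-Salem sets over finite fields: definitions

Everything here is literal: the form `‖x‖ = ∑ x_i ^ 2`, the distance set `Δ(E)`, the fourth
additive energy `Λ₄(E)`, the property defining the threshold, and the threshold `α(d,4,s)`.
-/

namespace Pool.Agent.MP_546591_co

/-- `‖x‖ = x₁² + ⋯ + x_d²`. -/
def nrm {d : ℕ} {F : Type} [Field F] (x : Fin d → F) : F := ∑ i, x i ^ 2

/-- The distance set `Δ(E) = {‖x - y‖ : x, y ∈ E}`. -/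
def distSet {d : ℕ} {F : Type} [Field F] [DecidableEq F] (E : Finset (Fin d → F)) : Finset F :=
  (E ×ˢ E).image fun z => nrm (z.1 - z.2)

/-- The fourth additive energy: the number of `(x₁, x₂, x₃, x₄) ∈ E⁴` (stored as
`((x₁, x₂), (x₃, x₄))`) with `x₁ + x₂ = x₃ + x₄`. -/
def energy {V : Type} [Add V] [DecidableEq V] (E : Finset V) : ℕ :=
  (((E ×ˢ E) ×ˢ (E ×ˢ E)).filter fun z => z.1.1 + z.1.2 = z.2.1 + z.2.2).card

/-- `α` is an admissible exponent for `(d, s)`: for every `C₀ > 0` there are `C, c > 0` such that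
for every finite field `F` of odd characteristic (with `q` elements) and every `E ⊆ F^d` with
`Λ₄(E) ≤ C₀ (q^{-d} |E|⁴ + |E|^{4-4s})` and `|E| ≥ C q^α` one has `|Δ(E)| ≥ c q`. -/
def Admissible (d : ℕ) (s α : ℝ) : Prop :=
  ∀ C₀ : ℝ, 0 < C₀ → ∃ C c : ℝ, 0 < C ∧ 0 < c ∧
    ∀ (F : Type) [Field F] [Fintype F] [DecidableEq F], ringChar F ≠ 2 →
      ∀ E : Finset (Fin d → F),
        (energy E : ℝ) ≤ C₀ * ((Fintype.card F : ℝ) ^ (-(d : ℝ)) * (E.card : ℝ) ^ 4
          + (E.card : ℝ) ^ (4 - 4 * s)) →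
        C * (Fintype.card F : ℝ) ^ α ≤ E.card →
        c * (Fintype.card F : ℝ) ≤ (distSet E).card

/-- The threshold `α(d,4,s)`: the infimum of the admissible exponents. -/
noncomputable def alpha (d : ℕ) (s : ℝ) : ℝ := sInf {α : ℝ | Admissible d s α}

/-- The value of `α(d,4,s)` that was conjectured: `1` for `d = 2`; for even `d ≥ 4` it is `d/2` when
`s ≤ (d+2)/(4d)` and `(d+2)/(8s)` otherwise; for odd `d ≥ 3` it is `(d+1)/(8s)`. -/
noncomputable def conjValue (d : ℕ) (s : ℝ) : ℝ :=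
  if d = 2 then 1
  else if Even d then
    (if s ≤ ((d : ℝ) + 2) / (4 * d) then (d : ℝ) / 2 else ((d : ℝ) + 2) / (8 * s))
  else ((d : ℝ) + 1) / (8 * s)

end Pool.Agent.MP_546591_co
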