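import Pool.Agent.Lib.MP_546591_co.EvenCore
import Pool.Agent.Lib.MP_546591_co.Common

/-!
# The four-dimensional sets

`K` has `q = p^{2e}` elements, `H = {τ : τ ^ h = 1}` with `h (p + 1) = q - 1`, and
`E = {(τ - τ t^{p+1}, i (τ + τ t^{p+1}), τ t + τ t^p, i (τ t - τ t^p)) : τ ∈ H, t ∈ K}`.
All distances `4 τ τ' (t - t')^{p+1}` lie in `4 (H ∪ {0})`.
-/

namespace Pool.Agent.MP_546591_co

open Finset

section

variable {K : Type} [Field K]

/-- The linear change of coordinates. -/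
def lmap (i : K) (v : Fin 4 → K) : Fin 4 → K :=
  ![v 0 - v 3, i * (v 0 + v 3), v 1 + v 2, i * (v 1 - v 2)]

theorem lmap_add (i : K) (v w : Fin 4 → K) : lmap i (v + w) = lmap i v + lmap i w := by
  unfold lmap
  funext j
  fin_cases j <;> simp <;> ring

theorem lmap_inj (i : K) (hi : i ^ 2 = -1) (h2 : (2 : K) ≠ 0) {v w : Fin 4 → K}
    (h : lmap i v = lmap i w) : v = w := by
  have hi0 : i ≠ 0 := by
    rintro rfl
    simp at hi
  have e0 : v 0 - v 3 = w 0 - w 3 := by simpa [lmap] using congrFun h 0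
  have e1 : i * (v 0 + v 3) = i * (w 0 + w 3) := congrFun h 1
  have e2 : v 1 + v 2 = w 1 + w 2 := by simpa [lmap] using congrFun h 2
  have e3 : i * (v 1 - v 2) = i * (w 1 - w 2) := congrFun h 3
  have e1' := mul_left_cancel₀ hi0 e1
  have e3' := mul_left_cancel₀ hi0 e3
  have f0 : v 0 = w 0 := mul_left_cancel₀ h2 (by linear_combination e0 + e1')
  have f1 : v 1 = w 1 := mul_left_cancel₀ h2 (by linear_combination e2 + e3')
  have f2 : v 2 = w 2 := mul_left_cancel₀ h2 (by linear_combination e2 - e3')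
  have f3 : v 3 = w 3 := mul_left_cancel₀ h2 (by linear_combination e1' - e0)
  funext j
  fin_cases j
  · exact f0
  · exact f1
  · exact f2
  · exact f3

/-- The point with parameters `(τ, t)`. -/
def pt (p : ℕ) (i : K) (z : K × K) : Fin 4 → K := lmap i (z.1 • cvec p z.2)

theorem pt_inj (p : ℕ) (i : K) (hi : i ^ 2 = -1) (h2 : (2 : K) ≠ 0) {z w : K × K}
    (hz : z.1 ≠ 0) (h : pt p i z = pt p i w) : z = w := by
  have := lmap_inj i hi h2 h
  have e0 : z.1 = w.1 := by simpa [cvec] using congrFun this 0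
  have e1 : z.1 * z.2 = w.1 * w.2 := by simpa [cvec] using congrFun this 1
  rw [← e0] at e1
  exact Prod.ext e0 (mul_left_cancel₀ hz e1)

theorem nrm_pt_sub (p : ℕ) [Fact p.Prime] [CharP K p] (i : K) (hi : i ^ 2 = -1) (z w : K × K) :
    nrm (pt p i z - pt p i w) = 4 * (z.1 * w.1 * (z.2 - w.2) ^ (p + 1)) := by
  have h1 : (z.2 - w.2) ^ (p + 1) = (z.2 ^ p - w.2 ^ p) * (z.2 - w.2) := by
    rw [pow_succ, sub_pow_char]
  rw [h1]
  unfold nrm pt lmap cvec
  simp only [Fin.sum_univ_four, Pi.sub_apply, Pi.smul_apply, smul_eq_mul, Matrix.cons_val_zero,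
    Matrix.cons_val_one, Matrix.cons_val, mul_one]
  rw [pow_succ z.2 p, pow_succ w.2 p]
  linear_combination ((z.1 + z.1 * (z.2 ^ p * z.2) - (w.1 + w.1 * (w.2 ^ p * w.2))) ^ 2
    + (z.1 * z.2 - z.1 * z.2 ^ p - (w.1 * w.2 - w.1 * w.2 ^ p)) ^ 2) * hi

end

section

variable {K : Type} [Field K] [Fintype K] [DecidableEq K]

/-- The set `E`. -/
def evenSet (p h : ℕ) (i : K) : Finset (Fin 4 → K) :=
  (((univ : Finset K).filter fun a => a ^ h = 1) ×ˢ (univ : Finset K)).image (pt p i)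

theorem card_evenSet (p h : ℕ) (hh : h * (p + 1) = Fintype.card K - 1) (h0 : 0 < h) (i : K)
    (hi : i ^ 2 = -1) (h2 : (2 : K) ≠ 0) : (evenSet p h i).card = h * Fintype.card K := by
  unfold evenSet
  rw [card_image_of_injOn, card_product, card_univ,
    card_filter_pow_eq_one h (Dvd.intro _ hh)]
  intro z hz w _ hzw
  simp only [coe_product, coe_filter, Set.mem_prod, Set.mem_ofPred_eq] at hz
  refine pt_inj p i hi h2 ?_ hzw
  intro h3
  rw [h3, zero_pow h0.ne'] at hz
  exact zero_ne_one hz.1.2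

theorem distSet_evenSet (p h : ℕ) [Fact p.Prime] [CharP K p]
    (hh : h * (p + 1) = Fintype.card K - 1) (i : K)
    (hi : i ^ 2 = -1) : (distSet (evenSet p h i)).card ≤ h + 1 := by
  have hc := card_filter_pow_eq_one (K := K) h (Dvd.intro _ hh)
  have hsub : distSet (evenSet p h i) ⊆
      (insert 0 ((univ : Finset K).filter fun a => a ^ h = 1)).image (fun a => 4 * a) := by
    intro a ha
    unfold distSet evenSet at ha
    simp only [mem_image, mem_product, mem_filter, mem_univ, true_and, and_true,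
      Prod.exists] at ha
    obtain ⟨x, y, ⟨⟨τ, t, hτ, rfl⟩, ⟨τ', t', hτ', rfl⟩⟩, rfl⟩ := ha
    rw [nrm_pt_sub p i hi]
    simp only [mem_image, mem_insert, mem_filter, mem_univ, true_and]
    refine ⟨τ * τ' * (t - t') ^ (p + 1), ?_, rfl⟩
    by_cases ht : t - t' = 0
    · left
      rw [ht]; simp
    · right
      rw [mul_pow, mul_pow, hτ, hτ', ← pow_mul, mul_comm (p + 1), hh,
        FiniteField.pow_card_sub_one_eq_one _ ht]
      simp
  refine (card_le_card hsub).trans (card_image_le.trans ((card_insert_le _ _).trans ?_))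
  rw [hc]

theorem energy_evenSet (p h : ℕ) [Fact p.Prime] [CharP K p] (h0 : 0 < h) (i : K)
    (hi : i ^ 2 = -1) (h2 : (2 : K) ≠ 0) :
    energy (evenSet p h i) ≤ (p + 4) * Fintype.card K ^ 4 := by
  refine (energy_image_le _ _).trans (le_trans (card_le_card ?_) (even_energy_count p K))
  intro z hz
  have hne : ∀ a : K, a ^ h = 1 → a ≠ 0 := by
    rintro a ha rfl
    rw [zero_pow h0.ne'] at ha
    exact zero_ne_one ha
  simp only [mem_filter, mem_product, mem_univ, true_and, and_true] at hz ⊢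
  obtain ⟨⟨⟨ha, hb⟩, hc, hd⟩, hs⟩ := hz
  refine ⟨⟨hne _ ha, hne _ hb, hne _ hc, hne _ hd⟩, ?_⟩
  unfold pt at hs
  rw [← lmap_add, ← lmap_add] at hs
  exact lmap_inj i hi h2 hs

end

theorem family_four : Family 4 2 4 := by
  intro c ε Q₀ hc hε
  obtain ⟨e, he⟩ := exists_nat_ge (5 / ε)
  have he5 : 5 ≤ (e : ℝ) * ε := by
    rwa [div_le_iff₀ hε] at he
  have he0 : 0 < e := by
    rcases Nat.eq_zero_or_pos e with rfl | h
    · norm_num at he5
    · exact h
  obtain ⟨P, hP⟩ := exists_nat_ge (max (2 / c) Q₀)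
  obtain ⟨p, hpP, hp⟩ := Nat.exists_infinite_primes (max P 5)
  have : Fact p.Prime := ⟨hp⟩
  have hp5 : 5 ≤ p := le_trans (le_max_right _ _) hpP
  have hpP' : (P : ℝ) ≤ p := by exact_mod_cast le_trans (le_max_left _ _) hpP
  have hpc : 2 / c ≤ p := (le_max_left _ _).trans (hP.trans hpP')
  have hpQ : Q₀ ≤ p := (le_max_right _ _).trans (hP.trans hpP')
  have hn0 : 2 * e ≠ 0 := by omega
  letI : Fintype (GaloisField p (2 * e)) := Fintype.ofFinite _
  letI : DecidableEq (GaloisField p (2 * e)) := Classical.decEq _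
  have hcardK : Fintype.card (GaloisField p (2 * e)) = p ^ (2 * e) := by
    rw [← Nat.card_eq_fintype_card, GaloisField.card p (2 * e) hn0]
  have hodd : Odd p := hp.odd_of_ne_two (by omega)
  have hmod : Fintype.card (GaloisField p (2 * e)) % 4 = 1 := by
    rw [hcardK, pow_mul, Nat.pow_mod]
    have : p ^ 2 % 4 = 1 := by
      obtain ⟨k, rfl⟩ := hodd
      have : (2 * k + 1) ^ 2 = 4 * (k ^ 2 + k) + 1 := by ring
      rw [this]; omega
    rw [this]; simp
  obtain ⟨i, hi⟩ := exists_sq_eq_neg_one hmod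
  have hchar : ringChar (GaloisField p (2 * e)) = p := (ringChar.eq (GaloisField p (2 * e)) p)
  have hchar2 : ringChar (GaloisField p (2 * e)) ≠ 2 := by rw [hchar]; omega
  have h2 : (2 : GaloisField p (2 * e)) ≠ 0 := Ring.two_ne_zero hchar2
  have hdvd : p + 1 ∣ p ^ (2 * e) - 1 := by
    have h1 : p ^ 2 - 1 ∣ (p ^ 2) ^ e - 1 := by
      simpa using Nat.sub_dvd_pow_sub_pow (p ^ 2) 1 e
    rw [← pow_mul] at h1
    refine dvd_trans ?_ h1
    have : p ^ 2 - 1 = (p + 1) * (p - 1) := by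
      have := Nat.sq_sub_sq p 1
      simpa using this
    exact Dvd.intro _ this.symm
  obtain ⟨h, hh⟩ := hdvd
  have hh' : h * (p + 1) = Fintype.card (GaloisField p (2 * e)) - 1 := by
    rw [hcardK, hh, mul_comm]
  have hqbig : p ≤ p ^ (2 * e) := Nat.le_self_pow hn0 p
  have h0 : 0 < h := by
    rcases Nat.eq_zero_or_pos h with rfl | h0
    · simp at hh; omega
    · exact h0
  set q : ℕ := p ^ (2 * e) with hq
  have hqR : (q : ℝ) = (h : ℝ) * ((p : ℝ) + 1) + 1 := by
    have : q = h * (p + 1) + 1 := by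
      rw [mul_comm h, ← hh]
      have : 1 ≤ p ^ (2 * e) := Nat.one_le_pow _ _ hp.pos
      omega
    exact_mod_cast this
  have hp5R : (5 : ℝ) ≤ p := by exact_mod_cast hp5
  have hp0 : (0 : ℝ) < p := by linarith
  have hpqR : (p : ℝ) ≤ q := by exact_mod_cast hqbig
  have hq0 : (0 : ℝ) < q := by linarith
  have hq1 : (1 : ℝ) ≤ q := by linarith
  -- `q ^ ε ≥ p ^ 10`
  have hqε : (p : ℝ) ^ 10 ≤ (q : ℝ) ^ ε := by
    have h1 : (q : ℝ) ^ ε = (p : ℝ) ^ (((2 * e : ℕ) : ℝ) * ε) := by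
      rw [hq]
      push_cast
      rw [← Real.rpow_natCast, ← Real.rpow_mul hp0.le]
      push_cast
      ring_nf
    rw [h1, ← Real.rpow_natCast]
    apply Real.rpow_le_rpow_of_exponent_le (by linarith)
    push_cast
    linarith
  have hhq : (q : ℝ) / (4 * p) ≤ h := by
    rw [div_le_iff₀ (by positivity)]
    have : (1 : ℝ) ≤ h := by exact_mod_cast h0
    nlinarith
  have hcardE := card_evenSet (K := GaloisField p (2 * e)) p h hh' h0 i hi h2
  rw [hcardK] at hcardE
  refine ⟨GaloisField p (2 * e), inferInstance, inferInstance, inferInstance, hchar2, ⟨i, hi⟩, ?_,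
    evenSet p h i, ?_, ?_, ?_⟩
  · rw [hcardK]
    exact hpQ.trans hpqR
  · have h1 := distSet_evenSet (K := GaloisField p (2 * e)) p h hh' i hi
    have h2 : ((distSet (evenSet (K := GaloisField p (2 * e)) p h i)).card : ℝ) ≤ h + 1 := by
      exact_mod_cast h1
    refine h2.trans ?_
    rw [hcardK]
    have h3 : 2 ≤ c * p := by
      rwa [div_le_iff₀ hc, mul_comm] at hpc
    have h4 : ((h : ℝ) + 1) * p ≤ 2 * q := by nlinarith
    have h5 : ((h : ℝ) + 1) * p ≤ (c * q) * p := by nlinarith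
    exact le_of_mul_le_mul_right h5 hp0
  · rw [hcardE, hcardK]
    push_cast
    have h1 : (q : ℝ) ^ (2 - ε) = q ^ 2 / (q : ℝ) ^ ε := by
      rw [Real.rpow_sub hq0]
      norm_cast
    rw [h1, div_le_iff₀ (by positivity)]
    have h3 : (4 * p : ℝ) ≤ p ^ 10 := by
      have : (p : ℝ) ^ 10 = p * p ^ 9 := by ring
      rw [this]
      have : (5 : ℝ) ^ 9 ≤ p ^ 9 := pow_le_pow_left₀ (by norm_num) hp5R 9
      nlinarith
    have h4 : (q : ℝ) ≤ h * (4 * p) := by
      rwa [div_le_iff₀ (by positivity)] at hhq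
    calc (q : ℝ) ^ 2 = q * q := sq _
      _ ≤ (h * (4 * p)) * q := mul_le_mul_of_nonneg_right h4 hq0.le
      _ ≤ (h * (q : ℝ) ^ ε) * q := by
          apply mul_le_mul_of_nonneg_right _ hq0.le
          apply mul_le_mul_of_nonneg_left (h3.trans hqε) (by positivity)
      _ = _ := by ring
  · have h1 := energy_evenSet (K := GaloisField p (2 * e)) p h h0 i hi h2
    have h2 : (energy (evenSet (K := GaloisField p (2 * e)) p h i) : ℝ) ≤ ((p : ℝ) + 4) * q ^ 4 := by
      rw [hcardK] at h1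
      exact_mod_cast h1
    refine h2.trans ?_
    rw [hcardE, hcardK]
    push_cast
    have h3 : (q : ℝ) ^ (-(4 : ℝ) + ε) = (q : ℝ) ^ ε / q ^ 4 := by
      rw [Real.rpow_add hq0, Real.rpow_neg hq0.le]
      norm_cast
      rw [inv_mul_eq_div]
    rw [h3]
    have h4 : (q : ℝ) ≤ h * (4 * p) := by
      rwa [div_le_iff₀ (by positivity)] at hhq
    have h5 : (q : ℝ) ^ 4 ≤ (h * (4 * p)) ^ 4 := pow_le_pow_left₀ hq0.le h4 4
    have h6 : ((p : ℝ) + 4) * (256 * p ^ 4) ≤ p ^ 10 := by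
      have e1 : (p : ℝ) + 4 ≤ 2 * p := by linarith
      have e2 : (5 : ℝ) ^ 5 ≤ p ^ 5 := pow_le_pow_left₀ (by norm_num) hp5R 5
      have e3 : (0 : ℝ) < p ^ 4 := by positivity
      have e4 : (0 : ℝ) < p ^ 5 := by positivity
      calc ((p : ℝ) + 4) * (256 * p ^ 4) ≤ (2 * p) * (256 * p ^ 4) :=
            mul_le_mul_of_nonneg_right e1 (by positivity)
        _ = 512 * p ^ 5 := by ring
        _ ≤ p ^ 5 * p ^ 5 := by nlinarith
        _ = _ := by ring
    have h7 : (q : ℝ) ^ ε / q ^ 4 * (h * q) ^ 4 = (q : ℝ) ^ ε * (h : ℝ) ^ 4 := by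
      field_simp
    rw [h7]
    calc ((p : ℝ) + 4) * q ^ 4 ≤ ((p : ℝ) + 4) * (h * (4 * p)) ^ 4 :=
          mul_le_mul_of_nonneg_left h5 (by positivity)
      _ = (((p : ℝ) + 4) * (256 * p ^ 4)) * (h : ℝ) ^ 4 := by ring
      _ ≤ (q : ℝ) ^ ε * (h : ℝ) ^ 4 :=
          mul_le_mul_of_nonneg_right (h6.trans hqε) (by positivity)

end Pool.Agent.MP_546591_co
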