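import Pool.Agent.Lib.MP_546591_co.Defs

/-!
# Even dimension, energy count (task: EvenCore)

`K` a finite field of characteristic `p` with `q` elements, `c(t) = (1, t, t^p, t^{p+1})`.
The number of solutions of `τ₁ c(t₁) + τ₂ c(t₂) = τ₃ c(t₃) + τ₄ c(t₄)` with all `τ_i ≠ 0` is at
most `(p+4) q⁴`.

(a) `indep3`: if `x, y, z` are distinct and `α c(x) + β c(y) + γ c(z) = 0` then `α = β = γ = 0`.
(b) If at most three distinct values of `t` occur then the solution is one of four degenerate
    kinds, each with at most `q⁴` members.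
(c) All `t_i` distinct: the solution is determined by `(t₄, t₁, t₂, τ₁, ρ)` where
    `ρ = (b₃-b₁)/(b₂-b₁)`, `b_i = 1/(t_i - t₄)`, satisfies `ρ^p = ρ`.
-/

namespace Pool.Agent.MP_546591_co

open Finset

/-- `(1, t, t^p, t^{p+1})`. -/
def cvec {K : Type} [Field K] (p : ℕ) (t : K) : Fin 4 → K := ![1, t, t ^ p, t ^ (p + 1)]

namespace EvenCoreAux

variable {K : Type} [Field K]

/-- Three distinct points: the coefficient of the first one vanishes. -/
lemma indep3 (p : ℕ) [Fact p.Prime] [CharP K p] (α β γ x y z : K)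
    (hxy : x ≠ y) (hxz : x ≠ z) (hyz : y ≠ z)
    (h0 : α + β + γ = 0) (h1 : α * x + β * y + γ * z = 0)
    (h2 : α * x ^ p + β * y ^ p + γ * z ^ p = 0)
    (h3 : α * x ^ (p + 1) + β * y ^ (p + 1) + γ * z ^ (p + 1) = 0) : α = 0 := by
  have hb : y - z ≠ 0 := sub_ne_zero.mpr hyz
  have ha : x - z ≠ 0 := sub_ne_zero.mpr hxz
  have hab : x - y ≠ 0 := sub_ne_zero.mpr hxy
  have e1 : α * (x - z) + β * (y - z) = 0 := by linear_combination h1 - z * h0
  have e3 : α * (x - z) * (x ^ p - z ^ p) + β * (y - z) * (y ^ p - z ^ p) = 0 := by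
    simp only [pow_succ] at h3
    linear_combination h3 - z ^ p * h1 - z * h2 + z * z ^ p * h0
  have e4 : α * (x - z) * (x ^ p - y ^ p) = 0 := by
    linear_combination e3 - (y ^ p - z ^ p) * e1
  have hfr : x ^ p - y ^ p = (x - y) ^ p := (sub_pow_char x y).symm
  rw [hfr] at e4
  have hp : (x - y) ^ p ≠ 0 := pow_ne_zero _ hab
  rcases mul_eq_zero.mp e4 with h | h
  · rcases mul_eq_zero.mp h with h | h
    · exact h
    · exact absurd h ha
  · exact absurd h hp

/-- Two distinct points: the coefficient of the first one vanishes. -/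
lemma indep2 (α β x y : K) (hxy : x ≠ y) (h0 : α + β = 0) (h1 : α * x + β * y = 0) : α = 0 := by
  have e : α * (x - y) = 0 := by linear_combination h1 - y * h0
  rcases mul_eq_zero.mp e with h | h
  · exact h
  · exact absurd h (sub_ne_zero.mpr hxy)

/-- The four scalar equations. -/
lemma scalars (p : ℕ) {a b c d s t u v : K}
    (h : a • cvec p s + b • cvec p t = c • cvec p u + d • cvec p v) :
    a + b = c + d ∧ a * s + b * t = c * u + d * v ∧
      a * s ^ p + b * t ^ p = c * u ^ p + d * v ^ p ∧
      a * s ^ (p + 1) + b * t ^ (p + 1) = c * u ^ (p + 1) + d * v ^ (p + 1) := by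
  have h0 := congrFun h 0
  have h1 := congrFun h 1
  have h2 := congrFun h 2
  have h3 := congrFun h 3
  simp [cvec] at h0 h1 h2 h3
  exact ⟨h0, h1, h2, h3⟩

/-- The parametrisation of the generic solutions. -/
def gen (p : ℕ) (w : K × ((K × K) × (K × K))) : ((K × K) × (K × K)) × ((K × K) × (K × K)) :=
  let ρ := w.1
  let t4 := w.2.1.1
  let t1 := w.2.1.2
  let t2 := w.2.2.1
  let τ1 := w.2.2.2
  let b1 := (t1 - t4)⁻¹
  let b2 := (t2 - t4)⁻¹
  let b3 := b1 + ρ * (b2 - b1)
  let A1 := τ1 * (t1 - t4) ^ (p + 1)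
  let A3 := A1 / (ρ - 1)
  let A2 := -ρ * A3
  let τ2 := A2 * b2 ^ (p + 1)
  let τ3 := -A3 * b3 ^ (p + 1)
  (((τ1, t1), (τ2, t2)), ((τ3, t4 + b3⁻¹), (τ1 + τ2 - τ3, t4)))

lemma generic (p : ℕ) [Fact p.Prime] [CharP K p] {a b c d s t u v : K} (hc : c ≠ 0)
    (hst : s ≠ t) (hsu : s ≠ u) (htu : t ≠ u) (hsv : s ≠ v) (htv : t ≠ v) (huv : u ≠ v)
    (h0 : a + b = c + d) (h1 : a * s + b * t = c * u + d * v)
    (h2 : a * s ^ p + b * t ^ p = c * u ^ p + d * v ^ p)
    (h3 : a * s ^ (p + 1) + b * t ^ (p + 1) = c * u ^ (p + 1) + d * v ^ (p + 1)) :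
    ∃ ρ : K, ρ ^ p = ρ ∧ gen p (ρ, ((v, s), (t, a))) = (((a, s), (b, t)), ((c, u), (d, v))) := by
  have ha1 : s - v ≠ 0 := sub_ne_zero.mpr hsv
  have ha2 : t - v ≠ 0 := sub_ne_zero.mpr htv
  have ha3 : u - v ≠ 0 := sub_ne_zero.mpr huv
  obtain ⟨b1, hb1⟩ : ∃ b1, b1 = (s - v)⁻¹ := ⟨_, rfl⟩
  obtain ⟨b2, hb2⟩ : ∃ b2, b2 = (t - v)⁻¹ := ⟨_, rfl⟩
  obtain ⟨b3, hb3⟩ : ∃ b3, b3 = (u - v)⁻¹ := ⟨_, rfl⟩
  have m1 : b1 * (s - v) = 1 := by rw [hb1]; exact inv_mul_cancel₀ ha1
  have m2 : b2 * (t - v) = 1 := by rw [hb2]; exact inv_mul_cancel₀ ha2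
  have m3 : b3 * (u - v) = 1 := by rw [hb3]; exact inv_mul_cancel₀ ha3
  have f1 : (s - v) ^ p = s ^ p - v ^ p := sub_pow_char s v
  have f2 : (t - v) ^ p = t ^ p - v ^ p := sub_pow_char t v
  have f3 : (u - v) ^ p = u ^ p - v ^ p := sub_pow_char u v
  have n1 : b1 ^ p * (s - v) ^ p = 1 := by rw [← mul_pow, m1, one_pow]
  have n2 : b2 ^ p * (t - v) ^ p = 1 := by rw [← mul_pow, m2, one_pow]
  have n3 : b3 ^ p * (u - v) ^ p = 1 := by rw [← mul_pow, m3, one_pow]
  -- the three relations
  have E1 : a * (s - v) + b * (t - v) - c * (u - v) = 0 := by linear_combination h1 - v * h0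
  have E2 : a * (s - v) ^ p + b * (t - v) ^ p - c * (u - v) ^ p = 0 := by
    rw [f1, f2, f3]; linear_combination h2 - v ^ p * h0
  have E3 : a * (s - v) ^ (p + 1) + b * (t - v) ^ (p + 1) - c * (u - v) ^ (p + 1) = 0 := by
    simp only [pow_succ] at h3 ⊢
    rw [f1, f2, f3]
    linear_combination h3 - v ^ p * h1 - v * h2 + v * v ^ p * h0
  obtain ⟨A1, hA1⟩ : ∃ A1, A1 = a * (s - v) ^ (p + 1) := ⟨_, rfl⟩
  obtain ⟨A2, hA2⟩ : ∃ A2, A2 = b * (t - v) ^ (p + 1) := ⟨_, rfl⟩
  obtain ⟨A3, hA3⟩ : ∃ A3, A3 = -c * (u - v) ^ (p + 1) := ⟨_, rfl⟩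
  have S0 : A1 + A2 + A3 = 0 := by rw [hA1, hA2, hA3]; linear_combination E3
  have S1 : A1 * b1 + A2 * b2 + A3 * b3 = 0 := by
    rw [hA1, hA2, hA3]; simp only [pow_succ]
    linear_combination E2 + a * (s - v) ^ p * m1 + b * (t - v) ^ p * m2 - c * (u - v) ^ p * m3
  have S2 : A1 * b1 ^ p + A2 * b2 ^ p + A3 * b3 ^ p = 0 := by
    rw [hA1, hA2, hA3]; simp only [pow_succ]
    linear_combination E1 + a * (s - v) * n1 + b * (t - v) * n2 - c * (u - v) * n3
  have hA3' : A3 ≠ 0 := by
    rw [hA3]; exact mul_ne_zero (neg_ne_zero.mpr hc) (pow_ne_zero _ ha3)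
  have hu : b2 - b1 ≠ 0 := by
    intro h
    apply hst
    have hh : b2 = b1 := sub_eq_zero.mp h
    rw [hb1, hb2] at hh
    have := inv_injective hh
    linear_combination -this
  have hv : b3 - b1 ≠ 0 := by
    intro h
    apply hsu
    have hh : b3 = b1 := sub_eq_zero.mp h
    rw [hb1, hb3] at hh
    have := inv_injective hh
    linear_combination -this
  have hw : b3 - b2 ≠ 0 := by
    intro h
    apply htu
    have hh : b3 = b2 := sub_eq_zero.mp h
    rw [hb2, hb3] at hh
    have := inv_injective hh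
    linear_combination -this
  have R1 : A2 * (b2 - b1) = -(A3 * (b3 - b1)) := by linear_combination S1 - b1 * S0
  have R2 : A2 * (b2 - b1) ^ p = -(A3 * (b3 - b1) ^ p) := by
    rw [sub_pow_char b2 b1, sub_pow_char b3 b1]
    linear_combination S2 - b1 ^ p * S0
  obtain ⟨ρ, hρ⟩ : ∃ ρ, ρ = (b3 - b1) / (b2 - b1) := ⟨_, rfl⟩
  have hρ' : ρ * (b2 - b1) = b3 - b1 := by rw [hρ]; exact div_mul_cancel₀ _ hu
  have hA2' : A2 = -ρ * A3 := by
    have : (A2 + ρ * A3) * (b2 - b1) = 0 := by linear_combination R1 + A3 * hρ'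
    rcases mul_eq_zero.mp this with h | h
    · linear_combination h
    · exact absurd h hu
  have hρp : ρ ^ p = ρ := by
    have hk : ρ ^ p * (b2 - b1) ^ p = (b3 - b1) ^ p := by rw [← mul_pow, hρ']
    have : (ρ ^ p - ρ) * (A3 * (b2 - b1) ^ p) = 0 := by
      rw [hA2'] at R2
      linear_combination A3 * hk + R2
    rcases mul_eq_zero.mp this with h | h
    · exact sub_eq_zero.mp h
    · exact absurd h (mul_ne_zero hA3' (pow_ne_zero _ hu))
  have hρ1 : ρ - 1 ≠ 0 := by
    intro h
    apply hw
    have : ρ = 1 := sub_eq_zero.mp h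
    rw [this] at hρ'
    linear_combination -hρ'
  have hA13 : A1 / (ρ - 1) = A3 := by
    rw [div_eq_iff hρ1]
    linear_combination S0 - hA2'
  refine ⟨ρ, hρp, ?_⟩
  have g3 : b1 + ρ * (b2 - b1) = b3 := by linear_combination hρ'
  have gt2 : -ρ * A3 * b2 ^ (p + 1) = b := by
    rw [← hA2', hA2, mul_assoc, ← mul_pow, mul_comm (t - v) b2, m2, one_pow, mul_one]
  have gt3 : -A3 * b3 ^ (p + 1) = c := by
    have hh : (u - v) ^ (p + 1) * b3 ^ (p + 1) = 1 := by
      rw [← mul_pow, mul_comm (u - v) b3, m3, one_pow]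
    rw [hA3]
    linear_combination c * hh
  have gu : v + b3⁻¹ = u := by rw [hb3, inv_inv]; ring
  simp only [gen]
  rw [← hA1, ← hb1, ← hb2, g3, hA13, gt2, gt3, gu]
  have : a + b - c = d := by linear_combination h0
  rw [this]

/-- all four points equal -/
def f0 (w : (K × K) × (K × K)) : ((K × K) × (K × K)) × ((K × K) × (K × K)) :=
  (((w.1.1, w.1.2), (w.2.1, w.1.2)), ((w.2.2, w.1.2), (w.1.1 + w.2.1 - w.2.2, w.1.2)))

/-- `t₁ = t₂`, `t₃ = t₄` -/
def f1 (w : (K × K) × (K × K)) : ((K × K) × (K × K)) × ((K × K) × (K × K)) :=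
  (((w.1.1, w.1.2), (-w.1.1, w.1.2)), ((w.2.1, w.2.2), (-w.2.1, w.2.2)))

/-- `t₁ = t₃`, `t₂ = t₄` -/
def f2 (w : (K × K) × (K × K)) : ((K × K) × (K × K)) × ((K × K) × (K × K)) :=
  (((w.1.1, w.1.2), (w.2.1, w.2.2)), ((w.1.1, w.1.2), (w.2.1, w.2.2)))

/-- `t₁ = t₄`, `t₂ = t₃` -/
def f3 (w : (K × K) × (K × K)) : ((K × K) × (K × K)) × ((K × K) × (K × K)) :=
  (((w.1.1, w.1.2), (w.2.1, w.2.2)), ((w.2.1, w.2.2), (w.1.1, w.1.2)))

lemma classify (p : ℕ) [Fact p.Prime] [CharP K p] {a b c d s t u v : K}
    (ha : a ≠ 0) (hb : b ≠ 0) (hc : c ≠ 0) (hd : d ≠ 0)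
    (h : a • cvec p s + b • cvec p t = c • cvec p u + d • cvec p v) :
    (∃ w, f0 w = (((a, s), (b, t)), ((c, u), (d, v)))) ∨
    (∃ w, f1 w = (((a, s), (b, t)), ((c, u), (d, v)))) ∨
    (∃ w, f2 w = (((a, s), (b, t)), ((c, u), (d, v)))) ∨
    (∃ w, f3 w = (((a, s), (b, t)), ((c, u), (d, v)))) ∨
    (∃ ρ : K, ρ ^ p = ρ ∧ ∃ w, gen p (ρ, w) = (((a, s), (b, t)), ((c, u), (d, v)))) := by
  obtain ⟨h0, h1, h2, h3⟩ := scalars p h
  by_cases hst : s = t
  · subst hst
    by_cases huv : u = v
    · subst huv
      by_cases hsu : s = u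
      · subst hsu
        left
        refine ⟨((a, s), (b, c)), ?_⟩
        have : a + b - c = d := by linear_combination h0
        simp [f0, this]
      · right; left
        have k1 : a + b = 0 :=
          indep2 (a + b) (-(c + d)) s u hsu (by linear_combination h0) (by linear_combination h1)
        have k2 : c + d = 0 := by linear_combination k1 - h0
        refine ⟨((a, s), (c, u)), ?_⟩
        have e1 : -a = b := by linear_combination -k1
        have e2 : -c = d := by linear_combination -k2
        simp [f1, e1, e2]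
    · exfalso
      by_cases hsu : s = u
      · subst hsu
        apply hd
        exact indep2 d (c - a - b) v s (Ne.symm huv) (by linear_combination -h0)
          (by linear_combination -h1)
      · by_cases hsv : s = v
        · subst hsv
          apply hc
          exact indep2 c (d - a - b) u s huv (by linear_combination -h0)
            (by linear_combination -h1)
        · apply hc
          exact indep3 p c d (-(a + b)) u v s huv (Ne.symm hsu) (Ne.symm hsv)
            (by linear_combination -h0) (by linear_combination -h1)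
            (by linear_combination -h2) (by linear_combination -h3)
  · by_cases huv : u = v
    · subst huv
      exfalso
      by_cases hsu : s = u
      · subst hsu
        apply hb
        exact indep2 b (a - c - d) t s (Ne.symm hst) (by linear_combination h0)
          (by linear_combination h1)
      · by_cases htu : t = u
        · subst htu
          apply ha
          exact indep2 a (b - c - d) s t hst (by linear_combination h0)
            (by linear_combination h1)
        · apply ha
          exact indep3 p a b (-(c + d)) s t u hst hsu htu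
            (by linear_combination h0) (by linear_combination h1)
            (by linear_combination h2) (by linear_combination h3)
    · by_cases hsu : s = u
      · subst hsu
        by_cases htv : t = v
        · subst htv
          right; right; left
          have k1 : a - c = 0 :=
            indep2 (a - c) (b - d) s t hst (by linear_combination h0) (by linear_combination h1)
          have e1 : a = c := sub_eq_zero.mp k1
          have e2 : b = d := by linear_combination h0 - k1
          refine ⟨((a, s), (b, t)), ?_⟩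
          simp only [f2]
          rw [← e1, ← e2]
        · exfalso
          apply hb
          exact indep3 p b (a - c) (-d) t s v (Ne.symm hst) htv huv
            (by linear_combination h0) (by linear_combination h1)
            (by linear_combination h2) (by linear_combination h3)
      · by_cases hsv : s = v
        · subst hsv
          by_cases htu : t = u
          · subst htu
            right; right; right; left
            have k1 : a - d = 0 :=
              indep2 (a - d) (b - c) s t hst (by linear_combination h0) (by linear_combination h1)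
            have e1 : a = d := sub_eq_zero.mp k1
            have e2 : b = c := by linear_combination h0 - k1
            refine ⟨((a, s), (b, t)), ?_⟩
            simp only [f3]
            rw [← e1, ← e2]
          · exfalso
            apply hb
            exact indep3 p b (a - d) (-c) t s u (Ne.symm hst) htu hsu
              (by linear_combination h0) (by linear_combination h1)
              (by linear_combination h2) (by linear_combination h3)
        · by_cases htu : t = u
          · subst htu
            exfalso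
            apply ha
            exact indep3 p a (b - c) (-d) s t v hst hsv huv
              (by linear_combination h0) (by linear_combination h1)
              (by linear_combination h2) (by linear_combination h3)
          · by_cases htv : t = v
            · subst htv
              exfalso
              apply ha
              exact indep3 p a (b - d) (-c) s t u hst hsu htu
                (by linear_combination h0) (by linear_combination h1)
                (by linear_combination h2) (by linear_combination h3)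
            · right; right; right; right
              obtain ⟨ρ, hρ, hg⟩ := generic p hc hst hsu htu hsv htv huv h0 h1 h2 h3
              exact ⟨ρ, hρ, _, hg⟩

lemma card_fixed_le (p : ℕ) [Fact p.Prime] [Fintype K] [DecidableEq K] :
    ((univ : Finset K).filter fun ρ => ρ ^ p = ρ).card ≤ p := by
  classical
  have hp : 1 < p := (Fact.out : p.Prime).one_lt
  have hne : (Polynomial.X ^ p - Polynomial.X : Polynomial K) ≠ 0 := by
    intro h
    have := congrArg (fun P => Polynomial.coeff P p) h
    simp only [Polynomial.coeff_sub, Polynomial.coeff_X_pow, Polynomial.coeff_X, if_true,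
      Polynomial.coeff_zero] at this
    rw [if_neg (by omega)] at this
    simp at this
  have hdeg : (Polynomial.X ^ p - Polynomial.X : Polynomial K).natDegree ≤ p := by
    refine (Polynomial.natDegree_sub_le _ _).trans ?_
    rw [Polynomial.natDegree_X_pow, Polynomial.natDegree_X]
    omega
  have hsub : ((univ : Finset K).filter fun ρ => ρ ^ p = ρ) ⊆
      (Polynomial.X ^ p - Polynomial.X : Polynomial K).roots.toFinset := by
    intro ρ hρ
    rw [mem_filter] at hρ
    rw [Multiset.mem_toFinset, Polynomial.mem_roots hne, Polynomial.IsRoot.def]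
    simp [hρ.2]
  calc _ ≤ ((Polynomial.X ^ p - Polynomial.X : Polynomial K).roots.toFinset).card :=
        card_le_card hsub
    _ ≤ Multiset.card (Polynomial.X ^ p - Polynomial.X : Polynomial K).roots :=
        Multiset.toFinset_card_le _
    _ ≤ (Polynomial.X ^ p - Polynomial.X : Polynomial K).natDegree := Polynomial.card_roots' _
    _ ≤ p := hdeg

end EvenCoreAux

open EvenCoreAux

theorem even_energy_count (p : ℕ) [Fact p.Prime] (K : Type) [Field K] [Fintype K]
    [DecidableEq K] [CharP K p] :
    ((univ : Finset (((K × K) × (K × K)) × ((K × K) × (K × K)))).filter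
      fun z => (z.1.1.1 ≠ 0 ∧ z.1.2.1 ≠ 0 ∧ z.2.1.1 ≠ 0 ∧ z.2.2.1 ≠ 0) ∧
        z.1.1.1 • cvec p z.1.1.2 + z.1.2.1 • cvec p z.1.2.2 =
          z.2.1.1 • cvec p z.2.1.2 + z.2.2.1 • cvec p z.2.2.2).card
      ≤ (p + 4) * Fintype.card K ^ 4 := by
  classical
  set q := Fintype.card K with hq
  set R : Finset K := (univ : Finset K).filter fun ρ => ρ ^ p = ρ with hR
  have hcardU : (univ : Finset ((K × K) × (K × K))).card = q ^ 4 := by
    rw [Finset.card_univ, Fintype.card_prod, Fintype.card_prod, ← hq]
    ring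
  have hsub : ((univ : Finset (((K × K) × (K × K)) × ((K × K) × (K × K)))).filter
      fun z => (z.1.1.1 ≠ 0 ∧ z.1.2.1 ≠ 0 ∧ z.2.1.1 ≠ 0 ∧ z.2.2.1 ≠ 0) ∧
        z.1.1.1 • cvec p z.1.1.2 + z.1.2.1 • cvec p z.1.2.2 =
          z.2.1.1 • cvec p z.2.1.2 + z.2.2.1 • cvec p z.2.2.2) ⊆
      ((((univ : Finset ((K × K) × (K × K))).image f0 ∪ univ.image f1) ∪ univ.image f2) ∪
        univ.image f3) ∪ (R ×ˢ (univ : Finset ((K × K) × (K × K)))).image (gen p) := by
    rintro ⟨⟨⟨a, s⟩, ⟨b, t⟩⟩, ⟨⟨c, u⟩, ⟨d, v⟩⟩⟩ hz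
    rw [mem_filter] at hz
    obtain ⟨-, ⟨ha, hb, hc, hd⟩, h⟩ := hz
    simp only [mem_union, mem_image, mem_univ, true_and, mem_product]
    rcases classify p ha hb hc hd h with h | h | h | h | ⟨ρ, hρ, w, hw⟩
    · exact Or.inl (Or.inl (Or.inl (Or.inl h)))
    · exact Or.inl (Or.inl (Or.inl (Or.inr h)))
    · exact Or.inl (Or.inl (Or.inr h))
    · exact Or.inl (Or.inr h)
    · refine Or.inr ⟨(ρ, w), ⟨?_, trivial⟩, hw⟩
      rw [hR, mem_filter]
      exact ⟨mem_univ _, hρ⟩
  refine (card_le_card hsub).trans ?_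
  refine (card_union_le _ _).trans ?_
  have k0 : ((univ : Finset ((K × K) × (K × K))).image f0).card ≤ q ^ 4 :=
    card_image_le.trans hcardU.le
  have k1 : ((univ : Finset ((K × K) × (K × K))).image f1).card ≤ q ^ 4 :=
    card_image_le.trans hcardU.le
  have k2 : ((univ : Finset ((K × K) × (K × K))).image f2).card ≤ q ^ 4 :=
    card_image_le.trans hcardU.le
  have k3 : ((univ : Finset ((K × K) × (K × K))).image f3).card ≤ q ^ 4 :=
    card_image_le.trans hcardU.le
  have k4 : ((R ×ˢ (univ : Finset ((K × K) × (K × K)))).image (gen p)).card ≤ p * q ^ 4 := by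
    refine card_image_le.trans ?_
    rw [card_product, hcardU]
    exact Nat.mul_le_mul_right _ (card_fixed_le p)
  have k01 := card_union_le ((univ : Finset ((K × K) × (K × K))).image f0) (univ.image f1)
  have k012 := card_union_le ((univ : Finset ((K × K) × (K × K))).image f0 ∪ univ.image f1)
    (univ.image f2)
  have k0123 := card_union_le (((univ : Finset ((K × K) × (K × K))).image f0 ∪ univ.image f1) ∪
    univ.image f2) (univ.image f3)
  have : (p + 4) * q ^ 4 = q ^ 4 + q ^ 4 + q ^ 4 + q ^ 4 + p * q ^ 4 := by ring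
  rw [this]
  omega

end Pool.Agent.MP_546591_co
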