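import Pool.Agent.Lib.MP_546591_co.Defs

/-!
# Upper bound `α(d,4,s) ≤ (d+4)/(8s)` for `d ≥ 4` (task: Fourier)

Let `F` be a finite field of odd characteristic, `q = |F|`, `χ` a primitive additive character
`F → ℂ` (e.g. `FiniteField.primitiveChar_to_Complex` / `AddChar.FiniteField.primitiveChar`), `V = Fin d → F`.
For `E ⊆ V` put `ê(ξ) = ∑_{x∈E} χ(ξ·x)`.

(1) `∑_{ξ∈V} χ(ξ·x) = q^d` if `x = 0`, else `0` (product of one-dimensional sums,
    `AddChar.sum_mulShift`).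
(2) `∑_ξ |ê(ξ)|⁴ = q^d Λ₄(E)`.
(3) `T(t) = ∑_{x,y∈E} χ(t‖x-y‖)`, `ν(a) = #{(x,y)∈E² : ‖x-y‖ = a}`, `N = ∑_a ν(a)²`:
    `q N = ∑_t |T(t)|²`, `T(0) = |E|²`.
(4) `|E|⁴ = (∑_a ν(a))² ≤ |Δ(E)| N`.
(5) For `t ≠ 0`: `|T(t)|² ≤ |E| ∑_{x∈E} |∑_{y∈E} χ(t‖x-y‖)|²
      = |E| ∑_{y,y'∈E} χ(t(‖y‖-‖y'‖)) ê(-2t(y-y'))`, so with `f(v) = #{(y,y')∈E² : y-y' = v}`
      and `g(v) = |ê(-2tv)|`: `|T(t)|² ≤ |E| ∑_v f(v) g(v)`.
(6) `(∑ f g)² ≤ (∑ f)(∑ f g²)`, `(∑ f g²)² ≤ (∑ f²)(∑ g⁴)`, `∑ f = |E|²`, `∑ f² = Λ₄(E)`,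
    `∑ g⁴ = q^d Λ₄(E)` (as `v ↦ -2tv` is a bijection). So `(∑ f g)⁴ ≤ |E|⁴ q^d Λ²` and
    `|T(t)|² ≤ |E|² q^{d/4} Λ^{1/2}`.
(7) `N ≤ |E|⁴/q + |E|² q^{d/4} Λ^{1/2}`.
(8) So `|Δ| ≥ ½ min(q, |E|² q^{-d/4} Λ^{-1/2})`.  If `Λ ≤ C₀(|E|⁴q^{-d} + |E|^{4-4s})` then either
    `Λ ≤ 2C₀|E|⁴q^{-d}`, and `|E|² q^{-d/4}Λ^{-1/2} ≥ q^{d/4}(2C₀)^{-1/2} ≥ q (2C₀)^{-1/2}` (`d ≥ 4`), or
    `Λ ≤ 2C₀|E|^{4-4s}`, and `|E|²q^{-d/4}Λ^{-1/2} ≥ (2C₀)^{-1/2}|E|^{2s}q^{-d/4} ≥ (2C₀)^{-1/2} q`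
    when `|E| ≥ q^{(d+4)/(8s)}`.  So `C = 1`, `c = ½ min(1, (2C₀)^{-1/2})` work.
-/

namespace Pool.Agent.MP_546591_co

open Finset

/-- Parseval count for an orthogonal family of characters. -/
theorem Fourier_parseval {X A ι : Type*} [Fintype X] [AddCommGroup A] [Finite A] [DecidableEq A]
    (ψ : X → AddChar A ℂ) (M : ℝ)
    (hψ : ∀ a : A, ∑ ξ, ψ ξ a = if a = 0 then (M : ℂ) else 0)
    (P : Finset ι) (h : ι → A) :
    ∑ ξ, ‖∑ z ∈ P, ψ ξ (h z)‖ ^ 2 =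
      M * (((P ×ˢ P).filter fun w => h w.1 = h w.2).card : ℝ) := by
  apply Complex.ofReal_injective
  push_cast
  have h1 : ∀ ξ, ((‖∑ z ∈ P, ψ ξ (h z)‖ : ℂ)) ^ 2 = ∑ w ∈ P ×ˢ P, ψ ξ (h w.1 - h w.2) := by
    intro ξ
    rw [← Complex.mul_conj', map_sum, Finset.sum_mul_sum, ← Finset.sum_product']
    refine Finset.sum_congr rfl fun w _ => ?_
    rw [← AddChar.map_neg_eq_conj, ← AddChar.map_add_eq_mul, sub_eq_add_neg]
  simp_rw [h1]
  rw [Finset.sum_comm]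
  simp_rw [hψ, sub_eq_zero]
  rw [← Finset.sum_filter, Finset.sum_const, nsmul_eq_mul, mul_comm]

/-- Cauchy-Schwarz along the fibres of `h`. -/
theorem Fourier_fiber {A ι : Type*} [Fintype A] [DecidableEq A]
    (P : Finset ι) (h : ι → A) (G : A → ℝ) :
    (∑ z ∈ P, G (h z)) ^ 2 ≤
      (((P ×ˢ P).filter fun w => h w.1 = h w.2).card : ℝ) * ∑ a, G a ^ 2 := by
  have h1 : ∑ z ∈ P, G (h z) = ∑ a, ((P.filter fun z => h z = a).card : ℝ) * G a := by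
    have h2 : ∀ z ∈ P, G (h z) = ∑ a, if h z = a then G a else 0 := by
      intro z _
      simp
    rw [Finset.sum_congr rfl h2, Finset.sum_comm]
    refine Finset.sum_congr rfl fun a _ => ?_
    rw [← Finset.sum_filter, Finset.sum_const, nsmul_eq_mul]
  have h3 : ((((P ×ˢ P).filter fun w => h w.1 = h w.2).card : ℝ)) =
      ∑ a, ((P.filter fun z => h z = a).card : ℝ) ^ 2 := by
    have h4 : ((P ×ˢ P).filter fun w => h w.1 = h w.2).card =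
        ∑ a, (((P ×ˢ P).filter fun w => h w.1 = h w.2).filter fun w => h w.2 = a).card :=
      Finset.card_eq_sum_card_fiberwise (fun w _ => Finset.mem_coe.2 (Finset.mem_univ _))
    rw [h4]
    push_cast
    refine Finset.sum_congr rfl fun a _ => ?_
    have h5 : (((P ×ˢ P).filter fun w => h w.1 = h w.2).filter fun w => h w.2 = a) =
        (P.filter fun z => h z = a) ×ˢ (P.filter fun z => h z = a) := by
      ext w
      simp only [Finset.mem_filter, Finset.mem_product]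
      constructor
      · rintro ⟨⟨⟨h6, h7⟩, h8⟩, h9⟩
        exact ⟨⟨h6, h8.trans h9⟩, h7, h9⟩
      · rintro ⟨⟨h6, h7⟩, h8, h9⟩
        exact ⟨⟨⟨h6, h8⟩, h7.trans h9.symm⟩, h9⟩
    rw [h5, Finset.card_product]
    push_cast
    ring
  rw [h1, h3]
  exact Finset.sum_mul_sq_le_sq_mul_sq _ _ _

theorem Fourier_map_sum {F ι : Type*} [Field F] (χ : AddChar F ℂ) (s : Finset ι) (f : ι → F) :
    χ (∑ i ∈ s, f i) = ∏ i ∈ s, χ (f i) := by
  classical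
  induction s using Finset.induction_on with
  | empty => simp
  | insert a s ha ih => rw [sum_insert ha, prod_insert ha, AddChar.map_add_eq_mul, ih]

/-- The character `x ↦ χ (ξ · x)` of `F^d`. -/
noncomputable def Fourier_dot {d : ℕ} {F : Type} [Field F] (χ : AddChar F ℂ)
    (ξ : Fin d → F) : AddChar (Fin d → F) ℂ where
  toFun x := χ (∑ i, ξ i * x i)
  map_zero_eq_one' := by simp
  map_add_eq_mul' x y := by
    rw [← AddChar.map_add_eq_mul, ← Finset.sum_add_distrib]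
    congr 1
    exact Finset.sum_congr rfl fun i _ => by rw [Pi.add_apply, mul_add]

theorem Fourier_dot_apply {d : ℕ} {F : Type} [Field F] (χ : AddChar F ℂ)
    (ξ x : Fin d → F) : Fourier_dot χ ξ x = χ (∑ i, ξ i * x i) := rfl

theorem Fourier_orth {d : ℕ} {F : Type} [Field F] [Fintype F] [DecidableEq F]
    (χ : AddChar F ℂ) (hχ : χ.IsPrimitive) (x : Fin d → F) :
    ∑ ξ, Fourier_dot χ ξ x = if x = 0 then (((Fintype.card F : ℝ) ^ d : ℝ) : ℂ) else 0 := by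
  have h1 : ∑ ξ, Fourier_dot χ ξ x = ∏ i, ∑ a : F, χ (a * x i) := by
    rw [Finset.prod_univ_sum, Fintype.piFinset_univ]
    refine Finset.sum_congr rfl fun ξ _ => ?_
    rw [Fourier_dot_apply, Fourier_map_sum]
  rw [h1]
  simp_rw [AddChar.sum_mulShift _ hχ]
  by_cases hx : x = 0
  · subst hx
    simp
  · rw [if_neg hx]
    obtain ⟨i, hi⟩ : ∃ i, x i ≠ 0 := by
      by_contra hc
      push Not at hc
      exact hx (funext hc)
    exact Finset.prod_eq_zero (Finset.mem_univ i) (by simp [hi])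

theorem Fourier_orth1 {F : Type} [Field F] [Fintype F] [DecidableEq F]
    (χ : AddChar F ℂ) (hχ : χ.IsPrimitive) (a : F) :
    ∑ t : F, AddChar.mulShift χ t a = if a = 0 then ((Fintype.card F : ℝ) : ℂ) else 0 := by
  simp_rw [AddChar.mulShift_apply]
  rw [AddChar.sum_mulShift _ hχ]
  split_ifs <;> simp

/-- `#{y - y' = z - z'} = Λ₄(E)`. -/
theorem Fourier_energy_sub {V : Type} [AddCommGroup V] [DecidableEq V] (E : Finset V) :
    ((((E ×ˢ E) ×ˢ (E ×ˢ E)).filter fun w => w.1.1 - w.1.2 = w.2.1 - w.2.2).card) = energy E := by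
  unfold energy
  refine Finset.card_nbij' (fun w => ((w.1.1, w.2.2), (w.2.1, w.1.2)))
    (fun w => ((w.1.1, w.2.2), (w.2.1, w.1.2))) ?_ ?_ ?_ ?_
  · rintro ⟨⟨a, b⟩, c, e⟩ hw
    simp only [Finset.coe_filter, Finset.mem_product, Set.mem_ofPred_eq] at hw ⊢
    refine ⟨⟨⟨hw.1.1.1, hw.1.2.2⟩, hw.1.2.1, hw.1.1.2⟩, ?_⟩
    have := hw.2
    rw [sub_eq_sub_iff_add_eq_add] at this
    exact this
  · rintro ⟨⟨a, b⟩, c, e⟩ hw
    simp only [Finset.coe_filter, Finset.mem_product, Set.mem_ofPred_eq] at hw ⊢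
    refine ⟨⟨⟨hw.1.1.1, hw.1.2.2⟩, hw.1.2.1, hw.1.1.2⟩, ?_⟩
    rw [sub_eq_sub_iff_add_eq_add]
    exact hw.2
  · rintro ⟨⟨a, b⟩, c, e⟩ _
    rfl
  · rintro ⟨⟨a, b⟩, c, e⟩ _
    rfl

/-- `∑_ξ |ê(ξ)|⁴ = q^d Λ₄(E)`. -/
theorem Fourier_four {d : ℕ} {F : Type} [Field F] [Fintype F] [DecidableEq F]
    (χ : AddChar F ℂ) (hχ : χ.IsPrimitive) (E : Finset (Fin d → F)) :
    ∑ ξ, ‖∑ x ∈ E, Fourier_dot χ ξ x‖ ^ 4 = (Fintype.card F : ℝ) ^ d * (energy E : ℝ) := by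
  have h := Fourier_parseval (Fourier_dot (d := d) χ) ((Fintype.card F : ℝ) ^ d)
    (Fourier_orth χ hχ) (E ×ˢ E) (fun z => z.1 + z.2)
  unfold energy
  rw [← h]
  refine Finset.sum_congr rfl fun ξ _ => ?_
  have h2 : ∑ z ∈ E ×ˢ E, Fourier_dot χ ξ (z.1 + z.2) =
      (∑ x ∈ E, Fourier_dot χ ξ x) * ∑ x ∈ E, Fourier_dot χ ξ x := by
    rw [Finset.sum_mul_sum, ← Finset.sum_product']
    exact Finset.sum_congr rfl fun z _ => AddChar.map_add_eq_mul _ _ _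
  rw [h2, norm_mul]
  ring

theorem Fourier_nrm_sub {d : ℕ} {F : Type} [Field F] (x y y' : Fin d → F) (t : F) :
    t * nrm (x - y) - t * nrm (x - y') =
      t * (nrm y - nrm y') + ∑ i, ((-2 * t) • (y - y')) i * x i := by
  unfold nrm
  simp only [Finset.mul_sum, ← Finset.sum_sub_distrib, ← Finset.sum_add_distrib]
  refine Finset.sum_congr rfl fun i _ => ?_
  simp only [Pi.sub_apply, Pi.smul_apply, smul_eq_mul]
  ring

/-- Steps (5), (6): the bound of `|T(t)|²` by a sum of the Fourier coefficients. -/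
theorem Fourier_T_le {d : ℕ} {F : Type} [Field F] [Fintype F] [DecidableEq F]
    (χ : AddChar F ℂ) (E : Finset (Fin d → F)) (t : F) :
    ‖∑ z ∈ E ×ˢ E, AddChar.mulShift χ t (nrm (z.1 - z.2))‖ ^ 2 ≤
      (E.card : ℝ) * ∑ w ∈ E ×ˢ E, ‖∑ x ∈ E, Fourier_dot χ ((-2 * t) • (w.1 - w.2)) x‖ := by
  have h1 : ‖∑ z ∈ E ×ˢ E, AddChar.mulShift χ t (nrm (z.1 - z.2))‖ ^ 2 ≤
      (E.card : ℝ) * ∑ x ∈ E, ‖∑ y ∈ E, AddChar.mulShift χ t (nrm (x - y))‖ ^ 2 := by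
    rw [Finset.sum_product]
    calc ‖∑ x ∈ E, ∑ y ∈ E, AddChar.mulShift χ t (nrm (x - y))‖ ^ 2
        ≤ (∑ x ∈ E, ‖∑ y ∈ E, AddChar.mulShift χ t (nrm (x - y))‖) ^ 2 := by
          gcongr
          exact norm_sum_le _ _
      _ ≤ _ := sq_sum_le_card_mul_sum_sq
  refine h1.trans ?_
  gcongr
  have h2 : ((∑ x ∈ E, ‖∑ y ∈ E, AddChar.mulShift χ t (nrm (x - y))‖ ^ 2 : ℝ) : ℂ) =
      ∑ w ∈ E ×ˢ E, χ (t * (nrm w.1 - nrm w.2)) *
        ∑ x ∈ E, Fourier_dot χ ((-2 * t) • (w.1 - w.2)) x := by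
    push_cast
    have h3 : ∀ x ∈ E, ((‖∑ y ∈ E, AddChar.mulShift χ t (nrm (x - y))‖ : ℂ)) ^ 2 =
        ∑ w ∈ E ×ˢ E, χ (t * (nrm w.1 - nrm w.2)) *
          Fourier_dot χ ((-2 * t) • (w.1 - w.2)) x := by
      intro x _
      rw [← Complex.mul_conj', map_sum, Finset.sum_mul_sum, ← Finset.sum_product']
      refine Finset.sum_congr rfl fun w _ => ?_
      rw [← AddChar.map_neg_eq_conj, ← AddChar.map_add_eq_mul, AddChar.mulShift_apply,
        Fourier_dot_apply, ← AddChar.map_add_eq_mul, ← Fourier_nrm_sub]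
      congr 1
      ring
    rw [Finset.sum_congr rfl h3, Finset.sum_comm]
    exact Finset.sum_congr rfl fun w _ => (Finset.mul_sum _ _ _).symm
  have h4 : (∑ x ∈ E, ‖∑ y ∈ E, AddChar.mulShift χ t (nrm (x - y))‖ ^ 2 : ℝ) =
      ‖∑ w ∈ E ×ˢ E, χ (t * (nrm w.1 - nrm w.2)) *
        ∑ x ∈ E, Fourier_dot χ ((-2 * t) • (w.1 - w.2)) x‖ := by
    rw [← h2, Complex.norm_real, Real.norm_of_nonneg]
    exact Finset.sum_nonneg fun x _ => by positivity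
  rw [h4]
  refine (norm_sum_le _ _).trans (Finset.sum_le_sum fun w _ => ?_)
  rw [norm_mul, AddChar.norm_apply, one_mul]

/-- Step (6): the fourth power of the sum of Fourier coefficients. -/
theorem Fourier_S_le {d : ℕ} {F : Type} [Field F] [Fintype F] [DecidableEq F]
    (χ : AddChar F ℂ) (hχ : χ.IsPrimitive) (E : Finset (Fin d → F)) (u : F) (hu : u ≠ 0) :
    (∑ w ∈ E ×ˢ E, ‖∑ x ∈ E, Fourier_dot χ (u • (w.1 - w.2)) x‖) ^ 4 ≤
      (E.card : ℝ) ^ 4 * ((Fintype.card F : ℝ) ^ d * (energy E : ℝ) ^ 2) := by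
  set g : (Fin d → F) → ℝ := fun v => ‖∑ x ∈ E, Fourier_dot χ (u • v) x‖ with hg
  have h1 : (∑ w ∈ E ×ˢ E, g (w.1 - w.2)) ^ 2 ≤
      (E.card : ℝ) ^ 2 * ∑ w ∈ E ×ˢ E, g (w.1 - w.2) ^ 2 := by
    have := sq_sum_le_card_mul_sum_sq (s := E ×ˢ E) (f := fun w => g (w.1 - w.2))
    rw [Finset.card_product] at this
    push_cast at this
    rw [sq (E.card : ℝ)]
    exact this
  have h2 : (∑ w ∈ E ×ˢ E, g (w.1 - w.2) ^ 2) ^ 2 ≤
      (energy E : ℝ) * ∑ v, g v ^ 4 := by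
    have := Fourier_fiber (E ×ˢ E) (fun w => w.1 - w.2) (fun v => g v ^ 2)
    rw [Fourier_energy_sub] at this
    refine this.trans (le_of_eq ?_)
    congr 1
    exact Finset.sum_congr rfl fun v _ => by ring
  have h3 : ∑ v, g v ^ 4 = (Fintype.card F : ℝ) ^ d * (energy E : ℝ) := by
    rw [← Fourier_four χ hχ E]
    have hbij : Function.Bijective (fun v : Fin d → F => u • v) := by
      constructor
      · intro a b hab
        exact smul_right_injective _ hu hab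
      · intro b
        exact ⟨u⁻¹ • b, smul_inv_smul₀ hu b⟩
    exact Function.Bijective.sum_comp hbij
      (fun ξ => ‖∑ x ∈ E, Fourier_dot χ ξ x‖ ^ 4)
  have h4 : 0 ≤ ∑ w ∈ E ×ˢ E, g (w.1 - w.2) ^ 2 :=
    Finset.sum_nonneg fun w _ => by positivity
  calc (∑ w ∈ E ×ˢ E, g (w.1 - w.2)) ^ 4
      = ((∑ w ∈ E ×ˢ E, g (w.1 - w.2)) ^ 2) ^ 2 := by ring
    _ ≤ ((E.card : ℝ) ^ 2 * ∑ w ∈ E ×ˢ E, g (w.1 - w.2) ^ 2) ^ 2 := by
        gcongr
    _ = (E.card : ℝ) ^ 4 * (∑ w ∈ E ×ˢ E, g (w.1 - w.2) ^ 2) ^ 2 := by ring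
    _ ≤ (E.card : ℝ) ^ 4 * ((energy E : ℝ) * ∑ v, g v ^ 4) := by gcongr
    _ = _ := by rw [h3]; ring

/-- The counting inequality: if `q^{d+4} Λ² ≤ K⁴ |E|⁸` then `q ≤ (1 + K) |Δ(E)|`. -/
theorem Fourier_main {d : ℕ} {F : Type} [Field F] [Fintype F] [DecidableEq F]
    (hF : ringChar F ≠ 2) (E : Finset (Fin d → F)) (hE : 0 < E.card) (K : ℝ) (hK : 0 ≤ K)
    (hΛ : (Fintype.card F : ℝ) ^ (d + 4) * (energy E : ℝ) ^ 2 ≤ K ^ 4 * (E.card : ℝ) ^ 8) :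
    (Fintype.card F : ℝ) ≤ (1 + K) * (distSet E).card := by
  have hq : (0 : ℝ) < Fintype.card F := by exact_mod_cast Fintype.card_pos
  have he : (0 : ℝ) < E.card := by exact_mod_cast hE
  set q : ℝ := (Fintype.card F : ℝ) with hqdef
  set e : ℝ := (E.card : ℝ) with hedef
  set χ := AddChar.FiniteField.primitiveChar_to_Complex F with hχdef
  have hχ : χ.IsPrimitive := AddChar.FiniteField.primitiveChar_to_Complex_isPrimitive F
  have h2 : (2 : F) ≠ 0 := Ring.two_ne_zero hF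
  set T : F → ℂ := fun t => ∑ z ∈ E ×ˢ E, AddChar.mulShift χ t (nrm (z.1 - z.2)) with hT
  -- the bound for `t ≠ 0`
  have hTt : ∀ t : F, t ≠ 0 → ‖T t‖ ^ 2 ≤ K * e ^ 4 / q := by
    intro t ht
    have hu : -2 * t ≠ 0 := by
      rw [neg_mul]
      exact neg_ne_zero.2 (mul_ne_zero h2 ht)
    have a1 := Fourier_T_le χ E t
    have a2 := Fourier_S_le χ hχ E (-2 * t) hu
    set S := ∑ w ∈ E ×ˢ E, ‖∑ x ∈ E, Fourier_dot χ ((-2 * t) • (w.1 - w.2)) x‖ with hS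
    have hS0 : 0 ≤ S := Finset.sum_nonneg fun w _ => norm_nonneg _
    refine a1.trans ?_
    have a3 : (e * S) ^ 4 ≤ (K * e ^ 4 / q) ^ 4 := by
      have a4 : q ^ d * (energy E : ℝ) ^ 2 ≤ K ^ 4 * e ^ 8 / q ^ 4 := by
        rw [le_div_iff₀ (by positivity)]
        calc q ^ d * (energy E : ℝ) ^ 2 * q ^ 4 = q ^ (d + 4) * (energy E : ℝ) ^ 2 := by ring
          _ ≤ _ := hΛ
      calc (e * S) ^ 4 = e ^ 4 * S ^ 4 := by ring
        _ ≤ e ^ 4 * (e ^ 4 * (q ^ d * (energy E : ℝ) ^ 2)) := by gcongr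
        _ ≤ e ^ 4 * (e ^ 4 * (K ^ 4 * e ^ 8 / q ^ 4)) := by gcongr
        _ = (K * e ^ 4 / q) ^ 4 := by
            rw [div_pow]
            ring
    exact le_of_pow_le_pow_left₀ (by norm_num) (by positivity) a3
  have hT0 : ‖T 0‖ ^ 2 = e ^ 4 := by
    have : T 0 = ((e ^ 2 : ℝ) : ℂ) := by
      simp only [hT, AddChar.mulShift_apply, zero_mul, AddChar.map_zero_eq_one,
        Finset.sum_const, Finset.card_product, nsmul_eq_mul, mul_one, hedef]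
      push_cast
      ring
    rw [this, Complex.norm_real, Real.norm_of_nonneg (by positivity)]
    ring
  -- Parseval
  have hpar := Fourier_parseval (fun t : F => AddChar.mulShift χ t) (Fintype.card F : ℝ)
    (Fourier_orth1 χ hχ) (E ×ˢ E) (fun z => nrm (z.1 - z.2))
  set N : ℝ := ((((E ×ˢ E) ×ˢ (E ×ˢ E)).filter fun w =>
    nrm (w.1.1 - w.1.2) = nrm (w.2.1 - w.2.2)).card : ℝ) with hN
  have hsum : ∑ t : F, ‖T t‖ ^ 2 ≤ (1 + K) * e ^ 4 := by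
    rw [← Finset.add_sum_erase _ _ (Finset.mem_univ (0 : F)), hT0]
    have : ∑ t ∈ Finset.univ.erase (0 : F), ‖T t‖ ^ 2 ≤
        ∑ t ∈ Finset.univ.erase (0 : F), K * e ^ 4 / q :=
      Finset.sum_le_sum fun t ht => hTt t (Finset.ne_of_mem_erase ht)
    rw [Finset.sum_const, nsmul_eq_mul] at this
    have h5 : ((Finset.univ.erase (0 : F)).card : ℝ) ≤ q := by
      rw [hqdef]
      exact_mod_cast Finset.card_le_univ _
    have h6 : ((Finset.univ.erase (0 : F)).card : ℝ) * (K * e ^ 4 / q) ≤ q * (K * e ^ 4 / q) := by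
      gcongr
    have h7 : q * (K * e ^ 4 / q) = K * e ^ 4 := by
      field_simp
    linarith
  have hqN : q * N ≤ (1 + K) * e ^ 4 := by
    rw [← hpar]
    exact hsum
  -- Cauchy-Schwarz
  have hcs : e ^ 4 ≤ N * (distSet E).card := by
    have := Fourier_fiber (E ×ˢ E) (fun z => nrm (z.1 - z.2))
      (fun a => if a ∈ distSet E then 1 else 0)
    have h8 : ∑ z ∈ E ×ˢ E, (if nrm (z.1 - z.2) ∈ distSet E then (1 : ℝ) else 0) = e ^ 2 := by
      rw [Finset.sum_congr rfl (g := fun _ => (1 : ℝ))]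
      · rw [Finset.sum_const, Finset.card_product, nsmul_eq_mul, mul_one, hedef]
        push_cast
        ring
      · intro z hz
        rw [if_pos]
        exact Finset.mem_image_of_mem (fun z : (Fin d → F) × (Fin d → F) => nrm (z.1 - z.2)) hz
    have h9 : ∑ a : F, (if a ∈ distSet E then (1 : ℝ) else 0) ^ 2 = (distSet E).card := by
      simp
    rw [h8, h9] at this
    calc e ^ 4 = (e ^ 2) ^ 2 := by ring
      _ ≤ _ := this
  have hΔ : (0 : ℝ) ≤ (distSet E).card := by positivity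
  have h10 : q * e ^ 4 ≤ ((1 + K) * (distSet E).card) * e ^ 4 := by
    calc q * e ^ 4 ≤ q * (N * (distSet E).card) := by gcongr
      _ = (q * N) * (distSet E).card := by ring
      _ ≤ ((1 + K) * e ^ 4) * (distSet E).card := by gcongr
      _ = _ := by ring
  exact le_of_mul_le_mul_right h10 (by positivity)

theorem admissible_fourier (d : ℕ) (hd : 4 ≤ d) (s : ℝ) (h1 : 1 / 4 ≤ s) (h2 : s ≤ 1 / 2) :
    Admissible d s (((d : ℝ) + 4) / (8 * s)) := by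
  intro C₀ hC₀
  refine ⟨1, 1 / (1 + Real.sqrt (2 * C₀)), one_pos, by positivity, ?_⟩
  intro F _ _ _ hF E hΛ hE
  have hq : (1 : ℝ) ≤ Fintype.card F := by exact_mod_cast Fintype.card_pos
  have hq0 : (0 : ℝ) < Fintype.card F := by linarith
  set q : ℝ := (Fintype.card F : ℝ) with hqdef
  rw [one_mul] at hE
  have he0 : (0 : ℝ) < E.card := lt_of_lt_of_le (Real.rpow_pos_of_pos hq0 _) hE
  have he : 0 < E.card := by exact_mod_cast he0
  set e : ℝ := (E.card : ℝ) with hedef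
  have hs : 0 < s := by linarith
  have hd' : (4 : ℝ) ≤ d := by exact_mod_cast hd
  -- both terms are at most `e⁴ q^{-(d+4)/2}`
  have a1 : q ^ (-(d : ℝ)) * e ^ 4 ≤ e ^ 4 * q ^ (-((d : ℝ) + 4) / 2) := by
    rw [mul_comm]
    have : -(d : ℝ) ≤ -((d : ℝ) + 4) / 2 := by linarith
    gcongr
  have a2 : e ^ (4 - 4 * s) ≤ e ^ 4 * q ^ (-((d : ℝ) + 4) / 2) := by
    have b1 : q ^ (((d : ℝ) + 4) / 2) ≤ e ^ (4 * s) := by
      have b2 : (q ^ (((d : ℝ) + 4) / (8 * s))) ^ (4 * s) ≤ e ^ (4 * s) := by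
        gcongr
      rw [← Real.rpow_mul hq0.le] at b2
      convert b2 using 2
      field_simp
      ring
    have b3 : e ^ (4 - 4 * s) = e ^ 4 * (e ^ (4 * s))⁻¹ := by
      rw [Real.rpow_sub he0, div_eq_mul_inv]
      congr 1
      exact_mod_cast Real.rpow_natCast e 4
    have b4 : q ^ (-((d : ℝ) + 4) / 2) = (q ^ (((d : ℝ) + 4) / 2))⁻¹ := by
      rw [← Real.rpow_neg hq0.le]
      congr 1
      ring
    rw [b3, b4]
    have b5 : 0 < q ^ (((d : ℝ) + 4) / 2) := Real.rpow_pos_of_pos hq0 _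
    gcongr
  have a3 : (energy E : ℝ) ≤ 2 * C₀ * (e ^ 4 * q ^ (-((d : ℝ) + 4) / 2)) := by
    calc (energy E : ℝ) ≤ C₀ * (q ^ (-(d : ℝ)) * e ^ 4 + e ^ (4 - 4 * s)) := hΛ
      _ ≤ C₀ * (e ^ 4 * q ^ (-((d : ℝ) + 4) / 2) + e ^ 4 * q ^ (-((d : ℝ) + 4) / 2)) := by
          gcongr
      _ = _ := by ring
  have a4 : q ^ (d + 4) * (energy E : ℝ) ^ 2 ≤ Real.sqrt (2 * C₀) ^ 4 * e ^ 8 := by
    have c1 : (energy E : ℝ) ^ 2 ≤ (2 * C₀ * (e ^ 4 * q ^ (-((d : ℝ) + 4) / 2))) ^ 2 := by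
      gcongr
    have c2 : (q ^ (-((d : ℝ) + 4) / 2)) ^ 2 = (q ^ (d + 4))⁻¹ := by
      rw [← Real.rpow_natCast, ← Real.rpow_mul hq0.le, ← Real.rpow_natCast, ← Real.rpow_neg hq0.le]
      congr 1
      push_cast
      ring
    have c3 : Real.sqrt (2 * C₀) ^ 4 = (2 * C₀) ^ 2 := by
      have : Real.sqrt (2 * C₀) ^ 2 = 2 * C₀ := Real.sq_sqrt (by positivity)
      calc Real.sqrt (2 * C₀) ^ 4 = (Real.sqrt (2 * C₀) ^ 2) ^ 2 := by ring
        _ = _ := by rw [this]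
    have c4 : (0 : ℝ) < q ^ (d + 4) := by positivity
    calc q ^ (d + 4) * (energy E : ℝ) ^ 2
        ≤ q ^ (d + 4) * (2 * C₀ * (e ^ 4 * q ^ (-((d : ℝ) + 4) / 2))) ^ 2 := by gcongr
      _ = (2 * C₀) ^ 2 * e ^ 8 * (q ^ (d + 4) * (q ^ (-((d : ℝ) + 4) / 2)) ^ 2) := by ring
      _ = _ := by rw [c2, mul_inv_cancel₀ c4.ne', c3, mul_one]
  have hmain := Fourier_main hF E he (Real.sqrt (2 * C₀)) (Real.sqrt_nonneg _) a4
  rw [div_mul_eq_mul_div, one_mul, div_le_iff₀ (by positivity), mul_comm]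
  exact hmain

end Pool.Agent.MP_546591_co
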