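import Pool.Agent.Lib.MP_546591_co.Defs

/-!
# Upper bound `α(d,4,s) ≤ d/(4s)` (task: Fraser)

`|E - E| · Λ₄(E) ≥ |E|⁴` (Cauchy–Schwarz for `f(v) = #{(x,y) ∈ E² : x - y = v}`, `∑ f = |E|²`,
`∑ f² = Λ₄(E)`), every sphere `{v : ‖v‖ = t}` has at most `2 q^{d-1}` points (`d ≥ 1`: fix all
coordinates but one; at most two values of the last one), and `E - E ⊆ ⋃_{t∈Δ(E)} {v : ‖v‖ = t}`, so
`|E - E| ≤ 2 q^{d-1} |Δ(E)|`.  If `Λ ≤ C₀(|E|⁴q^{-d} + |E|^{4-4s})` and `|E| ≥ q^{d/(4s)}` then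
`|E|^{4-4s} ≤ |E|⁴ q^{-d}`, so `Λ ≤ 2C₀|E|⁴q^{-d}`, `|E-E| ≥ q^d/(2C₀)`, `|Δ(E)| ≥ q/(4C₀)`:
`C = 1`, `c = 1/(4C₀)`.
-/

namespace Pool.Agent.MP_546591_co

open Finset

/-- The set of differences. -/
def fraserDiff {V : Type} [AddCommGroup V] [DecidableEq V] (E : Finset V) : Finset V :=
  (E ×ˢ E).image fun z => z.1 - z.2

theorem fraser_energy {V : Type} [AddCommGroup V] [DecidableEq V] (E : Finset V) :
    energy E = ∑ v ∈ fraserDiff E, ((E ×ˢ E).filter fun z => z.1 - z.2 = v).card ^ 2 := by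
  have h1 : energy E = (((E ×ˢ E) ×ˢ (E ×ˢ E)).filter
      fun z => z.1.1 - z.1.2 = z.2.1 - z.2.2).card := by
    unfold energy
    refine Finset.card_nbij' (fun z => ((z.1.1, z.2.2), (z.2.1, z.1.2)))
      (fun z => ((z.1.1, z.2.2), (z.2.1, z.1.2))) ?_ ?_ ?_ ?_
    · rintro ⟨⟨a, b⟩, ⟨c, d⟩⟩ h
      simp only [coe_filter, mem_product, Set.mem_ofPred_eq] at h ⊢
      refine ⟨⟨⟨h.1.1.1, h.1.2.2⟩, ⟨h.1.2.1, h.1.1.2⟩⟩, ?_⟩
      rw [sub_eq_sub_iff_add_eq_add, h.2]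
    · rintro ⟨⟨a, b⟩, ⟨c, d⟩⟩ h
      simp only [coe_filter, mem_product, Set.mem_ofPred_eq] at h ⊢
      refine ⟨⟨⟨h.1.1.1, h.1.2.2⟩, ⟨h.1.2.1, h.1.1.2⟩⟩, ?_⟩
      have := h.2
      rwa [sub_eq_sub_iff_add_eq_add] at this
    · rintro ⟨⟨a, b⟩, ⟨c, d⟩⟩ _
      rfl
    · rintro ⟨⟨a, b⟩, ⟨c, d⟩⟩ _
      rfl
  rw [h1]
  have h2 : ∀ z ∈ ((E ×ˢ E) ×ˢ (E ×ˢ E)).filter (fun z => z.1.1 - z.1.2 = z.2.1 - z.2.2),
      z.1.1 - z.1.2 ∈ fraserDiff E := by
    intro z hz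
    have := (Finset.mem_filter.1 hz).1
    exact Finset.mem_image.2 ⟨z.1, (Finset.mem_product.1 this).1, rfl⟩
  rw [Finset.card_eq_sum_card_fiberwise h2]
  refine Finset.sum_congr rfl fun v _ => ?_
  rw [sq, ← Finset.card_product]
  congr 1
  ext z
  simp only [Finset.mem_filter, Finset.mem_product]
  constructor
  · rintro ⟨⟨h, h'⟩, h''⟩
    exact ⟨⟨h.1, h''⟩, ⟨h.2, by rw [← h', h'']⟩⟩
  · rintro ⟨⟨h, h'⟩, ⟨h'', h'''⟩⟩
    exact ⟨⟨⟨h, h''⟩, by rw [h', h''']⟩, h'⟩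

theorem fraser_cs {V : Type} [AddCommGroup V] [DecidableEq V] (E : Finset V) :
    E.card ^ 4 ≤ (fraserDiff E).card * energy E := by
  rw [fraser_energy]
  have h1 : ∑ v ∈ fraserDiff E, ((E ×ˢ E).filter fun z => z.1 - z.2 = v).card = E.card ^ 2 := by
    rw [sq, ← Finset.card_product]
    refine (Finset.card_eq_sum_card_fiberwise ?_).symm
    intro z hz
    exact Finset.mem_image.2 ⟨z, hz, rfl⟩
  calc E.card ^ 4 = (∑ v ∈ fraserDiff E, ((E ×ˢ E).filter fun z => z.1 - z.2 = v).card) ^ 2 := by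
        rw [h1]; ring
    _ ≤ _ := sq_sum_le_card_mul_sum_sq

theorem fraser_sphere {F : Type} [Field F] [Fintype F] [DecidableEq F] (n : ℕ) (t : F) :
    (univ.filter fun v : Fin (n + 1) → F => nrm v = t).card ≤ 2 * Fintype.card F ^ n := by
  have h := Finset.card_le_mul_card_image_of_maps_to
    (f := fun v : Fin (n + 1) → F => Fin.tail v)
    (s := univ.filter fun v : Fin (n + 1) → F => nrm v = t) (t := univ) (fun _ _ => mem_univ _) 2 ?_
  · simpa using h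
  · intro w _
    by_cases hne : ((univ.filter fun v : Fin (n + 1) → F => nrm v = t).filter
        (fun v => Fin.tail v = w)).Nonempty
    · obtain ⟨u, hu⟩ := hne
      simp only [mem_filter, mem_univ, true_and] at hu
      have hsub : ((univ.filter fun v : Fin (n + 1) → F => nrm v = t).filter
        (fun v => Fin.tail v = w)) ⊆ {Fin.cons (u 0) w, Fin.cons (-u 0) w} := by
        intro v hv
        simp only [mem_filter, mem_univ, true_and] at hv
        have e1 : nrm v = v 0 ^ 2 + ∑ i : Fin n, w i ^ 2 := by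
          unfold nrm
          rw [Fin.sum_univ_succ, ← hv.2]
          rfl
        have e2 : nrm u = u 0 ^ 2 + ∑ i : Fin n, w i ^ 2 := by
          unfold nrm
          rw [Fin.sum_univ_succ, ← hu.2]
          rfl
        have e3 : v 0 ^ 2 = u 0 ^ 2 := by
          have := e1.symm.trans (hv.1.trans (hu.1.symm.trans e2))
          exact add_right_cancel this
        rw [Finset.mem_insert, Finset.mem_singleton]
        rcases sq_eq_sq_iff_eq_or_eq_neg.1 e3 with h | h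
        · left
          rw [← h, ← hv.2, Fin.cons_self_tail]
        · right
          rw [← h, ← hv.2, Fin.cons_self_tail]
      exact (Finset.card_le_card hsub).trans Finset.card_le_two
    · rw [Finset.not_nonempty_iff_eq_empty] at hne
      rw [hne]
      simp

theorem fraser_diff {F : Type} [Field F] [Fintype F] [DecidableEq F] (n : ℕ)
    (E : Finset (Fin (n + 1) → F)) :
    (fraserDiff E).card ≤ (distSet E).card * (2 * Fintype.card F ^ n) := by
  have hsub : fraserDiff E ⊆ (distSet E).biUnion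
      fun t => univ.filter fun v : Fin (n + 1) → F => nrm v = t := by
    intro v hv
    obtain ⟨z, hz, rfl⟩ := Finset.mem_image.1 hv
    rw [Finset.mem_biUnion]
    refine ⟨nrm (z.1 - z.2), Finset.mem_image.2 ⟨z, hz, rfl⟩, ?_⟩
    simp
  exact (Finset.card_le_card hsub).trans
    (Finset.card_biUnion_le_card_mul _ _ _ fun t _ => fraser_sphere n t)

theorem admissible_fraser (d : ℕ) (hd : 1 ≤ d) (s : ℝ) (h1 : 1 / 4 ≤ s) (h2 : s ≤ 1 / 2) :
    Admissible d s ((d : ℝ) / (4 * s)) := by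
  intro C₀ hC
  refine ⟨1, 1 / (4 * C₀), one_pos, by positivity, ?_⟩
  intro F _ _ _ _ E hE hcard
  obtain ⟨n, rfl⟩ : ∃ n, d = n + 1 := ⟨d - 1, by omega⟩
  set q : ℝ := (Fintype.card F : ℝ) with hq
  have hq1 : (1 : ℝ) ≤ q := by
    rw [hq]
    exact_mod_cast Fintype.card_pos
  have hq0 : (0 : ℝ) < q := by linarith
  have hs : 0 < s := by linarith
  rw [one_mul] at hcard
  set e : ℝ := (E.card : ℝ) with he
  have he0 : 0 < e := lt_of_lt_of_le (Real.rpow_pos_of_pos hq0 _) hcard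
  have hpow : q ^ ((n + 1 : ℕ) : ℝ) ≤ e ^ (4 * s) := by
    have h3 := Real.rpow_le_rpow (Real.rpow_pos_of_pos hq0 _).le hcard (by positivity : 0 ≤ 4 * s)
    rwa [← Real.rpow_mul hq0.le, div_mul_cancel₀ _ (by positivity : (4 * s) ≠ 0)] at h3
  have hqd : 0 < q ^ ((n + 1 : ℕ) : ℝ) := Real.rpow_pos_of_pos hq0 _
  have h4 : e ^ (4 - 4 * s) ≤ q ^ (-((n + 1 : ℕ) : ℝ)) * e ^ 4 := by
    rw [Real.rpow_sub he0, Real.rpow_neg hq0.le]
    have h5 : e ^ (4 : ℝ) = e ^ 4 := by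
      rw [← Real.rpow_natCast]; norm_num
    rw [h5, div_eq_mul_inv, mul_comm]
    apply mul_le_mul_of_nonneg_right _ (by positivity)
    exact inv_anti₀ hqd hpow
  have h6 : (energy E : ℝ) ≤ 2 * C₀ * (q ^ (-((n + 1 : ℕ) : ℝ)) * e ^ 4) := by
    calc (energy E : ℝ) ≤ _ := hE
      _ ≤ C₀ * (q ^ (-((n + 1 : ℕ) : ℝ)) * e ^ 4 + q ^ (-((n + 1 : ℕ) : ℝ)) * e ^ 4) := by
        apply mul_le_mul_of_nonneg_left _ hC.le
        linarith
      _ = _ := by ring
  have h7 : e ^ 4 ≤ ((fraserDiff E).card : ℝ) * energy E := by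
    rw [he]
    exact_mod_cast fraser_cs E
  have h8 : ((fraserDiff E).card : ℝ) ≤ (distSet E).card * (2 * q ^ n) := by
    rw [hq]
    exact_mod_cast fraser_diff n E
  have h9 : e ^ 4 ≤ ((distSet E).card * (2 * q ^ n)) *
      (2 * C₀ * (q ^ (-((n + 1 : ℕ) : ℝ)) * e ^ 4)) := by
    refine h7.trans ?_
    apply mul_le_mul h8 h6 (by positivity) (by positivity)
  have h10 : q ^ (-((n + 1 : ℕ) : ℝ)) = (q ^ (n + 1))⁻¹ := by
    rw [Real.rpow_neg hq0.le, Real.rpow_natCast]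
  rw [h10] at h9
  have h11 : e ^ 4 ≤ (4 * C₀ * (distSet E).card / q) * e ^ 4 := by
    refine h9.trans (le_of_eq ?_)
    field_simp
    ring
  have he4 : 0 < e ^ 4 := by positivity
  have h12 : 1 ≤ 4 * C₀ * (distSet E).card / q := by
    by_contra hlt
    rw [not_le] at hlt
    nlinarith
  rw [le_div_iff₀ hq0, one_mul] at h12
  rw [div_mul_eq_mul_div, one_mul, div_le_iff₀ (by positivity)]
  linarith

end Pool.Agent.MP_546591_co
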