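import Pool.Agent.Lib.MP_546591_co.OddCore
import Pool.Agent.Lib.MP_546591_co.Common

/-!
# The three-dimensional sets

`K` has `q = p²` elements, `p + 1 = κ N` with `N` odd, `μ = {ε : ε ^ N = 1}`,
`k = {a : a ^ p = a}` and `E = {ε x : ε ∈ μ, x ∈ k³, ‖x‖ = ρ}` with `0 ≠ ρ ∈ k`.
All distances `ε ε' (ρ (ε / ε' + ε' / ε) - 2 x·x')` lie in `μ k`, which has at most
`N p ≤ 2 q / κ` elements.
-/

namespace Pool.Agent.MP_546591_co

open Finset OddCore

section

variable {K : Type} [Field K] [Fintype K] [DecidableEq K]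

/-- The set `E`. -/
def oddSet (K : Type) [Field K] [Fintype K] [DecidableEq K] (p N : ℕ) (ρ : K) :
    Finset (Fin 3 → K) :=
  (muN K N ×ˢ sphereK K p ρ).image fun z => z.1 • z.2

theorem card_muN_eq (p N : ℕ) (hK : Fintype.card K = p ^ 2) (hNd : N ∣ p + 1) :
    (muN K N).card = N := by
  unfold muN
  apply card_filter_pow_eq_one
  rw [hK]
  have : p ^ 2 - 1 = (p + 1) * (p - 1) := by simpa using Nat.sq_sub_sq p 1
  rw [this]
  exact hNd.mul_right _

theorem card_kk_eq (p : ℕ) (hp : 1 < p) (hK : Fintype.card K = p ^ 2) : (kk K p).card = p := by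
  have h1 : kk K p = insert 0 ((univ : Finset K).filter fun a => a ^ (p - 1) = 1) := by
    ext a
    simp only [kk, mem_filter, mem_univ, true_and, mem_insert]
    have hp' : p = (p - 1) + 1 := by omega
    constructor
    · intro h
      by_cases ha : a = 0
      · exact Or.inl ha
      · right
        rw [hp', pow_succ] at h
        exact mul_right_cancel₀ ha (by rw [h, one_mul])
    · rintro (rfl | h)
      · exact zero_pow (by omega)
      · conv_lhs => rw [hp', pow_succ, h, one_mul]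
  rw [h1, card_insert_of_notMem, card_filter_pow_eq_one]
  · omega
  · rw [hK]
    have : p ^ 2 - 1 = (p + 1) * (p - 1) := by simpa using Nat.sq_sub_sq p 1
    rw [this]
    exact Dvd.intro_left _ rfl
  · simp only [mem_filter, mem_univ, true_and]
    rw [zero_pow (by omega)]
    exact zero_ne_one

/-- Some sphere `‖x‖ = ρ`, `ρ ≠ 0`, in `k³` has at least `p² - 2 p` points. -/
theorem exists_sphere (p : ℕ) [Fact p.Prime] [CharP K p] (hK : Fintype.card K = p ^ 2) :
    ∃ ρ : K, ρ ≠ 0 ∧ ρ ^ p = ρ ∧ p ^ 2 ≤ (sphereK K p ρ).card + 2 * p := by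
  have hpp : p.Prime := Fact.out
  have hp : 1 < p := hpp.one_lt
  set A : Finset (Fin 3 → K) := (univ : Finset (Fin 3 → K)).filter fun x => ∀ i, x i ^ p = x i
    with hA
  have hAc : A.card = p ^ 3 := by
    have : A = Fintype.piFinset fun _ : Fin 3 => kk K p := by
      ext x
      simp [hA, kk, Fintype.mem_piFinset]
    rw [this, Fintype.card_piFinset]
    simp [card_kk_eq p hp hK]
  have hfib : A.card = ∑ ρ ∈ kk K p, (sphereK K p ρ).card := by
    rw [card_eq_sum_card_fiberwise (f := fun x => nrm x) (t := kk K p)]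
    · apply sum_congr rfl
      intro ρ _
      congr 1
      ext x
      simp [hA, sphereK]
    · intro x hx
      simp only [hA, coe_filter, mem_univ, true_and, Set.mem_ofPred_eq] at hx
      simp only [kk, coe_filter, mem_univ, true_and, Set.mem_ofPred_eq]
      rw [← nrm_pow]
      congr 1
      funext i
      exact hx i
  have h0 : (0 : K) ∈ kk K p := by
    simp [kk, hpp.ne_zero]
  rw [← add_sum_erase _ _ h0] at hfib
  by_contra hcon
  push Not at hcon
  have hle : ∑ ρ ∈ (kk K p).erase 0, (sphereK K p ρ).card ≤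
      ∑ ρ ∈ (kk K p).erase 0, (p ^ 2 - 2 * p - 1) := by
    apply sum_le_sum
    intro ρ hρ
    rw [mem_erase] at hρ
    have h1 : ρ ^ p = ρ := by
      have := hρ.2
      simpa [kk] using this
    have := hcon ρ hρ.1 h1
    omega
  have hz := card_sphereK (K := K) p hp 0
  rw [sum_const, card_erase_of_mem h0, card_kk_eq p hp hK, smul_eq_mul] at hle
  have h3 : p ^ 3 ≤ 2 * p ^ 2 + (p - 1) * (p ^ 2 - 2 * p - 1) := by
    rw [← hAc, hfib]
    exact Nat.add_le_add hz hle
  by_cases hsmall : 2 * p + 1 ≤ p ^ 2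
  · obtain ⟨m, hm⟩ := Nat.exists_eq_add_of_le hsmall
    have e1 : p ^ 2 - 2 * p - 1 = m := by omega
    rw [e1] at h3
    obtain ⟨r, rfl⟩ : ∃ r, p = r + 1 := ⟨p - 1, by omega⟩
    simp only [Nat.add_sub_cancel] at h3
    have e2 : m = r ^ 2 - 2 := by
      have : (r + 1) ^ 2 = r ^ 2 + 2 * r + 1 := by ring
      omega
    have e3 : 2 ≤ r ^ 2 := by
      have : (r + 1) ^ 2 = r ^ 2 + 2 * r + 1 := by ring
      omega
    obtain ⟨w, hw⟩ := Nat.exists_eq_add_of_le e3
    have e4 : m = w := by omega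
    subst e4
    nlinarith [h3, hw]
  · push Not at hsmall
    have h5 : p ^ 2 - 2 * p - 1 = 0 := by omega
    rw [h5, mul_zero, add_zero] at h3
    have h6 : p = 2 := by
      have : p ≤ 2 := by
        by_contra h7
        push Not at h7
        have : 3 ≤ p := h7
        nlinarith
      omega
    subst h6
    have := hcon 1 one_ne_zero (one_pow _)
    omega

theorem card_oddSet (p N : ℕ) [Fact p.Prime] (hN : Odd N) (hK : Fintype.card K = p ^ 2)
    (hNd : N ∣ p + 1) (ρ : K) (hρ : ρ ≠ 0) :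
    (oddSet K p N ρ).card = N * (sphereK K p ρ).card := by
  unfold oddSet
  rw [card_image_of_injOn, card_product, card_muN_eq p N hK hNd]
  intro z hz w hw hzw
  exact vv_inj hN hNd hρ hz hw hzw

theorem distSet_oddSet (p N : ℕ) [Fact p.Prime] [CharP K p] (hN : Odd N)
    (hNd : N ∣ p + 1) (ρ : K) (hρp : ρ ^ p = ρ) :
    (distSet (oddSet K p N ρ)).card ≤ N * p := by
  have hpp : p.Prime := Fact.out
  have hsub : distSet (oddSet K p N ρ) ⊆ (muN K N ×ˢ kk K p).image fun z => z.1 * z.2 := by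
    intro a ha
    unfold distSet oddSet at ha
    simp only [mem_image, mem_product, Prod.exists] at ha
    obtain ⟨v, w, ⟨⟨ε, x, ⟨hε, hx⟩, rfl⟩, ⟨ε', x', ⟨hε', hx'⟩, rfl⟩⟩, rfl⟩ := ha
    simp only [muN, mem_filter, mem_univ, true_and] at hε hε'
    simp only [sphereK, mem_filter, mem_univ, true_and] at hx hx'
    have he0 := mu_ne_zero hN hε
    have he0' := mu_ne_zero hN hε'
    simp only [mem_image, mem_product, Prod.exists, muN, kk, mem_filter, mem_univ, true_and]
    refine ⟨ε * ε', ρ * (ε * ε'⁻¹ + ε' * ε⁻¹) - 2 * dt x x', ⟨?_, ?_⟩, ?_⟩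
    · rw [mul_pow, hε, hε', one_mul]
    · rw [sub_pow_char, mul_pow, add_pow_char, mul_pow, mul_pow, inv_pow, inv_pow,
        mu_pow hN hNd hε, mu_pow hN hNd hε', hρp, inv_inv, inv_inv, mul_pow]
      have h2 : (2 : K) ^ p = 2 := by
        have h := congrArg (ZMod.castHom (dvd_refl p) K) (ZMod.pow_card (2 : ZMod p))
        rw [map_pow, map_ofNat] at h
        exact h
      have h3 : dt x x' ^ p = dt x x' := by
        unfold dt
        rw [Fin.sum_univ_three, add_pow_char, add_pow_char, mul_pow, mul_pow, mul_pow,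
          hx.1, hx.1, hx.1, hx'.1, hx'.1, hx'.1]
      rw [h2, h3]
      ring
    · have e1 := hx.2
      have e2 := hx'.2
      unfold nrm at e1 e2 ⊢
      unfold dt
      simp only [Fin.sum_univ_three, Pi.sub_apply, Pi.smul_apply, smul_eq_mul] at e1 e2 ⊢
      field_simp
      linear_combination (-ε ^ 2) * e1 - ε' ^ 2 * e2
  refine (card_le_card hsub).trans (card_image_le.trans ?_)
  rw [card_product]
  exact Nat.mul_le_mul (card_muN N hN.pos) (card_kk p hpp.one_lt)

theorem energy_oddSet (p N : ℕ) [Fact p.Prime] (hp2 : p ≠ 2) [CharP K p] (hN : Odd N)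
    (hK : Fintype.card K = p ^ 2) (hNd : N ∣ p + 1) (ρ : K) (hρ : ρ ≠ 0) (hρp : ρ ^ p = ρ) :
    energy (oddSet K p N ρ) ≤ 1000 * p ^ 6 :=
  (energy_image_le _ _).trans (odd_energy_count p hp2 K hK N hN hNd ρ hρ hρp)

end

theorem family_three : Family 3 (3 / 2) 3 := by
  intro c ε Q₀ hc hε
  obtain ⟨k, hk⟩ := exists_nat_ge (max (1 / c) 1)
  have hk1 : (1 : ℝ) ≤ k := (le_max_right _ _).trans hk
  have hk1' : 1 ≤ k := by exact_mod_cast hk1
  have hkc : 1 ≤ (k : ℝ) * c := by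
    have := (le_max_left _ _).trans hk
    rwa [div_le_iff₀ hc] at this
  -- `κ = 2 k`
  obtain ⟨P, hP⟩ := exists_nat_ge
    (max Q₀ (max 5 ((16000 * (2 * (k : ℝ)) ^ 4) ^ (1 / (2 * ε)))))
  have hcop : (2 * k - 1).Coprime (2 * (2 * k)) := by
    apply Nat.Coprime.mul_right
    · rw [Nat.coprime_two_right]
      exact ⟨k - 1, by omega⟩
    · have h1 : (2 * k - 1).Coprime (2 * k - 1 + 1) := by simp
      rwa [show 2 * k - 1 + 1 = 2 * k by omega] at h1
  obtain ⟨p, hpP, hp, hmod⟩ := Nat.forall_exists_prime_gt_and_modEq P (q := 2 * (2 * k))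
    (a := 2 * k - 1) (by omega) hcop
  have : Fact p.Prime := ⟨hp⟩
  have hpP' : (P : ℝ) ≤ p := by exact_mod_cast hpP.le
  have hpQ : Q₀ ≤ p := (le_max_left _ _).trans (hP.trans hpP')
  have hp5R : (5 : ℝ) ≤ p :=
    (le_max_left _ _).trans ((le_max_right _ _).trans (hP.trans hpP'))
  have hp5 : 5 ≤ p := by exact_mod_cast hp5R
  have hpbig : (16000 * (2 * (k : ℝ)) ^ 4) ^ (1 / (2 * ε)) ≤ p :=
    (le_max_right _ _).trans ((le_max_right _ _).trans (hP.trans hpP'))
  have hp0 : (0 : ℝ) < p := by linarith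
  -- the decomposition of `p + 1`
  obtain ⟨N, hN, hpN⟩ : ∃ N, Odd N ∧ p + 1 = (2 * k) * N := by
    have h1 : p % (2 * (2 * k)) = 2 * k - 1 := by
      rw [hmod]
      exact Nat.mod_eq_of_lt (by omega)
    refine ⟨2 * (p / (2 * (2 * k))) + 1, ⟨_, rfl⟩, ?_⟩
    have h2 := Nat.div_add_mod p (2 * (2 * k))
    rw [h1] at h2
    have h3 : 2 * (2 * k) * (p / (2 * (2 * k))) = (2 * k) * (2 * (p / (2 * (2 * k)))) := by ring
    rw [mul_add, mul_one, ← h3]
    omega
  have hNd : N ∣ p + 1 := Dvd.intro_left _ hpN.symm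
  letI : Fintype (GaloisField p 2) := Fintype.ofFinite _
  letI : DecidableEq (GaloisField p 2) := Classical.decEq _
  have hcardK : Fintype.card (GaloisField p 2) = p ^ 2 := by
    rw [← Nat.card_eq_fintype_card, GaloisField.card p 2 two_ne_zero]
  have hodd : Odd p := hp.odd_of_ne_two (by omega)
  have hmod4 : Fintype.card (GaloisField p 2) % 4 = 1 := by
    rw [hcardK]
    obtain ⟨j, rfl⟩ := hodd
    have : (2 * j + 1) ^ 2 = 4 * (j ^ 2 + j) + 1 := by ring
    rw [this]; omega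
  obtain ⟨i, hi⟩ := exists_sq_eq_neg_one hmod4
  have hchar : ringChar (GaloisField p 2) = p := ringChar.eq (GaloisField p 2) p
  have hchar2 : ringChar (GaloisField p 2) ≠ 2 := by rw [hchar]; omega
  obtain ⟨ρ, hρ, hρp, hS⟩ := exists_sphere (K := GaloisField p 2) p hcardK
  set S := (sphereK (GaloisField p 2) p ρ).card with hSdef
  have hSR : (p : ℝ) ^ 2 ≤ S + 2 * p := by exact_mod_cast hS
  have hS2 : (p : ℝ) ^ 2 / 2 ≤ S := by nlinarith
  have hNR : (p : ℝ) + 1 = 2 * k * N := by exact_mod_cast hpN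
  have hk0 : (0 : ℝ) < k := by linarith
  have hN1 : (1 : ℝ) ≤ N := by exact_mod_cast hN.pos
  have hcardE := card_oddSet (K := GaloisField p 2) p N hN hcardK hNd ρ hρ
  -- `p ^ 3 / (4 k) ≤ |E|`
  have hE : (p : ℝ) ^ 3 ≤ (4 * k) * ((N : ℝ) * S) := by
    have h1 : (p : ℝ) ≤ 2 * k * N := by linarith
    calc (p : ℝ) ^ 3 = 2 * ((p : ℝ) * ((p : ℝ) ^ 2 / 2)) := by ring
      _ ≤ 2 * (((2 : ℝ) * k * N) * (S : ℝ)) := by
          apply mul_le_mul_of_nonneg_left _ (by norm_num)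
          exact mul_le_mul h1 hS2 (by positivity) (by positivity)
      _ = (4 * (k : ℝ)) * ((N : ℝ) * S) := by ring
  have hpε : 16000 * (2 * (k : ℝ)) ^ 4 ≤ (p : ℝ) ^ (2 * ε) := by
    have h4 : ((16000 * (2 * (k : ℝ)) ^ 4) ^ (1 / (2 * ε))) ^ (2 * ε) ≤ (p : ℝ) ^ (2 * ε) :=
      Real.rpow_le_rpow (by positivity) hpbig (by positivity)
    rwa [← Real.rpow_mul (by positivity), one_div, inv_mul_cancel₀ (by positivity),
      Real.rpow_one] at h4
  have hqε : ((p : ℝ) ^ 2) ^ ε = (p : ℝ) ^ (2 * ε) := by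
    rw [← Real.rpow_natCast, ← Real.rpow_mul hp0.le]
    norm_num
  have hq0 : (0 : ℝ) < (p : ℝ) ^ 2 := by positivity
  refine ⟨GaloisField p 2, inferInstance, inferInstance, inferInstance, hchar2, ⟨i, hi⟩, ?_,
    oddSet (GaloisField p 2) p N ρ, ?_, ?_, ?_⟩
  · rw [hcardK]
    push_cast
    nlinarith
  · have h1 := distSet_oddSet (K := GaloisField p 2) p N hN hNd ρ hρp
    have h2 : ((distSet (oddSet (GaloisField p 2) p N ρ)).card : ℝ) ≤ N * p := by
      exact_mod_cast h1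
    refine h2.trans ?_
    rw [hcardK]
    push_cast
    have h3 : (N : ℝ) ≤ c * p := by
      have h4 : (2 * k * N : ℝ) ≤ 2 * p := by rw [← hNR]; linarith
      have h5 : (k : ℝ) * N ≤ p := by linarith
      have h6 : (k : ℝ) * N ≤ (k * c) * p := by nlinarith
      have h7 : (k : ℝ) * N ≤ k * (c * p) := by linarith
      exact le_of_mul_le_mul_left h7 hk0
    nlinarith
  · rw [hcardE, hcardK]
    push_cast
    have h1 : ((p : ℝ) ^ 2) ^ (3 / 2 - ε : ℝ) = p ^ 3 / (p : ℝ) ^ (2 * ε) := by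
      rw [Real.rpow_sub hq0, hqε]
      congr 1
      rw [← Real.rpow_natCast, ← Real.rpow_mul hp0.le, ← Real.rpow_natCast]
      norm_num
    rw [h1, div_le_iff₀ (by positivity)]
    refine hE.trans ?_
    rw [mul_comm]
    apply mul_le_mul_of_nonneg_left _ (by positivity)
    refine le_trans ?_ hpε
    have : (1 : ℝ) ≤ (2 * k) ^ 3 := one_le_pow₀ (by linarith)
    have h8 : (2 * (k : ℝ)) ^ 4 = (2 * k) * (2 * k) ^ 3 := by ring
    rw [h8]
    nlinarith
  · have h1 := energy_oddSet (K := GaloisField p 2) p N (by omega) hN hcardK hNd ρ hρ hρp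
    have h2 : (energy (oddSet (GaloisField p 2) p N ρ) : ℝ) ≤ 1000 * (p : ℝ) ^ 6 := by
      exact_mod_cast h1
    refine h2.trans ?_
    rw [hcardE, hcardK]
    push_cast
    have h3 : ((p : ℝ) ^ 2) ^ (-(3 : ℝ) + ε) = (p : ℝ) ^ (2 * ε) / p ^ 6 := by
      rw [Real.rpow_add hq0, hqε, Real.rpow_neg hq0.le]
      norm_cast
      rw [← pow_mul, inv_mul_eq_div]
    rw [h3]
    have h5 : ((p : ℝ) ^ 3) ^ 4 ≤ ((4 * k) * ((N : ℝ) * S)) ^ 4 :=
      pow_le_pow_left₀ (by positivity) hE 4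
    have h6 : (p : ℝ) ^ 12 ≤ (16 * (2 * (k : ℝ)) ^ 4) * ((N : ℝ) * S) ^ 4 := by
      calc (p : ℝ) ^ 12 = ((p : ℝ) ^ 3) ^ 4 := by ring
        _ ≤ _ := h5
        _ = _ := by ring
    have h7 : 1000 * (p : ℝ) ^ 6 * p ^ 6 ≤ (p : ℝ) ^ (2 * ε) * ((N : ℝ) * S) ^ 4 := by
      calc 1000 * (p : ℝ) ^ 6 * p ^ 6 = 1000 * (p : ℝ) ^ 12 := by ring
        _ ≤ 1000 * ((16 * (2 * (k : ℝ)) ^ 4) * ((N : ℝ) * S) ^ 4) :=
            mul_le_mul_of_nonneg_left h6 (by norm_num)
        _ = (16000 * (2 * (k : ℝ)) ^ 4) * ((N : ℝ) * S) ^ 4 := by ring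
        _ ≤ _ := mul_le_mul_of_nonneg_right hpε (by positivity)
    rw [div_mul_eq_mul_div, le_div_iff₀ (by positivity)]
    exact h7

end Pool.Agent.MP_546591_co
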