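import Pool.Agent.Lib.MP_546591_co.FamilyDef

/-!
# Adding an isotropic line: `Family d m r → Family (d + 2) (m + 1) (r + 1)`

If `i² = -1`, replace `E ⊆ F^d` by `{(u, i u, x) : u ∈ F, x ∈ E}`.
-/

namespace Pool.Agent.MP_546591_co

open Finset

section

variable {d : ℕ} {F : Type} [Field F]

/-- The point `(u, i u, x)`. -/
def ext (i u : F) (x : Fin d → F) : Fin (d + 2) → F :=
  Fin.cons (α := fun _ : Fin (d + 2) => F) u (Fin.cons (α := fun _ : Fin (d + 1) => F) (i * u) x)

/-- Drop the first two coordinates. -/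
def tt (v : Fin (d + 2) → F) : Fin d → F := fun j => v j.succ.succ

@[simp] theorem ext_zero (i u : F) (x : Fin d → F) : ext i u x 0 = u := rfl

@[simp] theorem ext_one (i u : F) (x : Fin d → F) : ext i u x 1 = i * u := rfl

@[simp] theorem ext_succ (i u : F) (x : Fin d → F) (j : Fin d) :
    ext i u x j.succ.succ = x j := rfl

@[simp] theorem tt_ext (i u : F) (x : Fin d → F) : tt (ext i u x) = x := rfl

theorem nrm_succ (v : Fin (d + 2) → F) : nrm v = v 0 ^ 2 + v 1 ^ 2 + nrm (tt v) := by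
  unfold nrm tt
  rw [Fin.sum_univ_succ, Fin.sum_univ_succ, ← add_assoc]
  rfl

theorem nrm_ext_sub (i : F) (hi : i ^ 2 = -1) (u u' : F) (x x' : Fin d → F) :
    nrm (ext i u x - ext i u' x') = nrm (x - x') := by
  rw [nrm_succ]
  have h1 : tt (ext i u x - ext i u' x') = x - x' := by
    funext j
    simp [tt]
  rw [h1]
  simp only [Pi.sub_apply, ext_zero, ext_one]
  linear_combination ((u - u') ^ 2) * hi

theorem ext_inj (i : F) {u u' : F} {x x' : Fin d → F} (h : ext i u x = ext i u' x') :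
    u = u' ∧ x = x' :=
  ⟨by simpa using congrFun h 0, by simpa using congrArg tt h⟩

end

section

variable {d : ℕ} {F : Type} [Field F] [Fintype F] [DecidableEq F]

/-- The set `{(u, i u, x) : u ∈ F, x ∈ E}`. -/
def extSet (i : F) (E : Finset (Fin d → F)) : Finset (Fin (d + 2) → F) :=
  ((univ : Finset F) ×ˢ E).image fun z => ext i z.1 z.2

theorem card_extSet (i : F) (E : Finset (Fin d → F)) :
    (extSet i E).card = Fintype.card F * E.card := by
  unfold extSet
  rw [card_image_of_injective, card_product, card_univ]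
  rintro ⟨u, x⟩ ⟨u', x'⟩ h
  obtain ⟨rfl, rfl⟩ := ext_inj i h
  rfl

theorem mem_extSet {i : F} {E : Finset (Fin d → F)} {v : Fin (d + 2) → F} (hv : v ∈ extSet i E) :
    tt v ∈ E ∧ v = ext i (v 0) (tt v) := by
  unfold extSet at hv
  simp only [mem_image, mem_product, mem_univ, true_and, Prod.exists] at hv
  obtain ⟨u, x, hx, rfl⟩ := hv
  simpa using hx

theorem distSet_extSet (i : F) (hi : i ^ 2 = -1) (E : Finset (Fin d → F)) :
    distSet (extSet i E) ⊆ distSet E := by
  intro t ht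
  unfold distSet at ht ⊢
  simp only [mem_image, mem_product, Prod.exists] at ht ⊢
  obtain ⟨v, w, ⟨hv, hw⟩, rfl⟩ := ht
  obtain ⟨hv1, hv2⟩ := mem_extSet hv
  obtain ⟨hw1, hw2⟩ := mem_extSet hw
  refine ⟨tt v, tt w, ⟨hv1, hw1⟩, ?_⟩
  rw [hv2, hw2, nrm_ext_sub i hi]
  simp

theorem energy_extSet (i : F) (E : Finset (Fin d → F)) :
    energy (extSet i E) ≤ Fintype.card F ^ 3 * energy E := by
  have hc : ((univ : Finset (F × F × F)) ×ˢ
      (((E ×ˢ E) ×ˢ (E ×ˢ E)).filter fun z => z.1.1 + z.1.2 = z.2.1 + z.2.2)).card =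
      Fintype.card F ^ 3 * energy E := by
    rw [card_product, card_univ, Fintype.card_prod, Fintype.card_prod]
    unfold energy
    ring
  rw [← hc]
  unfold energy
  apply card_le_card_of_injOn
    (fun z => ((z.1.1 0, z.1.2 0, z.2.1 0), ((tt z.1.1, tt z.1.2), (tt z.2.1, tt z.2.2))))
  · rintro ⟨⟨a, b⟩, ⟨c, e⟩⟩ hz
    simp only [coe_filter, mem_product, Set.mem_ofPred_eq] at hz
    obtain ⟨⟨⟨ha, hb⟩, hc', he⟩, hs⟩ := hz
    simp only [coe_product, coe_univ, coe_filter, mem_product, Set.mem_prod, Set.mem_univ,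
      Set.mem_ofPred_eq, true_and]
    refine ⟨⟨⟨(mem_extSet ha).1, (mem_extSet hb).1⟩, (mem_extSet hc').1, (mem_extSet he).1⟩, ?_⟩
    funext j
    exact congrFun hs j.succ.succ
  · rintro ⟨⟨a, b⟩, ⟨c, e⟩⟩ hz ⟨⟨a', b'⟩, ⟨c', e'⟩⟩ hz' h
    simp only [coe_filter, mem_product, Set.mem_ofPred_eq] at hz hz'
    obtain ⟨⟨⟨ha, hb⟩, hc', he⟩, hs⟩ := hz
    obtain ⟨⟨⟨ha', hb'⟩, hc'', he'⟩, hs'⟩ := hz'
    simp only [Prod.mk.injEq] at h
    obtain ⟨⟨h1, h2, h3⟩, ⟨h4, h5⟩, h6, h7⟩ := h
    have h8 : e 0 = e' 0 := by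
      have e1 := congrFun hs 0
      have e2 := congrFun hs' 0
      simp only [Pi.add_apply] at e1 e2
      rw [h1, h2, h3] at e1
      rw [e1] at e2
      exact add_left_cancel e2
    have ra := (mem_extSet ha).2
    have rb := (mem_extSet hb).2
    have rc := (mem_extSet hc').2
    have re := (mem_extSet he).2
    have ra' := (mem_extSet ha').2
    have rb' := (mem_extSet hb').2
    have rc' := (mem_extSet hc'').2
    have re' := (mem_extSet he').2
    have qa : a = a' := by rw [ra, ra', h1, h4]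
    have qb : b = b' := by rw [rb, rb', h2, h5]
    have qc : c = c' := by rw [rc, rc', h3, h6]
    have qe : e = e' := by rw [re, re', h8, h7]
    rw [qa, qb, qc, qe]

end

theorem Family.step {d : ℕ} {m r : ℝ} (hF : Family d m r) : Family (d + 2) (m + 1) (r + 1) := by
  intro c ε Q₀ hc hε
  obtain ⟨F, iF, iF', iD, hchar, ⟨i, hi⟩, hq, E, hΔ, hcard, hen⟩ := hF c ε (max Q₀ 1) hc hε
  have hq1 : (1 : ℝ) ≤ Fintype.card F := (le_max_right _ _).trans hq
  have hq0 : (0 : ℝ) < Fintype.card F := by linarith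
  refine ⟨F, iF, iF', iD, hchar, ⟨i, hi⟩, (le_max_left _ _).trans hq, extSet i E, ?_, ?_, ?_⟩
  · refine le_trans ?_ hΔ
    exact_mod_cast card_le_card (distSet_extSet i hi E)
  · rw [card_extSet]
    push_cast
    calc (Fintype.card F : ℝ) ^ (m + 1 - ε) = Fintype.card F * (Fintype.card F : ℝ) ^ (m - ε) := by
          rw [show m + 1 - ε = 1 + (m - ε) by ring, Real.rpow_add hq0, Real.rpow_one]
      _ ≤ _ := mul_le_mul_of_nonneg_left hcard hq0.le
  · have h1 : (energy (extSet i E) : ℝ) ≤ (Fintype.card F : ℝ) ^ 3 * energy E := by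
      exact_mod_cast energy_extSet i E
    refine h1.trans ?_
    rw [card_extSet]
    push_cast
    calc (Fintype.card F : ℝ) ^ 3 * energy E
        ≤ (Fintype.card F : ℝ) ^ 3 * ((Fintype.card F : ℝ) ^ (-r + ε) * (E.card : ℝ) ^ 4) :=
          mul_le_mul_of_nonneg_left hen (by positivity)
      _ = _ := by
          rw [show -(r + 1) + ε = (-r + ε) - 1 by ring, Real.rpow_sub_one hq0.ne']
          field_simp

end Pool.Agent.MP_546591_co
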