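import Pool.Agent.Lib.MP_546591_co.Fourier
import Pool.Agent.Lib.MP_546591_co.Fraser
import Pool.Agent.Lib.MP_546591_co.Criterion
import Pool.Agent.Lib.MP_546591_co.Step
import Pool.Agent.Lib.MP_546591_co.OddBase
import Pool.Agent.Lib.MP_546591_co.EvenBase

/-!
# Assembly
-/

namespace Pool.Agent.MP_546591_co

open Finset

theorem family_odd (k : ℕ) : Family (3 + 2 * k) (3 / 2 + k) (3 + k) := by
  induction k with
  | zero => simpa using family_three
  | succ k ih =>
    have := ih.step
    convert this using 1 <;> push_cast <;> ring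

theorem family_even (k : ℕ) : Family (4 + 2 * k) (2 + k) (4 + k) := by
  induction k with
  | zero => simpa using family_four
  | succ k ih =>
    have := ih.step
    convert this using 1 <;> push_cast <;> ring

/-- Even dimension. -/
theorem even_case (d : ℕ) (hd : 4 ≤ d) (he : Even d) (s : ℝ) (h1 : 1 / 4 ≤ s) (h2 : s ≤ 1 / 2) :
    min ((d : ℝ) / 2) (((d : ℝ) + 4) / (8 * s)) ≤ alpha d s ∧
      alpha d s ≤ ((d : ℝ) + 4) / (8 * s) := by
  obtain ⟨m, rfl⟩ := he
  obtain ⟨k, rfl⟩ : ∃ k, m = 2 + k := ⟨m - 2, by omega⟩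
  have hF : Family (2 + k + (2 + k)) (2 + k) (4 + k) := by
    have := family_even k
    rwa [show 4 + 2 * k = 2 + k + (2 + k) by ring] at this
  have hA := admissible_fourier (2 + k + (2 + k)) hd s h1 h2
  have hm : (0 : ℝ) < 2 + k := by positivity
  have hr : (0 : ℝ) < 4 + k := by positivity
  refine ⟨?_, alpha_le_of_admissible hF hm hr s h1 h2 _ hA⟩
  have := le_alpha_of_family hF hm hr s h1 h2 _ hA
  convert this using 2
  · push_cast; ring
  · push_cast
    have : s ≠ 0 := by linarith
    field_simp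
    ring

/-- Odd dimension. -/
theorem odd_case (d : ℕ) (hd : 3 ≤ d) (ho : Odd d) (s : ℝ) (h1 : 1 / 4 ≤ s) (h2 : s ≤ 1 / 2) :
    min ((d : ℝ) / 2) (((d : ℝ) + 3) / (8 * s)) ≤ alpha d s := by
  obtain ⟨m, rfl⟩ := ho
  obtain ⟨k, rfl⟩ : ∃ k, m = 1 + k := ⟨m - 1, by omega⟩
  have hF : Family (2 * (1 + k) + 1) (3 / 2 + k) (3 + k) := by
    have := family_odd k
    rwa [show 3 + 2 * k = 2 * (1 + k) + 1 by ring] at this
  have hA := admissible_fraser (2 * (1 + k) + 1) (by omega) s h1 h2
  have hm : (0 : ℝ) < 3 / 2 + k := by positivity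
  have hr : (0 : ℝ) < 3 + k := by positivity
  have := le_alpha_of_family hF hm hr s h1 h2 _ hA
  convert this using 2
  · push_cast; ring
  · push_cast
    have : s ≠ 0 := by linarith
    field_simp
    ring

theorem alpha_three_half : alpha 3 (1 / 2) = 3 / 2 := by
  apply le_antisymm
  · have := alpha_le_of_admissible family_three (by norm_num) (by norm_num) (1 / 2) (by norm_num)
      le_rfl _ (admissible_fraser 3 (by norm_num) (1 / 2) (by norm_num) le_rfl)
    norm_num at this
    linarith
  · have := odd_case 3 le_rfl (by decide) (1 / 2) (by norm_num) le_rfl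
    norm_num at this
    linarith

/-- The lower bound in every dimension `d ≥ 3`. -/
theorem lower_bound (d : ℕ) (hd : 3 ≤ d) (s : ℝ) (h1 : 1 / 4 ≤ s) (h2 : s ≤ 1 / 2) :
    min ((d : ℝ) / 2) ((if Even d then (d : ℝ) + 4 else (d : ℝ) + 3) / (8 * s)) ≤ alpha d s := by
  split_ifs with h
  · have hd4 : 4 ≤ d := by
      obtain ⟨m, rfl⟩ := h
      omega
    exact (even_case d hd4 h s h1 h2).1
  · exact odd_case d hd (Nat.not_even_iff_odd.mp h) s h1 h2

/-- The conjectured value is too small. -/
theorem conjValue_lt (d : ℕ) (hd : 3 ≤ d) (s : ℝ) (h2 : s ≤ 1 / 2)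
    (h3 : (if Even d then (d : ℝ) + 2 else (d : ℝ) + 1) / (4 * d) < s) :
    conjValue d s < alpha d s := by
  have hd0 : (0 : ℝ) < d := by
    have : 0 < d := by omega
    exact_mod_cast this
  have h1 : 1 / 4 ≤ s := by
    refine le_trans ?_ h3.le
    rw [div_le_div_iff₀ (by norm_num) (by positivity)]
    split_ifs <;> linarith
  have hs : 0 < s := by linarith
  refine lt_of_lt_of_le ?_ (lower_bound d hd s h1 h2)
  unfold conjValue
  rw [if_neg (show ¬ d = 2 by omega)]
  by_cases h : Even d
  · rw [if_pos h] at h3 ⊢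
    rw [if_pos h, if_neg (not_le.mpr h3), lt_min_iff]
    rw [div_lt_iff₀ (by positivity)] at h3
    constructor
    · rw [div_lt_div_iff₀ (by positivity) (by norm_num)]
      linarith
    · rw [div_lt_div_iff_of_pos_right (by positivity)]
      linarith
  · rw [if_neg h] at h3 ⊢
    rw [if_neg h, lt_min_iff]
    rw [div_lt_iff₀ (by positivity)] at h3
    constructor
    · rw [div_lt_div_iff₀ (by positivity) (by norm_num)]
      linarith
    · rw [div_lt_div_iff_of_pos_right (by positivity)]
      linarith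

/-- The exact value for even `d ≥ 4`, and for `d = 3`, whenever the formula is at most `d / 2`. -/
theorem exact_value (d : ℕ) (hd : d = 3 ∨ (4 ≤ d ∧ Even d)) (s : ℝ) (h1 : 1 / 4 ≤ s)
    (h2 : s ≤ 1 / 2) (h3 : min (2 * (d : ℝ)) (d + 4) / (8 * s) ≤ d / 2) :
    alpha d s = min (2 * (d : ℝ)) (d + 4) / (8 * s) := by
  have hs : 0 < s := by linarith
  rcases hd with rfl | ⟨hd, he⟩
  · have e : min (2 * ((3 : ℕ) : ℝ)) (((3 : ℕ) : ℝ) + 4) = 6 := by norm_num
    rw [e] at h3 ⊢
    have h4 : s = 1 / 2 := by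
      rw [div_le_div_iff₀ (by positivity) (by norm_num)] at h3
      push_cast at h3
      linarith
    subst h4
    rw [alpha_three_half]
    norm_num
  · have e : min (2 * (d : ℝ)) (d + 4) = d + 4 := by
      apply min_eq_right
      have : (4 : ℝ) ≤ d := by exact_mod_cast hd
      linarith
    rw [e] at h3 ⊢
    obtain ⟨h5, h6⟩ := even_case d hd he s h1 h2
    refine le_antisymm h6 ?_
    rwa [min_eq_right h3] at h5

end Pool.Agent.MP_546591_co
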