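import Pool.Agent.Lib.MP_546591_co.Defs

/-!
# Odd dimension, energy count

`K` has `p^2` elements, `k = {a : a ^ p = a}`, `μ = {ε : ε ^ N = 1}` with `N` odd, `N ∣ p + 1`.
`S_ρ = {x ∈ k^3 : ‖x‖ = ρ}`.  We bound the number of solutions of
`ε₁ x₁ + ε₂ x₂ = ε₃ x₃ + ε₄ x₄`, `ε_i ∈ μ`, `x_i ∈ S_ρ`.
-/

namespace Pool.Agent.MP_546591_co

open Finset Polynomial

/-- `μ_N ⊂ K`. -/
def muN (K : Type) [Field K] [Fintype K] [DecidableEq K] (N : ℕ) : Finset K :=
  (univ : Finset K).filter fun a => a ^ N = 1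

/-- `{x ∈ k^3 : ‖x‖ = ρ}` with `k = {a : a ^ p = a}`. -/
def sphereK (K : Type) [Field K] [Fintype K] [DecidableEq K] (p : ℕ) (ρ : K) :
    Finset (Fin 3 → K) :=
  (univ : Finset (Fin 3 → K)).filter fun x => (∀ i, x i ^ p = x i) ∧ nrm x = ρ

namespace OddCore

variable {K : Type} [Field K] [Fintype K] [DecidableEq K]

/-- the bilinear form -/
def dt (x y : Fin 3 → K) : K := ∑ i, x i * y i

theorem card_le_of_root (P : Polynomial K) (hP : P ≠ 0) (s : Finset K)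
    (h : ∀ v ∈ s, P.eval v = 0) : s.card ≤ P.natDegree := by
  apply Polynomial.card_le_degree_of_subset_roots
  intro v hv
  rw [Polynomial.mem_roots hP]
  exact h v hv

theorem card_le_two {a b c : K} (ha : a ≠ 0) (s : Finset K)
    (h : ∀ v ∈ s, a * v ^ 2 + b * v + c = 0) : s.card ≤ 2 := by
  have h1 := card_le_of_root (C a * X ^ 2 + C b * X + C c) ?_ s ?_
  · exact h1.trans (Polynomial.natDegree_quadratic_le)
  · intro h0
    have : (C a * X ^ 2 + C b * X + C c : Polynomial K).natDegree = 2 :=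
      Polynomial.natDegree_quadratic ha
    rw [h0] at this
    simp at this
  · intro v hv
    simpa using h v hv

theorem sum_three {M : Type*} [AddCommMonoid M] (f : Fin 3 → M) {i j l : Fin 3} (hij : i ≠ j)
    (hil : i ≠ l) (hjl : j ≠ l) : ∑ t, f t = f i + f j + f l := by
  have hu : (univ : Finset (Fin 3)) = {i, j, l} := by
    symm
    rw [Finset.eq_univ_iff_forall]
    revert i j l
    decide
  rw [hu, Finset.sum_insert, Finset.sum_insert, Finset.sum_singleton, add_assoc]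
  · simpa using hjl
  · simp [hij, hil]

theorem exists_others : ∀ i : Fin 3, ∃ j l : Fin 3, i ≠ j ∧ i ≠ l ∧ j ≠ l := by decide

theorem mem_three : ∀ i j l : Fin 3, i ≠ j → i ≠ l → j ≠ l → ∀ t : Fin 3,
    t = i ∨ t = j ∨ t = l := by decide

/-- the fixed points of Frobenius -/
def kk (K : Type) [Field K] [Fintype K] [DecidableEq K] (p : ℕ) : Finset K :=
  (univ : Finset K).filter fun a => a ^ p = a

theorem card_kk (p : ℕ) (hp : 1 < p) : (kk K p).card ≤ p := by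
  have h1 := card_le_of_root (X ^ p - X : Polynomial K) (FiniteField.X_pow_card_sub_X_ne_zero K hp)
    (kk K p) ?_
  · rwa [FiniteField.X_pow_card_sub_X_natDegree_eq K hp] at h1
  · intro v hv
    simp only [kk, mem_filter, mem_univ, true_and] at hv
    simp [hv]

theorem card_muN (N : ℕ) (hN : 0 < N) : (muN K N).card ≤ N := by
  have h1 := card_le_of_root (X ^ N - C 1 : Polynomial K) (Polynomial.X_pow_sub_C_ne_zero hN 1)
    (muN K N) ?_
  · rwa [Polynomial.natDegree_X_pow_sub_C] at h1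
  · intro v hv
    simp only [muN, mem_filter, mem_univ, true_and] at hv
    simp [hv]

/-- (a) -/
theorem plane_sphere (p : ℕ) (hp : 1 < p) (h2 : (2 : K) ≠ 0) (ρ c : K) (y : Fin 3 → K)
    (hy : y ≠ 0) : ((sphereK K p ρ).filter fun x => dt x y = c).card ≤ 2 * p := by
  -- choose coordinates
  obtain ⟨i, j, l, hij, hil, hjl, hi, hs⟩ : ∃ i j l : Fin 3, i ≠ j ∧ i ≠ l ∧ j ≠ l ∧ y i ≠ 0 ∧
      y i ^ 2 + y j ^ 2 ≠ 0 := by
    obtain ⟨i, hi⟩ : ∃ i, y i ≠ 0 := by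
      by_contra h
      push Not at h
      exact hy (funext h)
    obtain ⟨j, l, hij, hil, hjl⟩ := exists_others i
    by_cases h1 : y i ^ 2 + y j ^ 2 = 0
    · have hj : y j ≠ 0 := by
        intro h
        rw [h] at h1
        apply hi
        have : y i ^ 2 = 0 := by linear_combination h1
        exact pow_eq_zero_iff (two_ne_zero) |>.1 this
      by_cases h3 : y j ^ 2 + y l ^ 2 = 0
      · refine ⟨i, l, j, hil, hij, hjl.symm, hi, ?_⟩
        intro h4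
        have : 2 * y i ^ 2 = 0 := by linear_combination h1 - h3 + h4
        rcases mul_eq_zero.1 this with h | h
        · exact h2 h
        · exact hi (pow_eq_zero_iff (two_ne_zero) |>.1 h)
      · exact ⟨j, l, i, hjl, hij.symm, hil.symm, hj, h3⟩
    · exact ⟨i, j, l, hij, hil, hjl, hi, h1⟩
  set s := (sphereK K p ρ).filter fun x => dt x y = c with hsdef
  have hmem : ∀ x ∈ s, (∀ t, x t ^ p = x t) ∧ x i ^ 2 + x j ^ 2 + x l ^ 2 = ρ ∧
      x i * y i + x j * y j + x l * y l = c := by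
    intro x hx
    simp only [hsdef, sphereK, mem_filter, mem_univ, true_and, nrm, dt] at hx
    obtain ⟨⟨h1, h3⟩, h4⟩ := hx
    refine ⟨h1, ?_, ?_⟩
    · rw [← h3, sum_three (fun t => x t ^ 2) hij hil hjl]
    · rw [← h4, sum_three (fun t => x t * y t) hij hil hjl]
  have hcard : s.card ≤ 2 * (s.image fun x => x l).card := by
    apply Finset.card_le_mul_card_image
    intro u hu
    have hinj : Set.InjOn (fun x : Fin 3 → K => x j) ({x ∈ s | x l = u} : Finset (Fin 3 → K)) := by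
      intro x hx x' hx' hxx
      simp only [coe_filter, Set.mem_ofPred_eq] at hx hx'
      obtain ⟨hxs, hxl⟩ := hx
      obtain ⟨hxs', hxl'⟩ := hx'
      obtain ⟨_, _, h3⟩ := hmem x hxs
      obtain ⟨_, _, h3'⟩ := hmem x' hxs'
      simp only at hxx
      have hii : x i = x' i := by
        apply mul_right_cancel₀ hi
        rw [hxl] at h3
        rw [hxl'] at h3'
        rw [hxx] at h3
        linear_combination h3 - h3'
      funext t
      have ht : t = i ∨ t = j ∨ t = l := mem_three i j l hij hil hjl t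
      rcases ht with rfl | rfl | rfl
      · exact hii
      · exact hxx
      · rw [hxl, hxl']
    rw [← Finset.card_image_of_injOn hinj]
    apply card_le_two (a := y i ^ 2 + y j ^ 2) (b := -2 * (c - u * y l) * y j)
      (c := (c - u * y l) ^ 2 + (u ^ 2 - ρ) * y i ^ 2) hs
    intro v hv
    simp only [mem_image, mem_filter] at hv
    obtain ⟨x, ⟨hxs, hxl⟩, rfl⟩ := hv
    obtain ⟨_, h3, h4⟩ := hmem x hxs
    rw [hxl] at h3 h4
    have h5 : x i * y i = c - u * y l - x j * y j := by linear_combination h4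
    have h6 : (x i * y i) ^ 2 = (c - u * y l - x j * y j) ^ 2 := by rw [h5]
    linear_combination y i ^ 2 * h3 - h6
  have himg : (s.image fun x => x l) ⊆ kk K p := by
    intro u hu
    simp only [mem_image] at hu
    obtain ⟨x, hx, rfl⟩ := hu
    simp only [kk, mem_filter, mem_univ, true_and]
    exact (hmem x hx).1 l
  calc s.card ≤ 2 * (s.image fun x => x l).card := hcard
    _ ≤ 2 * (kk K p).card := by gcongr
    _ ≤ 2 * p := by
      have := card_kk (K := K) p hp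
      omega

/-- (b) -/
theorem card_sphereK (p : ℕ) (hp : 1 < p) (ρ : K) : (sphereK K p ρ).card ≤ 2 * p ^ 2 := by
  have hmem : ∀ x ∈ sphereK K p ρ, (∀ t, x t ^ p = x t) ∧ x 0 ^ 2 + x 1 ^ 2 + x 2 ^ 2 = ρ := by
    intro x hx
    simp only [sphereK, mem_filter, mem_univ, true_and, nrm, Fin.sum_univ_three] at hx
    exact hx
  have hcard : (sphereK K p ρ).card ≤ 2 * ((sphereK K p ρ).image fun x => (x 0, x 1)).card := by
    apply Finset.card_le_mul_card_image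
    intro u hu
    have hinj : Set.InjOn (fun x : Fin 3 → K => x 2)
        ({x ∈ sphereK K p ρ | (x 0, x 1) = u} : Finset (Fin 3 → K)) := by
      intro x hx x' hx' hxx
      simp only [coe_filter, Set.mem_ofPred_eq] at hx hx'
      have h1 := hx.2.trans hx'.2.symm
      simp only [Prod.mk.injEq] at h1
      simp only at hxx
      funext t
      fin_cases t
      · exact h1.1
      · exact h1.2
      · exact hxx
    rw [← Finset.card_image_of_injOn hinj]
    apply card_le_two (a := 1) (b := 0) (c := u.1 ^ 2 + u.2 ^ 2 - ρ) one_ne_zero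
    intro v hv
    simp only [mem_image, mem_filter] at hv
    obtain ⟨x, ⟨hxs, hxl⟩, rfl⟩ := hv
    obtain ⟨_, h3⟩ := hmem x hxs
    rw [← hxl]
    linear_combination h3
  have himg : ((sphereK K p ρ).image fun x => (x 0, x 1)) ⊆ kk K p ×ˢ kk K p := by
    intro u hu
    simp only [mem_image] at hu
    obtain ⟨x, hx, rfl⟩ := hu
    simp only [kk, mem_product, mem_filter, mem_univ, true_and]
    exact ⟨(hmem x hx).1 0, (hmem x hx).1 1⟩
  calc (sphereK K p ρ).card ≤ 2 * ((sphereK K p ρ).image fun x => (x 0, x 1)).card := hcard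
    _ ≤ 2 * (kk K p ×ˢ kk K p).card := by gcongr
    _ = 2 * ((kk K p).card * (kk K p).card) := by rw [card_product]
    _ ≤ 2 * (p * p) := by
      have := card_kk (K := K) p hp
      gcongr
    _ = 2 * p ^ 2 := by ring


/-- the vector `ε x` -/
def vv (g : K × (Fin 3 → K)) : Fin 3 → K := g.1 • g.2

/-- the sum of two vectors -/
def zz (w : (K × (Fin 3 → K)) × (K × (Fin 3 → K))) : Fin 3 → K := vv w.1 + vv w.2

theorem zz_apply (w : (K × (Fin 3 → K)) × (K × (Fin 3 → K))) (i : Fin 3) :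
    zz w i = w.1.1 * w.1.2 i + w.2.1 * w.2.2 i := by
  simp [zz, vv]

theorem mu_ne_zero {N : ℕ} (hN : Odd N) {a : K} (ha : a ^ N = 1) : a ≠ 0 := by
  rintro rfl
  rw [zero_pow hN.pos.ne'] at ha
  exact zero_ne_one ha

theorem mu_pow {p N : ℕ} (hN : Odd N) (hNd : N ∣ p + 1) {a : K} (ha : a ^ N = 1) :
    a ^ p = a⁻¹ := by
  obtain ⟨m, hm⟩ := hNd
  have h1 : a ^ p * a = 1 := by
    rw [← pow_succ, hm, pow_mul, ha, one_pow]
  exact eq_inv_of_mul_eq_one_left h1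

theorem mu_sq_inj {N : ℕ} (hN : Odd N) {a b : K} (ha : a ^ N = 1) (hb : b ^ N = 1)
    (h : a ^ 2 = b ^ 2) : a = b := by
  obtain ⟨m, rfl⟩ := hN
  rw [pow_succ, pow_mul] at ha hb
  rw [h] at ha
  have hb0 : (b ^ 2) ^ m ≠ 0 := by
    intro h0
    rw [h0, zero_mul] at hb
    exact zero_ne_one hb
  exact mul_left_cancel₀ hb0 (ha.trans hb.symm)

/-- the group elements -/
def AA (K : Type) [Field K] [Fintype K] [DecidableEq K] (p N : ℕ) (ρ : K) :
    Finset (K × (Fin 3 → K)) := muN K N ×ˢ sphereK K p ρ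

theorem mem_AA {p N : ℕ} {ρ : K} {g : K × (Fin 3 → K)} :
    g ∈ AA K p N ρ ↔ g.1 ^ N = 1 ∧ (∀ i, g.2 i ^ p = g.2 i) ∧ nrm g.2 = ρ := by
  simp [AA, muN, sphereK]

theorem card_AA (p : ℕ) (hp : 1 < p) (N : ℕ) (hN : Odd N) (ρ : K) :
    (AA K p N ρ).card ≤ N * (2 * p ^ 2) := by
  rw [AA, card_product]
  exact Nat.mul_le_mul (card_muN N hN.pos) (card_sphereK p hp ρ)

theorem zz_pow {p : ℕ} [Fact p.Prime] [CharP K p] {N : ℕ} (hN : Odd N) (hNd : N ∣ p + 1) {ρ : K}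
    {w : (K × (Fin 3 → K)) × (K × (Fin 3 → K))} (h1 : w.1 ∈ AA K p N ρ) (h2 : w.2 ∈ AA K p N ρ)
    (i : Fin 3) : zz w i ^ p = w.1.1⁻¹ * w.1.2 i + w.2.1⁻¹ * w.2.2 i := by
  rw [mem_AA] at h1 h2
  rw [zz_apply, add_pow_char, mul_pow, mul_pow, mu_pow hN hNd h1.1, mu_pow hN hNd h2.1, h1.2.1,
    h2.2.1]

theorem K1 {p : ℕ} [Fact p.Prime] [CharP K p] {N : ℕ} (hN : Odd N) (hNd : N ∣ p + 1) {ρ : K}
    {w : (K × (Fin 3 → K)) × (K × (Fin 3 → K))} (h1 : w.1 ∈ AA K p N ρ) (h2 : w.2 ∈ AA K p N ρ) :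
    (w.1.1 * w.2.1) ^ 2 * nrm (fun i => zz w i ^ p) = nrm (zz w) := by
  have ha := mu_ne_zero hN (mem_AA.1 h1).1
  have hb := mu_ne_zero hN (mem_AA.1 h2).1
  have e1 := (mem_AA.1 h1).2.2
  have e2 := (mem_AA.1 h2).2.2
  simp only [nrm, Fin.sum_univ_three] at e1 e2 ⊢
  rw [zz_pow hN hNd h1 h2, zz_pow hN hNd h1 h2, zz_pow hN hNd h1 h2]
  simp only [zz_apply]
  field_simp
  linear_combination (w.2.1 ^ 2 - w.1.1 ^ 2) * (e1 - e2)

theorem nrm_pow {p : ℕ} [Fact p.Prime] [CharP K p] (z : Fin 3 → K) :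
    nrm (fun i => z i ^ p) = nrm z ^ p := by
  simp only [nrm, Fin.sum_univ_three]
  rw [add_pow_char, add_pow_char]
  ring

theorem K2 {p : ℕ} [Fact p.Prime] [CharP K p] {N : ℕ} (hN : Odd N) (hNd : N ∣ p + 1) {ρ : K}
    {w : (K × (Fin 3 → K)) × (K × (Fin 3 → K))} (h1 : w.1 ∈ AA K p N ρ) (h2 : w.2 ∈ AA K p N ρ)
    (i : Fin 3) : w.1.1 * zz w i - w.1.1 * w.2.1 ^ 2 * zz w i ^ p =
      (w.1.1 ^ 2 - w.2.1 ^ 2) * w.1.2 i := by
  have ha := mu_ne_zero hN (mem_AA.1 h1).1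
  have hb := mu_ne_zero hN (mem_AA.1 h2).1
  rw [zz_pow hN hNd h1 h2, zz_apply]
  field_simp
  ring

theorem K3 {p : ℕ} [Fact p.Prime] [CharP K p] {N : ℕ} (hN : Odd N) (hNd : N ∣ p + 1) {ρ : K}
    {w : (K × (Fin 3 → K)) × (K × (Fin 3 → K))} (h1 : w.1 ∈ AA K p N ρ) (h2 : w.2 ∈ AA K p N ρ) :
    w.1.1 ^ 2 * nrm (zz w) - 2 * (w.1.1 * w.2.1) ^ 2 * dt (zz w) (fun i => zz w i ^ p) +
      w.1.1 ^ 2 * w.2.1 ^ 4 * nrm (fun i => zz w i ^ p) = (w.1.1 ^ 2 - w.2.1 ^ 2) ^ 2 * ρ := by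
  have e1 := (mem_AA.1 h1).2.2
  have k0 := K2 hN hNd h1 h2 0
  have k1 := K2 hN hNd h1 h2 1
  have k2 := K2 hN hNd h1 h2 2
  have s0 := congrArg (· ^ 2) k0
  have s1 := congrArg (· ^ 2) k1
  have s2 := congrArg (· ^ 2) k2
  simp only [nrm, dt, Fin.sum_univ_three] at e1 s0 s1 s2 ⊢
  linear_combination s0 + s1 + s2 + (w.1.1 ^ 2 - w.2.1 ^ 2) ^ 2 * e1


/-- all pairs of group elements -/
def PP (K : Type) [Field K] [Fintype K] [DecidableEq K] (p N : ℕ) (ρ : K) :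
    Finset ((K × (Fin 3 → K)) × (K × (Fin 3 → K))) := AA K p N ρ ×ˢ AA K p N ρ

theorem mem_PP {p N : ℕ} {ρ : K} {w : (K × (Fin 3 → K)) × (K × (Fin 3 → K))} :
    w ∈ PP K p N ρ ↔ w.1 ∈ AA K p N ρ ∧ w.2 ∈ AA K p N ρ := by
  simp [PP]

/-- In a non-degenerate pair with given sum, everything is determined by the two scalars. -/
theorem determined {p : ℕ} [Fact p.Prime] [CharP K p] {N : ℕ} (hN : Odd N) (hNd : N ∣ p + 1)
    {ρ : K} {w w' : (K × (Fin 3 → K)) × (K × (Fin 3 → K))} (hw : w ∈ PP K p N ρ)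
    (hw' : w' ∈ PP K p N ρ) (hnd : w.1.1 ≠ w.2.1) (hz : zz w = zz w') (ha : w.1.1 = w'.1.1)
    (hb : w.2.1 = w'.2.1) : w = w' := by
  rw [mem_PP] at hw hw'
  have hab : w.1.1 ^ 2 - w.2.1 ^ 2 ≠ 0 := by
    intro h
    exact hnd (mu_sq_inj hN (mem_AA.1 hw.1).1 (mem_AA.1 hw.2).1 (sub_eq_zero.1 h))
  have hb0 := mu_ne_zero hN (mem_AA.1 hw.2).1
  have hx : w.1.2 = w'.1.2 := by
    funext i
    have k1 := K2 hN hNd hw.1 hw.2 i
    have k2 := K2 hN hNd hw'.1 hw'.2 i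
    rw [← hz, ← ha, ← hb] at k2
    exact mul_left_cancel₀ hab (k1.symm.trans k2)
  have hy : w.2.2 = w'.2.2 := by
    funext i
    have k1 := zz_apply w i
    have k2 := zz_apply w' i
    rw [← hz, ← ha, ← hb, ← hx] at k2
    apply mul_left_cancel₀ hb0
    linear_combination k2 - k1
  exact Prod.ext (Prod.ext ha hx) (Prod.ext hb hy)

/-- (c) -/
theorem nd_count {p : ℕ} [Fact p.Prime] [CharP K p] {N : ℕ} (hN : Odd N) (hNd : N ∣ p + 1)
    {ρ : K} (hρ : ρ ≠ 0) (z : Fin 3 → K) (hz : nrm z ≠ 0) :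
    ((PP K p N ρ).filter fun w => w.1.1 ≠ w.2.1 ∧ zz w = z).card ≤ 4 := by
  set s := (PP K p N ρ).filter fun w => w.1.1 ≠ w.2.1 ∧ zz w = z with hs
  set n := nrm z with hn
  set n' := nrm (fun i => z i ^ p) with hn'
  set B := dt z (fun i => z i ^ p) with hB
  have hn'0 : n' ≠ 0 := by
    rw [hn', nrm_pow]
    exact pow_ne_zero _ hz
  have hmem : ∀ w ∈ s, w.1 ∈ AA K p N ρ ∧ w.2 ∈ AA K p N ρ ∧ w.1.1 ≠ w.2.1 ∧ zz w = z := by
    intro w hw
    simp only [hs, mem_filter, mem_PP] at hw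
    exact ⟨hw.1.1, hw.1.2, hw.2.1, hw.2.2⟩
  have hinj : Set.InjOn (fun w : (K × (Fin 3 → K)) × (K × (Fin 3 → K)) => w.2.1 ^ 2) s := by
    intro w hw w' hw' h
    simp only at h
    obtain ⟨h1, h2, h3, h4⟩ := hmem w hw
    obtain ⟨h1', h2', h3', h4'⟩ := hmem w' hw'
    have hb : w.2.1 = w'.2.1 := mu_sq_inj hN (mem_AA.1 h2).1 (mem_AA.1 h2').1 h
    have k := K1 hN hNd h1 h2
    have k' := K1 hN hNd h1' h2'
    rw [h4] at k
    rw [h4'] at k'
    have hπ : (w.1.1 * w.2.1) ^ 2 = (w'.1.1 * w'.2.1) ^ 2 :=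
      mul_right_cancel₀ hn'0 (k.trans k'.symm)
    have hπ' : w.1.1 * w.2.1 = w'.1.1 * w'.2.1 := by
      apply mu_sq_inj hN _ _ hπ
      · rw [mul_pow, (mem_AA.1 h1).1, (mem_AA.1 h2).1, one_mul]
      · rw [mul_pow, (mem_AA.1 h1').1, (mem_AA.1 h2').1, one_mul]
    have ha : w.1.1 = w'.1.1 := by
      rw [hb] at hπ'
      exact mul_right_cancel₀ (mu_ne_zero hN (mem_AA.1 h2').1) hπ'
    exact determined hN hNd (mem_PP.2 ⟨h1, h2⟩) (mem_PP.2 ⟨h1', h2'⟩) h3 (h4.trans h4'.symm) ha hb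
  rw [← Finset.card_image_of_injOn hinj]
  set P : Polynomial K := C ρ * X ^ 4 + (C (-n) * X ^ 3 + C ((2 * B - 2 * ρ) * (n / n')) * X ^ 2 +
    C (-(n ^ 2 / n')) * X + C (ρ * (n / n') ^ 2)) with hP
  have hdeg : P.natDegree = 4 := by
    rw [hP]
    compute_degree!
  have hP0 : P ≠ 0 := by
    intro h
    rw [h] at hdeg
    simp at hdeg
  have := card_le_of_root P hP0 (s.image fun w => w.2.1 ^ 2) ?_
  · rwa [hdeg] at this
  · intro v hv
    simp only [mem_image] at hv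
    obtain ⟨w, hw, rfl⟩ := hv
    obtain ⟨h1, h2, h3, h4⟩ := hmem w hw
    have k1 := K1 hN hNd h1 h2
    have k3 := K3 hN hNd h1 h2
    rw [h4] at k1 k3
    rw [← hn, ← hn'] at k1 k3
    rw [← hB] at k3
    have ha0 := mu_ne_zero hN (mem_AA.1 h1).1
    have hb0 := mu_ne_zero hN (mem_AA.1 h2).1
    have hq : n / n' = (w.1.1 * w.2.1) ^ 2 := by
      rw [div_eq_iff hn'0, k1]
    have hq2 : n ^ 2 / n' = n * (w.1.1 * w.2.1) ^ 2 := by
      rw [← hq]; ring
    simp only [hP, eval_add, eval_mul, eval_C, eval_pow, eval_X]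
    rw [hq, hq2]
    linear_combination (-(w.2.1 ^ 4)) * k3 + w.2.1 ^ 6 * k1


/-- (d) -/
theorem nd_count0 {p : ℕ} [Fact p.Prime] [CharP K p] {N : ℕ} (hN : Odd N) (hNd : N ∣ p + 1)
    {ρ : K} (hρ : ρ ≠ 0) (z : Fin 3 → K) (hz : nrm z = 0) :
    ((PP K p N ρ).filter fun w => w.1.1 ≠ w.2.1 ∧ zz w = z).card ≤ 2 * N := by
  set s := (PP K p N ρ).filter fun w => w.1.1 ≠ w.2.1 ∧ zz w = z with hs
  set B := dt z (fun i => z i ^ p) with hB
  have hn' : nrm (fun i => z i ^ p) = 0 := by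
    rw [nrm_pow, hz, zero_pow (Fact.out : p.Prime).ne_zero]
  have hmem : ∀ w ∈ s, w.1 ∈ AA K p N ρ ∧ w.2 ∈ AA K p N ρ ∧ w.1.1 ≠ w.2.1 ∧ zz w = z := by
    intro w hw
    simp only [hs, mem_filter, mem_PP] at hw
    exact ⟨hw.1.1, hw.1.2, hw.2.1, hw.2.2⟩
  have hinj : Set.InjOn (fun w : (K × (Fin 3 → K)) × (K × (Fin 3 → K)) =>
      ((w.1.1 / w.2.1) ^ 2, w.2.1)) s := by
    intro w hw w' hw' h
    simp only [Prod.mk.injEq] at h
    obtain ⟨h, hb⟩ := h
    obtain ⟨h1, h2, h3, h4⟩ := hmem w hw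
    obtain ⟨h1', h2', h3', h4'⟩ := hmem w' hw'
    have hb0 := mu_ne_zero hN (mem_AA.1 h2').1
    have hsq : w.1.1 ^ 2 = w'.1.1 ^ 2 := by
      rw [hb, div_pow, div_pow, div_left_inj' (pow_ne_zero 2 hb0)] at h
      exact h
    have ha : w.1.1 = w'.1.1 := mu_sq_inj hN (mem_AA.1 h1).1 (mem_AA.1 h1').1 hsq
    exact determined hN hNd (mem_PP.2 ⟨h1, h2⟩) (mem_PP.2 ⟨h1', h2'⟩) h3 (h4.trans h4'.symm) ha hb
  rw [← Finset.card_image_of_injOn hinj]
  have hsub : (s.image fun w => ((w.1.1 / w.2.1) ^ 2, w.2.1)) ⊆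
      (s.image fun w => (w.1.1 / w.2.1) ^ 2) ×ˢ muN K N := by
    intro u hu
    simp only [mem_image] at hu
    obtain ⟨w, hw, rfl⟩ := hu
    obtain ⟨h1, h2, h3, h4⟩ := hmem w hw
    simp only [mem_product, mem_image, muN, mem_filter, mem_univ, true_and]
    exact ⟨⟨w, hw, rfl⟩, (mem_AA.1 h2).1⟩
  have h2card : (s.image fun w => (w.1.1 / w.2.1) ^ 2).card ≤ 2 := by
    apply card_le_two (a := ρ) (b := 2 * B - 2 * ρ) (c := ρ) hρ
    intro v hv
    simp only [mem_image] at hv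
    obtain ⟨w, hw, rfl⟩ := hv
    obtain ⟨h1, h2, h3, h4⟩ := hmem w hw
    have k3 := K3 hN hNd h1 h2
    rw [h4, hz, hn', ← hB] at k3
    have hb0 := mu_ne_zero hN (mem_AA.1 h2).1
    field_simp
    linear_combination (-1) * k3
  calc (s.image fun w => ((w.1.1 / w.2.1) ^ 2, w.2.1)).card
      ≤ ((s.image fun w => (w.1.1 / w.2.1) ^ 2) ×ˢ muN K N).card := card_le_card hsub
    _ = (s.image fun w => (w.1.1 / w.2.1) ^ 2).card * (muN K N).card := card_product _ _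
    _ ≤ 2 * N := Nat.mul_le_mul h2card (card_muN N hN.pos)

/-- the scalar of a nonzero multiple of a rational vector is determined -/
theorem scalar_det {p : ℕ} {N : ℕ} (hN : Odd N) (hNd : N ∣ p + 1) {a b : K}
    (ha : a ^ N = 1) (hb : b ^ N = 1) {u v : K} (hu : u ^ p = u) (hv : v ^ p = v)
    (h : a * u = b * v) (h0 : a * u ≠ 0) : a = b := by
  have ha0 := mu_ne_zero hN ha
  have hb0 := mu_ne_zero hN hb
  have hu0 : u ≠ 0 := right_ne_zero_of_mul h0
  have h1 : a⁻¹ * u = b⁻¹ * v := by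
    have h2 := congrArg (· ^ p) h
    simp only [mul_pow] at h2
    rwa [mu_pow hN hNd ha, mu_pow hN hNd hb, hu, hv] at h2
  apply mu_sq_inj hN ha hb
  have h3 : a⁻¹ * u * (a * b) = b⁻¹ * v * (a * b) := by rw [h1]
  have h4 : b * u = a * v := by
    have e1 : a⁻¹ * u * (a * b) = b * u := by field_simp
    have e2 : b⁻¹ * v * (a * b) = a * v := by field_simp
    rw [← e1, ← e2, h3]
  apply mul_right_cancel₀ hu0
  linear_combination a * h - b * h4

/-- (e) -/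
theorem dg_count {p : ℕ} [Fact p.Prime] [CharP K p] (h20 : (2 : K) ≠ 0) {N : ℕ} (hN : Odd N)
    (hNd : N ∣ p + 1) {ρ : K} (z : Fin 3 → K) (hz : z ≠ 0) :
    ((PP K p N ρ).filter fun w => w.1.1 = w.2.1 ∧ zz w = z).card ≤ 2 * p := by
  set s := (PP K p N ρ).filter fun w => w.1.1 = w.2.1 ∧ zz w = z with hs
  have hmem : ∀ w ∈ s, w.1 ∈ AA K p N ρ ∧ w.2 ∈ AA K p N ρ ∧ w.1.1 = w.2.1 ∧ zz w = z := by
    intro w hw
    simp only [hs, mem_filter, mem_PP] at hw
    exact ⟨hw.1.1, hw.1.2, hw.2.1, hw.2.2⟩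
  rcases s.eq_empty_or_nonempty with he | ⟨w0, hw0⟩
  · rw [he]; simp
  obtain ⟨i, hi⟩ : ∃ i, z i ≠ 0 := by
    by_contra h
    push Not at h
    exact hz (funext h)
  obtain ⟨h01, h02, h03, h04⟩ := hmem w0 hw0
  set e := w0.1.1 with he
  have he0 : e ≠ 0 := mu_ne_zero hN (mem_AA.1 h01).1
  have hfac : ∀ w ∈ s, ∀ i, z i = w.1.1 * (w.1.2 i + w.2.2 i) := by
    intro w hw i
    obtain ⟨h1, h2, h3, h4⟩ := hmem w hw
    rw [← h4, zz_apply, ← h3]
    ring
  have hrat : ∀ w ∈ s, ∀ i, (w.1.2 i + w.2.2 i) ^ p = w.1.2 i + w.2.2 i := by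
    intro w hw i
    obtain ⟨h1, h2, h3, h4⟩ := hmem w hw
    rw [add_pow_char, (mem_AA.1 h1).2.1, (mem_AA.1 h2).2.1]
  have hsc : ∀ w ∈ s, w.1.1 = e := by
    intro w hw
    obtain ⟨h1, h2, h3, h4⟩ := hmem w hw
    refine scalar_det hN hNd (mem_AA.1 h1).1 (mem_AA.1 h01).1 (hrat w hw i) (hrat w0 hw0 i) ?_ ?_
    · rw [← hfac w hw i, ← hfac w0 hw0 i]
    · rw [← hfac w hw i]; exact hi
  set y : Fin 3 → K := fun i => e⁻¹ * z i with hy
  have hy0 : y ≠ 0 := by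
    intro h
    have := congrFun h i
    simp only [hy, Pi.zero_apply, mul_eq_zero, inv_eq_zero] at this
    tauto
  have hyw : ∀ w ∈ s, ∀ i, y i = w.1.2 i + w.2.2 i := by
    intro w hw i
    simp only [hy]
    rw [hfac w hw i, hsc w hw]
    field_simp
  have hinj : Set.InjOn (fun w : (K × (Fin 3 → K)) × (K × (Fin 3 → K)) => w.1.2) s := by
    intro w hw w' hw' h
    simp only at h
    have hb : w.2.1 = w'.2.1 := by
      rw [← (hmem w hw).2.2.1, ← (hmem w' hw').2.2.1, hsc w hw, hsc w' hw']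
    have hx : w.2.2 = w'.2.2 := by
      funext i
      have k1 := hyw w hw i
      have k2 := hyw w' hw' i
      rw [← h] at k2
      linear_combination k2 - k1
    exact Prod.ext (Prod.ext ((hsc w hw).trans (hsc w' hw').symm) h) (Prod.ext hb hx)
  rw [← Finset.card_image_of_injOn hinj]
  have hsub : (s.image fun w => w.1.2) ⊆ (sphereK K p ρ).filter fun x => dt x y = nrm y / 2 := by
    intro x hx
    simp only [mem_image] at hx
    obtain ⟨w, hw, rfl⟩ := hx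
    obtain ⟨h1, h2, h3, h4⟩ := hmem w hw
    have e1 := (mem_AA.1 h1).2.2
    have e2 := (mem_AA.1 h2).2.2
    simp only [sphereK, mem_filter, mem_univ, true_and]
    refine ⟨⟨(mem_AA.1 h1).2.1, e1⟩, ?_⟩
    rw [eq_div_iff h20]
    simp only [nrm, dt, Fin.sum_univ_three] at e1 e2 ⊢
    rw [hyw w hw 0, hyw w hw 1, hyw w hw 2]
    linear_combination e1 - e2
  exact (card_le_card hsub).trans
    (plane_sphere p (Fact.out : p.Prime).one_lt h20 ρ _ y hy0)

/-- (f): the vector determines the group element -/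
theorem vv_inj {p : ℕ} [Fact p.Prime] {N : ℕ} (hN : Odd N)
    (hNd : N ∣ p + 1) {ρ : K} (hρ : ρ ≠ 0) {g g' : K × (Fin 3 → K)} (hg : g ∈ AA K p N ρ)
    (hg' : g' ∈ AA K p N ρ) (h : vv g = vv g') : g = g' := by
  rw [mem_AA] at hg hg'
  obtain ⟨i, hi⟩ : ∃ i, g.2 i ≠ 0 := by
    by_contra h0
    push Not at h0
    apply hρ
    rw [← hg.2.2]
    simp [nrm, h0]
  have ha0 := mu_ne_zero hN hg.1
  have hall : ∀ i, g.1 * g.2 i = g'.1 * g'.2 i := fun i => by
    have := congrFun h i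
    simpa [vv] using this
  have h1 : g.1 = g'.1 :=
    scalar_det hN hNd hg.1 hg'.1 (hg.2.1 i) (hg'.2.1 i) (hall i) (mul_ne_zero ha0 hi)
  refine Prod.ext h1 (funext fun i => ?_)
  have := hall i
  rw [← h1] at this
  exact mul_left_cancel₀ ha0 this

theorem card_fst {p : ℕ} [Fact p.Prime] {N : ℕ} (hN : Odd N)
    (hNd : N ∣ p + 1) {ρ : K} (hρ : ρ ≠ 0) (z : Fin 3 → K) :
    ((PP K p N ρ).filter fun w => zz w = z).card ≤ (AA K p N ρ).card := by
  apply Finset.card_le_card_of_injOn (fun w => w.1)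
  · intro w hw
    simp only [coe_filter, Set.mem_ofPred_eq, mem_PP] at hw
    exact hw.1.1
  · intro w hw w' hw' h
    simp only [coe_filter, Set.mem_ofPred_eq, mem_PP] at hw hw'
    simp only at h
    have h2 : vv w.2 = vv w'.2 := by
      have := hw.2.trans hw'.2.symm
      simp only [zz, h] at this
      exact add_left_cancel this
    exact Prod.ext h (vv_inj hN hNd hρ hw.1.2 hw'.1.2 h2)

/-- (g) -/
theorem isotropic_count {p : ℕ} [Fact p.Prime] (h20 : (2 : K) ≠ 0) {N : ℕ} (hN : Odd N)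
    {ρ : K} (hρ : ρ ≠ 0) :
    ((PP K p N ρ).filter fun w => nrm (zz w) = 0).card ≤ 2 * p * (N * (2 * p ^ 2) * N) := by
  set s := (PP K p N ρ).filter fun w => nrm (zz w) = 0 with hs
  have hmem : ∀ w ∈ s, w.1 ∈ AA K p N ρ ∧ w.2 ∈ AA K p N ρ ∧ nrm (zz w) = 0 := by
    intro w hw
    simp only [hs, mem_filter, mem_PP] at hw
    exact ⟨hw.1.1, hw.1.2, hw.2⟩
  have hcard : s.card ≤ (2 * p) * (s.image fun w => (w.1, w.2.1)).card := by
    apply Finset.card_le_mul_card_image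
    intro u hu
    simp only [mem_image] at hu
    obtain ⟨w0, hw0, rfl⟩ := hu
    obtain ⟨h1, h2, h3⟩ := hmem w0 hw0
    have ha0 := mu_ne_zero hN (mem_AA.1 h1).1
    have hb0 := mu_ne_zero hN (mem_AA.1 h2).1
    have hy0 : w0.1.2 ≠ 0 := by
      intro h0
      apply hρ
      rw [← (mem_AA.1 h1).2.2, h0]
      simp [nrm]
    have hinj : Set.InjOn (fun w : (K × (Fin 3 → K)) × (K × (Fin 3 → K)) => w.2.2)
        ({w ∈ s | (w.1, w.2.1) = (w0.1, w0.2.1)} :
          Finset ((K × (Fin 3 → K)) × (K × (Fin 3 → K)))) := by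
      intro w hw w' hw' h
      simp only [coe_filter, Set.mem_ofPred_eq, Prod.mk.injEq] at hw hw'
      exact Prod.ext (hw.2.1.trans hw'.2.1.symm) (Prod.ext (hw.2.2.trans hw'.2.2.symm) h)
    rw [← Finset.card_image_of_injOn hinj]
    have hsub : (image (fun w : (K × (Fin 3 → K)) × (K × (Fin 3 → K)) => w.2.2)
        {w ∈ s | (w.1, w.2.1) = (w0.1, w0.2.1)}) ⊆ (sphereK K p ρ).filter fun x =>
          dt x w0.1.2 = -(ρ * (w0.1.1 ^ 2 + w0.2.1 ^ 2)) / (2 * w0.1.1 * w0.2.1) := by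
      intro x hx
      simp only [mem_image, mem_filter, Prod.mk.injEq] at hx
      obtain ⟨w, ⟨hw, h5, h6⟩, rfl⟩ := hx
      obtain ⟨h1', h2', h3'⟩ := hmem w hw
      have e1 := (mem_AA.1 h1').2.2
      have e2 := (mem_AA.1 h2').2.2
      simp only [sphereK, mem_filter, mem_univ, true_and]
      refine ⟨⟨(mem_AA.1 h2').2.1, e2⟩, ?_⟩
      rw [eq_div_iff (mul_ne_zero (mul_ne_zero h20 ha0) hb0), ← h5, ← h6]
      simp only [nrm, dt, Fin.sum_univ_three, zz_apply] at e1 e2 h3' ⊢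
      linear_combination h3' - w.1.1 ^ 2 * e1 - w.2.1 ^ 2 * e2
    exact (card_le_card hsub).trans
      (plane_sphere p (Fact.out : p.Prime).one_lt h20 ρ _ _ hy0)
  have himg : (s.image fun w => (w.1, w.2.1)) ⊆ AA K p N ρ ×ˢ muN K N := by
    intro u hu
    simp only [mem_image] at hu
    obtain ⟨w, hw, rfl⟩ := hu
    obtain ⟨h1, h2, h3⟩ := hmem w hw
    simp only [mem_product, muN, mem_filter, mem_univ, true_and]
    exact ⟨h1, (mem_AA.1 h2).1⟩
  refine hcard.trans (Nat.mul_le_mul le_rfl ((card_le_card himg).trans ?_))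
  rw [card_product]
  exact Nat.mul_le_mul (card_AA p (Fact.out : p.Prime).one_lt N hN ρ) (card_muN N hN.pos)


theorem card_pairs {α β : Type*} [DecidableEq α] [DecidableEq β] (P : Finset α) (Q : Finset β)
    (r : α → β → Prop) [∀ a b, Decidable (r a b)] :
    ((P ×ˢ Q).filter fun t => r t.1 t.2).card = ∑ a ∈ P, (Q.filter (r a)).card := by
  rw [card_filter, sum_product]
  simp_rw [card_filter]

/-- the degenerate pairs -/
theorem card_dg {p : ℕ} [Fact p.Prime] {N : ℕ} (hN : Odd N) {ρ : K} :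
    ((PP K p N ρ).filter fun w => w.1.1 = w.2.1).card ≤ N * (2 * p ^ 2 * (2 * p ^ 2)) := by
  have h1 : ((PP K p N ρ).filter fun w => w.1.1 = w.2.1).card ≤
      (muN K N ×ˢ (sphereK K p ρ ×ˢ sphereK K p ρ)).card := by
    apply Finset.card_le_card_of_injOn (fun w => (w.1.1, (w.1.2, w.2.2)))
    · intro w hw
      simp only [coe_filter, Set.mem_ofPred_eq, mem_PP, AA, mem_product] at hw
      simp only [coe_product, Set.mem_prod, mem_coe]
      exact ⟨hw.1.1.1, hw.1.1.2, hw.1.2.2⟩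
    · intro w hw w' hw' h
      simp only [coe_filter, Set.mem_ofPred_eq, mem_PP] at hw hw'
      simp only [Prod.mk.injEq] at h
      exact Prod.ext (Prod.ext h.1 h.2.1)
        (Prod.ext (hw.2.symm.trans (h.1.trans hw'.2)) h.2.2)
  refine h1.trans ?_
  rw [card_product, card_product]
  have h2 := card_sphereK (K := K) p (Fact.out : p.Prime).one_lt ρ
  exact Nat.mul_le_mul (card_muN N hN.pos) (Nat.mul_le_mul h2 h2)

theorem R_le {p : ℕ} [Fact p.Prime] [CharP K p] (h20 : (2 : K) ≠ 0) {N : ℕ} (hN : Odd N)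
    (hNd : N ∣ p + 1) {ρ : K} (hρ : ρ ≠ 0) (z : Fin 3 → K) :
    ((PP K p N ρ).filter fun w => zz w = z).card ≤
      (if z = 0 then (AA K p N ρ).card else 0) + (4 + 2 * N + 2 * p) := by
  by_cases hz : z = 0
  · rw [if_pos hz]
    exact (card_fst hN hNd hρ z).trans (Nat.le_add_right _ _)
  · rw [if_neg hz]
    have h1 : ((PP K p N ρ).filter fun w => zz w = z) ⊆
        ((PP K p N ρ).filter fun w => w.1.1 ≠ w.2.1 ∧ zz w = z) ∪
        ((PP K p N ρ).filter fun w => w.1.1 = w.2.1 ∧ zz w = z) := by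
      intro w hw
      simp only [mem_union, mem_filter] at hw ⊢
      by_cases h : w.1.1 = w.2.1
      · exact Or.inr ⟨hw.1, h, hw.2⟩
      · exact Or.inl ⟨hw.1, h, hw.2⟩
    have h2 := (card_le_card h1).trans (card_union_le _ _)
    have h3 := dg_count (K := K) (p := p) (ρ := ρ) h20 hN hNd z hz
    by_cases h0 : nrm z = 0
    · have h4 := nd_count0 (K := K) (p := p) hN hNd hρ z h0
      omega
    · have h4 := nd_count (K := K) (p := p) hN hNd hρ z h0
      omega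

theorem Rnd_le {p : ℕ} [Fact p.Prime] [CharP K p] {N : ℕ} (hN : Odd N)
    (hNd : N ∣ p + 1) {ρ : K} (hρ : ρ ≠ 0) (z : Fin 3 → K) :
    ((PP K p N ρ).filter fun w => w.1.1 ≠ w.2.1 ∧ zz w = z).card ≤
      4 + (if nrm z = 0 then 2 * N else 0) := by
  by_cases h0 : nrm z = 0
  · rw [if_pos h0]
    have h4 := nd_count0 (K := K) (p := p) hN hNd hρ z h0
    omega
  · rw [if_neg h0]
    have h4 := nd_count (K := K) (p := p) hN hNd hρ z h0
    omega

theorem Ta_le {p : ℕ} [Fact p.Prime] [CharP K p] (h20 : (2 : K) ≠ 0) {N : ℕ} (hN : Odd N)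
    (hNd : N ∣ p + 1) {ρ : K} (hρ : ρ ≠ 0) :
    ∑ w ∈ (PP K p N ρ).filter (fun w => w.1.1 = w.2.1),
      ((PP K p N ρ).filter fun w' => zz w' = zz w).card ≤
    (AA K p N ρ).card * (AA K p N ρ).card +
      N * (2 * p ^ 2 * (2 * p ^ 2)) * (4 + 2 * N + 2 * p) := by
  calc ∑ w ∈ (PP K p N ρ).filter (fun w => w.1.1 = w.2.1),
        ((PP K p N ρ).filter fun w' => zz w' = zz w).card
      ≤ ∑ w ∈ (PP K p N ρ).filter (fun w => w.1.1 = w.2.1),
        ((if zz w = 0 then (AA K p N ρ).card else 0) + (4 + 2 * N + 2 * p)) :=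
        Finset.sum_le_sum fun w _ => R_le h20 hN hNd hρ (zz w)
    _ = ∑ w ∈ (PP K p N ρ).filter (fun w => w.1.1 = w.2.1),
          (if zz w = 0 then (AA K p N ρ).card else 0) +
        ((PP K p N ρ).filter (fun w => w.1.1 = w.2.1)).card * (4 + 2 * N + 2 * p) := by
        rw [sum_add_distrib, sum_const, smul_eq_mul]
    _ ≤ (AA K p N ρ).card * (AA K p N ρ).card +
        N * (2 * p ^ 2 * (2 * p ^ 2)) * (4 + 2 * N + 2 * p) := by
        apply Nat.add_le_add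
        · rw [← sum_filter, sum_const, smul_eq_mul]
          apply Nat.mul_le_mul _ le_rfl
          refine le_trans (card_le_card ?_) (card_fst hN hNd hρ 0)
          intro w hw
          simp only [mem_filter] at hw ⊢
          exact ⟨hw.1.1, hw.2⟩
        · exact Nat.mul_le_mul (card_dg hN) le_rfl

theorem Tc_le {p : ℕ} [Fact p.Prime] [CharP K p] (h20 : (2 : K) ≠ 0) {N : ℕ} (hN : Odd N)
    (hNd : N ∣ p + 1) {ρ : K} (hρ : ρ ≠ 0) :
    ∑ w ∈ (PP K p N ρ),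
      ((PP K p N ρ).filter fun w' => w'.1.1 ≠ w'.2.1 ∧ zz w' = zz w).card ≤
    (AA K p N ρ).card * (AA K p N ρ).card * 4 +
      2 * p * (N * (2 * p ^ 2) * N) * (2 * N) := by
  calc ∑ w ∈ (PP K p N ρ),
        ((PP K p N ρ).filter fun w' => w'.1.1 ≠ w'.2.1 ∧ zz w' = zz w).card
      ≤ ∑ w ∈ (PP K p N ρ), (4 + (if nrm (zz w) = 0 then 2 * N else 0)) :=
        Finset.sum_le_sum fun w _ => Rnd_le hN hNd hρ (zz w)
    _ = (PP K p N ρ).card * 4 +
        ∑ w ∈ (PP K p N ρ), (if nrm (zz w) = 0 then 2 * N else 0) := by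
        rw [sum_add_distrib, sum_const, smul_eq_mul]
    _ ≤ _ := by
        apply Nat.add_le_add
        · rw [PP, card_product]
        · rw [← sum_filter, sum_const, smul_eq_mul]
          exact Nat.mul_le_mul (isotropic_count h20 hN hρ) le_rfl

end OddCore

open OddCore in
theorem odd_energy_count (p : ℕ) [Fact p.Prime] (hp2 : p ≠ 2) (K : Type) [Field K] [Fintype K]
    [DecidableEq K] [CharP K p] (hK : Fintype.card K = p ^ 2) (N : ℕ) (hN : Odd N)
    (hNd : N ∣ p + 1) (ρ : K) (hρ : ρ ≠ 0) (hρp : ρ ^ p = ρ) :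
    (((((muN K N ×ˢ sphereK K p ρ) ×ˢ (muN K N ×ˢ sphereK K p ρ)) ×ˢ
        ((muN K N ×ˢ sphereK K p ρ) ×ˢ (muN K N ×ˢ sphereK K p ρ))).filter
      fun z : ((K × (Fin 3 → K)) × (K × (Fin 3 → K))) × ((K × (Fin 3 → K)) × (K × (Fin 3 → K))) =>
        z.1.1.1 • z.1.1.2 + z.1.2.1 • z.1.2.2 = z.2.1.1 • z.2.1.2 + z.2.2.1 • z.2.2.2).card)
      ≤ 1000 * p ^ 6 := by
  have hpp : p.Prime := Fact.out
  have h20 : (2 : K) ≠ 0 := by
    intro h
    have h1 : ((2 : ℕ) : K) = 0 := by exact_mod_cast h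
    rw [CharP.cast_eq_zero_iff K p] at h1
    exact hp2 ((Nat.prime_dvd_prime_iff_eq hpp Nat.prime_two).1 h1)
  set P := PP K p N ρ with hP
  set A := (AA K p N ρ).card with hA
  have hTa := Ta_le (K := K) (p := p) h20 hN hNd hρ
  have hTc := Tc_le (K := K) (p := p) h20 hN hNd hρ
  rw [← hP, ← hA] at hTa hTc
  have hTb : ((P ×ˢ (P.filter (fun w => w.1.1 = w.2.1))).filter fun t => zz t.2 = zz t.1).card =
      ∑ w ∈ P.filter (fun w => w.1.1 = w.2.1), (P.filter fun w' => zz w' = zz w).card := by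
    rw [← card_pairs (P.filter fun w => w.1.1 = w.2.1) P (fun w w' => zz w' = zz w)]
    refine Finset.card_bij' (fun t _ => (t.2, t.1)) (fun t _ => (t.2, t.1)) ?_ ?_ ?_ ?_
    all_goals first
      | (intro t ht
         simp only [mem_filter, mem_product] at ht ⊢
         exact ⟨⟨ht.1.2, ht.1.1⟩, ht.2.symm⟩)
      | (intro t _
         rfl)
  have hTcc : ((P ×ˢ P).filter fun t => t.2.1.1 ≠ t.2.2.1 ∧ zz t.2 = zz t.1).card =
      ∑ w ∈ P, (P.filter fun w' => w'.1.1 ≠ w'.2.1 ∧ zz w' = zz w).card :=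
    card_pairs P P (fun w w' => w'.1.1 ≠ w'.2.1 ∧ zz w' = zz w)
  have hsub2 : (((muN K N ×ˢ sphereK K p ρ) ×ˢ (muN K N ×ˢ sphereK K p ρ)) ×ˢ
        ((muN K N ×ˢ sphereK K p ρ) ×ˢ (muN K N ×ˢ sphereK K p ρ))).filter
      (fun z : ((K × (Fin 3 → K)) × (K × (Fin 3 → K))) ×
          ((K × (Fin 3 → K)) × (K × (Fin 3 → K))) =>
        z.1.1.1 • z.1.1.2 + z.1.2.1 • z.1.2.2 = z.2.1.1 • z.2.1.2 + z.2.2.1 • z.2.2.2) ⊆
      (((P ×ˢ (P.filter (fun w => w.1.1 = w.2.1))).filter fun t => zz t.2 = zz t.1) ∪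
      ((P ×ˢ P).filter fun t => t.2.1.1 ≠ t.2.2.1 ∧ zz t.2 = zz t.1)) := by
    intro t ht
    rw [mem_filter, mem_product] at ht
    obtain ⟨⟨h1, h2⟩, h3⟩ := ht
    have hz : zz t.2 = zz t.1 := h3.symm
    have h1' : t.1 ∈ P := h1
    have h2' : t.2 ∈ P := h2
    simp only [mem_union, mem_filter, mem_product]
    by_cases hd : t.2.1.1 = t.2.2.1
    · exact Or.inl ⟨⟨h1', h2', hd⟩, hz⟩
    · exact Or.inr ⟨⟨h1', h2'⟩, hd, hz⟩
  have hfin := (card_le_card hsub2).trans (card_union_le _ _)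
  rw [hTb, hTcc] at hfin
  refine hfin.trans ?_
  have hAle : A ≤ N * (2 * p ^ 2) := card_AA p hpp.one_lt N hN ρ
  have hp1 : 1 ≤ p := hpp.one_lt.le
  have hN2 : N ≤ 2 * p := by
    have := Nat.le_of_dvd (by omega) hNd
    omega
  have hA2 : A ≤ 4 * p ^ 3 := by
    calc A ≤ N * (2 * p ^ 2) := hAle
      _ ≤ 2 * p * (2 * p ^ 2) := by gcongr
      _ = 4 * p ^ 3 := by ring
  calc _ ≤ (A * A + N * (2 * p ^ 2 * (2 * p ^ 2)) * (4 + 2 * N + 2 * p)) +
        (A * A * 4 + 2 * p * (N * (2 * p ^ 2) * N) * (2 * N)) := Nat.add_le_add hTa hTc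
    _ ≤ (4 * p ^ 3 * (4 * p ^ 3) +
          2 * p * (2 * p ^ 2 * (2 * p ^ 2)) * (4 * p + 2 * (2 * p) + 2 * p)) +
        (4 * p ^ 3 * (4 * p ^ 3) * 4 +
          2 * p * (2 * p * (2 * p ^ 2) * (2 * p)) * (2 * (2 * p))) := by
        gcongr
        omega
    _ = 224 * p ^ 6 := by ring
    _ ≤ 1000 * p ^ 6 := by
        apply Nat.mul_le_mul_right
        norm_num

end Pool.Agent.MP_546591_co
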