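import Pool.Agent.Lib.MP_546591_co.Defs

/-!
# Subsampling

Every finite set `E` of an abelian group has, for every `n ≤ |E|`, a subset `E'` with `n` elements
and `Λ₄(E') ≤ 4 n² + (n / |E|)⁴ Λ₄(E)`: delete points one by one; on average the deletion of a
point destroys the fraction `4 / |E|` of the additive quadruples with four distinct entries.
-/

namespace Pool.Agent.MP_546591_co

open Finset

/-- The four entries are pairwise distinct. -/
def Nd {V : Type} (z : (V × V) × (V × V)) : Prop :=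
  z.1.1 ≠ z.1.2 ∧ z.1.1 ≠ z.2.1 ∧ z.1.1 ≠ z.2.2 ∧ z.1.2 ≠ z.2.1 ∧ z.1.2 ≠ z.2.2 ∧ z.2.1 ≠ z.2.2

instance {V : Type} [DecidableEq V] (z : (V × V) × (V × V)) : Decidable (Nd z) := by
  unfold Nd; infer_instance

/-- Additive quadruples with distinct entries. -/
def ndSet {V : Type} [Add V] [DecidableEq V] (E : Finset V) : Finset ((V × V) × (V × V)) :=
  ((E ×ˢ E) ×ˢ (E ×ˢ E)).filter fun z => z.1.1 + z.1.2 = z.2.1 + z.2.2 ∧ Nd z

theorem energy_le_nd {V : Type} [AddCommGroup V] [DecidableEq V] (E : Finset V) :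
    energy E ≤ 4 * E.card ^ 2 + (ndSet E).card := by
  classical
  set B := (E ×ˢ E) ×ˢ (E ×ˢ E) with hB
  have key : (B.filter fun z => z.1.1 + z.1.2 = z.2.1 + z.2.2) ⊆
      ((((B.filter fun z => z.1.1 + z.1.2 = z.2.1 + z.2.2 ∧ z.1.1 = z.1.2) ∪
      (B.filter fun z => z.1.1 + z.1.2 = z.2.1 + z.2.2 ∧ z.2.1 = z.2.2)) ∪
      (B.filter fun z => z.1.1 = z.2.1 ∧ z.1.2 = z.2.2)) ∪
      (B.filter fun z => z.1.1 = z.2.2 ∧ z.1.2 = z.2.1)) ∪ ndSet E := by
    intro z hz
    simp only [ndSet, mem_union, mem_filter] at hz ⊢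
    obtain ⟨hzB, hz1⟩ := hz
    by_cases h1 : z.1.1 = z.1.2
    · exact Or.inl (Or.inl (Or.inl (Or.inl ⟨hzB, hz1, h1⟩)))
    by_cases h2 : z.2.1 = z.2.2
    · exact Or.inl (Or.inl (Or.inl (Or.inr ⟨hzB, hz1, h2⟩)))
    by_cases h3 : z.1.1 = z.2.1
    · refine Or.inl (Or.inl (Or.inr ⟨hzB, h3, ?_⟩))
      rw [h3] at hz1
      exact add_left_cancel hz1
    by_cases h4 : z.1.1 = z.2.2
    · refine Or.inl (Or.inr ⟨hzB, h4, ?_⟩)
      rw [h4, add_comm z.2.1] at hz1
      exact add_left_cancel hz1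
    refine Or.inr ⟨hzB, hz1, h1, h3, h4, ?_, ?_, h2⟩
    · intro h5
      apply h4
      rw [h5, add_comm z.2.1] at hz1
      exact add_right_cancel hz1
    · intro h5
      apply h3
      rw [h5] at hz1
      exact add_right_cancel hz1
  have c1 : (B.filter fun z => z.1.1 + z.1.2 = z.2.1 + z.2.2 ∧ z.1.1 = z.1.2).card ≤
      E.card ^ 2 := by
    have : (E ×ˢ E).card = E.card ^ 2 := by rw [card_product, sq]
    rw [← this]
    apply card_le_card_of_injOn (fun z => (z.1.1, z.2.1))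
    · intro z hz
      simp only [hB, coe_filter, mem_product, Set.mem_ofPred_eq] at hz
      simp only [coe_product, Set.mem_prod, mem_coe]
      exact ⟨hz.1.1.1, hz.1.2.1⟩
    · intro z hz w hw hzw
      simp only [coe_filter, Set.mem_ofPred_eq] at hz hw
      simp only [Prod.mk.injEq] at hzw
      obtain ⟨⟨a, b⟩, ⟨c, d⟩⟩ := z
      obtain ⟨⟨a', b'⟩, ⟨c', d'⟩⟩ := w
      obtain ⟨-, hz1, hz2⟩ := hz
      obtain ⟨-, hw1, hw2⟩ := hw
      simp only at hz1 hz2 hw1 hw2 hzw
      obtain ⟨rfl, rfl⟩ := hzw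
      subst hz2
      subst hw2
      have : d = d' := by
        rw [hz1] at hw1
        exact add_left_cancel hw1
      subst this
      rfl
  have c2 : (B.filter fun z => z.1.1 + z.1.2 = z.2.1 + z.2.2 ∧ z.2.1 = z.2.2).card ≤
      E.card ^ 2 := by
    have : (E ×ˢ E).card = E.card ^ 2 := by rw [card_product, sq]
    rw [← this]
    apply card_le_card_of_injOn (fun z => (z.1.1, z.2.1))
    · intro z hz
      simp only [hB, coe_filter, mem_product, Set.mem_ofPred_eq] at hz
      simp only [coe_product, Set.mem_prod, mem_coe]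
      exact ⟨hz.1.1.1, hz.1.2.1⟩
    · intro z hz w hw hzw
      simp only [coe_filter, Set.mem_ofPred_eq] at hz hw
      simp only [Prod.mk.injEq] at hzw
      obtain ⟨⟨a, b⟩, ⟨c, d⟩⟩ := z
      obtain ⟨⟨a', b'⟩, ⟨c', d'⟩⟩ := w
      obtain ⟨-, hz1, hz2⟩ := hz
      obtain ⟨-, hw1, hw2⟩ := hw
      simp only at hz1 hz2 hw1 hw2 hzw
      obtain ⟨rfl, rfl⟩ := hzw
      subst hz2
      subst hw2
      have : b = b' := by
        rw [← hz1] at hw1
        exact (add_left_cancel hw1).symm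
      subst this
      rfl
  have c3 : (B.filter fun z => z.1.1 = z.2.1 ∧ z.1.2 = z.2.2).card ≤ E.card ^ 2 := by
    have : (E ×ˢ E).card = E.card ^ 2 := by rw [card_product, sq]
    rw [← this]
    apply card_le_card_of_injOn (fun z => z.1)
    · intro z hz
      simp only [hB, coe_filter, mem_product, Set.mem_ofPred_eq] at hz
      simp only [coe_product, Set.mem_prod, mem_coe]
      exact ⟨hz.1.1.1, hz.1.1.2⟩
    · intro z hz w hw hzw
      simp only [coe_filter, Set.mem_ofPred_eq] at hz hw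
      obtain ⟨⟨a, b⟩, ⟨c, d⟩⟩ := z
      obtain ⟨⟨a', b'⟩, ⟨c', d'⟩⟩ := w
      obtain ⟨-, hz1, hz2⟩ := hz
      obtain ⟨-, hw1, hw2⟩ := hw
      simp only [Prod.mk.injEq] at hz1 hz2 hw1 hw2 hzw
      obtain ⟨rfl, rfl⟩ := hzw
      subst hz1 hz2 hw1 hw2
      rfl
  have c4 : (B.filter fun z => z.1.1 = z.2.2 ∧ z.1.2 = z.2.1).card ≤ E.card ^ 2 := by
    have : (E ×ˢ E).card = E.card ^ 2 := by rw [card_product, sq]
    rw [← this]
    apply card_le_card_of_injOn (fun z => z.1)
    · intro z hz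
      simp only [hB, coe_filter, mem_product, Set.mem_ofPred_eq] at hz
      simp only [coe_product, Set.mem_prod, mem_coe]
      exact ⟨hz.1.1.1, hz.1.1.2⟩
    · intro z hz w hw hzw
      simp only [coe_filter, Set.mem_ofPred_eq] at hz hw
      obtain ⟨⟨a, b⟩, ⟨c, d⟩⟩ := z
      obtain ⟨⟨a', b'⟩, ⟨c', d'⟩⟩ := w
      obtain ⟨-, hz1, hz2⟩ := hz
      obtain ⟨-, hw1, hw2⟩ := hw
      simp only [Prod.mk.injEq] at hz1 hz2 hw1 hw2 hzw
      obtain ⟨rfl, rfl⟩ := hzw
      subst hz1 hz2 hw1 hw2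
      rfl
  unfold energy
  calc _ ≤ _ := card_le_card key
    _ ≤ (((E.card ^ 2 + E.card ^ 2) + E.card ^ 2) + E.card ^ 2) + (ndSet E).card := by
        refine (card_union_le _ _).trans (Nat.add_le_add_right ?_ _)
        refine (card_union_le _ _).trans (Nat.add_le_add ?_ c4)
        refine (card_union_le _ _).trans (Nat.add_le_add ?_ c3)
        exact (card_union_le _ _).trans (Nat.add_le_add c1 c2)
    _ = _ := by ring

theorem sum_ndSet_erase {V : Type} [AddCommGroup V] [DecidableEq V] (E : Finset V) :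
    (∑ x ∈ E, (ndSet (E.erase x)).card) + 4 * (ndSet E).card = E.card * (ndSet E).card := by
  have h1 : ∀ x ∈ E, (ndSet (E.erase x)).card =
      ∑ z ∈ ndSet E, if x ∉ ({z.1.1, z.1.2, z.2.1, z.2.2} : Finset V) then 1 else 0 := by
    intro x _
    rw [← card_filter]
    congr 1
    ext z
    simp only [ndSet, mem_filter, mem_product, mem_erase, mem_insert, mem_singleton, not_or]
    constructor
    · rintro ⟨⟨⟨⟨h1, h1'⟩, h2, h2'⟩, ⟨h3, h3'⟩, h4, h4'⟩, h5, h6⟩
      exact ⟨⟨⟨⟨h1', h2'⟩, h3', h4'⟩, h5, h6⟩, h1.symm, h2.symm, h3.symm, h4.symm⟩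
    · rintro ⟨⟨⟨⟨h1', h2'⟩, h3', h4'⟩, h5, h6⟩, h1, h2, h3, h4⟩
      exact ⟨⟨⟨⟨fun h => h1 h.symm, h1'⟩, fun h => h2 h.symm, h2'⟩,
        ⟨fun h => h3 h.symm, h3'⟩, fun h => h4 h.symm, h4'⟩, h5, h6⟩
  rw [sum_congr rfl h1, sum_comm]
  have h2 : ∀ z ∈ ndSet E,
      (∑ x ∈ E, if x ∉ ({z.1.1, z.1.2, z.2.1, z.2.2} : Finset V) then 1 else 0) + 4 = E.card := by
    intro z hz
    rw [← card_filter]
    simp only [ndSet, mem_filter, mem_product] at hz
    obtain ⟨⟨⟨ha, hb⟩, hc, hd⟩, -, n1, n2, n3, n4, n5, n6⟩ := hz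
    have h4 : ({z.1.1, z.1.2, z.2.1, z.2.2} : Finset V).card = 4 := by
      rw [card_insert_of_notMem, card_insert_of_notMem, card_insert_of_notMem, card_singleton]
      · simpa using n6
      · simp [n4, n5]
      · simp [n1, n2, n3]
    have hsub : ({z.1.1, z.1.2, z.2.1, z.2.2} : Finset V) ⊆ E := by
      intro x hx
      simp only [mem_insert, mem_singleton] at hx
      rcases hx with rfl | rfl | rfl | rfl <;> assumption
    have h5 : (E.filter fun x => x ∉ ({z.1.1, z.1.2, z.2.1, z.2.2} : Finset V)) =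
        E \ ({z.1.1, z.1.2, z.2.1, z.2.2} : Finset V) := by
      ext x; simp
    rw [h5, card_sdiff_of_subset hsub, h4]
    have := card_le_card hsub
    omega
  calc _ = ∑ z ∈ ndSet E, ((∑ x ∈ E,
        if x ∉ ({z.1.1, z.1.2, z.2.1, z.2.2} : Finset V) then 1 else 0) + 4) := by
        rw [sum_add_distrib, sum_const, smul_eq_mul, mul_comm 4]
    _ = ∑ z ∈ ndSet E, E.card := sum_congr rfl h2
    _ = _ := by rw [sum_const, smul_eq_mul, mul_comm]

theorem exists_erase {V : Type} [AddCommGroup V] [DecidableEq V] (E : Finset V)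
    (h0 : 0 < E.card) : ∃ x ∈ E,
      ((ndSet (E.erase x)).card : ℝ) ≤ (((E.card : ℝ) - 1) / E.card) ^ 4 * (ndSet E).card := by
  have hne : E.Nonempty := card_pos.mp h0
  obtain ⟨x, hx, hle⟩ := exists_le_of_sum_le hne
    (f := fun x => E.card * (ndSet (E.erase x)).card + 4 * (ndSet E).card)
    (g := fun _ => E.card * (ndSet E).card) (by
      rw [sum_add_distrib, ← mul_sum, sum_const, sum_const, smul_eq_mul, smul_eq_mul,
        ← sum_ndSet_erase E]
      apply le_of_eq
      ring)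
  refine ⟨x, hx, ?_⟩
  have hM : (0 : ℝ) < E.card := by exact_mod_cast h0
  have hle' : (E.card : ℝ) * (ndSet (E.erase x)).card + 4 * (ndSet E).card ≤
      E.card * (ndSet E).card := by exact_mod_cast hle
  have hT : (0 : ℝ) ≤ (ndSet E).card := by positivity
  have hB : (1 : ℝ) + ((4 : ℕ) : ℝ) * (-(1 / (E.card : ℝ))) ≤ (1 + -(1 / (E.card : ℝ))) ^ 4 := by
    apply one_add_mul_le_pow
    have : (1 : ℝ) / E.card ≤ 1 := by
      rw [div_le_one hM]
      exact_mod_cast h0
    linarith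
  have hB' : (1 : ℝ) + -(1 / (E.card : ℝ)) = ((E.card : ℝ) - 1) / E.card := by
    field_simp
    ring
  rw [hB'] at hB
  have h3 : ((ndSet (E.erase x)).card : ℝ) ≤ (1 - 4 / E.card) * (ndSet E).card := by
    rw [← mul_le_mul_iff_right₀ hM]
    have : (E.card : ℝ) * ((1 - 4 / E.card) * (ndSet E).card) =
        E.card * (ndSet E).card - 4 * (ndSet E).card := by
      field_simp
    rw [this]
    linarith
  refine h3.trans (mul_le_mul_of_nonneg_right ?_ hT)
  refine le_trans (le_of_eq ?_) hB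
  push_cast
  ring

theorem exists_subset_nd {V : Type} [AddCommGroup V] [DecidableEq V] (n k : ℕ) (hn : 0 < n) :
    ∀ E : Finset V, E.card = n + k → ∃ E' ⊆ E, E'.card = n ∧
      ((ndSet E').card : ℝ) ≤ ((n : ℝ) / E.card) ^ 4 * (ndSet E).card := by
  induction k with
  | zero =>
    intro E hE
    refine ⟨E, Subset.rfl, by omega, ?_⟩
    have : (E.card : ℝ) = n := by exact_mod_cast hE
    have hn' : (n : ℝ) ≠ 0 := by positivity
    rw [this, div_self hn', one_pow, one_mul]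
  | succ k ih =>
    intro E hE
    obtain ⟨x, hx, hle⟩ := exists_erase E (by omega)
    have hc : (E.erase x).card = n + k := by
      rw [card_erase_of_mem hx]; omega
    obtain ⟨E', hE', hcard, hle'⟩ := ih (E.erase x) hc
    refine ⟨E', hE'.trans (erase_subset _ _), hcard, hle'.trans ?_⟩
    have hc' : ((E.erase x).card : ℝ) = (E.card : ℝ) - 1 := by
      rw [hc, hE]; push_cast; ring
    have hpos : (0 : ℝ) < (E.card : ℝ) - 1 := by
      rw [← hc', hc]; positivity
    have hpos' : (0 : ℝ) < E.card := by linarith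
    rw [hc']
    calc ((n : ℝ) / ((E.card : ℝ) - 1)) ^ 4 * (ndSet (E.erase x)).card
        ≤ ((n : ℝ) / ((E.card : ℝ) - 1)) ^ 4 *
          ((((E.card : ℝ) - 1) / E.card) ^ 4 * (ndSet E).card) :=
          mul_le_mul_of_nonneg_left hle (by positivity)
      _ = ((n : ℝ) / E.card) ^ 4 * (ndSet E).card := by
          field_simp

theorem exists_subset_energy {V : Type} [AddCommGroup V] [DecidableEq V] (E : Finset V)
    (n : ℕ) (hn : n ≤ E.card) (h0 : 0 < E.card) :
    ∃ E' ⊆ E, E'.card = n ∧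
      (energy E' : ℝ) ≤ 4 * (n : ℝ) ^ 2 + ((n : ℝ) / E.card) ^ 4 * (energy E : ℝ) := by
  rcases Nat.eq_zero_or_pos n with rfl | hn0
  · refine ⟨∅, empty_subset _, card_empty, ?_⟩
    have : energy (∅ : Finset V) = 0 := by simp [energy]
    rw [this]
    simp
  obtain ⟨E', hE', hcard, hle⟩ := exists_subset_nd n (E.card - n) hn0 E (by omega)
  refine ⟨E', hE', hcard, ?_⟩
  have h1 := energy_le_nd E'
  have h1' : (energy E' : ℝ) ≤ 4 * (n : ℝ) ^ 2 + (ndSet E').card := by
    rw [hcard] at h1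
    exact_mod_cast h1
  have h2 : ((ndSet E).card : ℝ) ≤ energy E := by
    have : (ndSet E).card ≤ energy E := by
      unfold ndSet energy
      apply card_le_card
      intro z hz
      simp only [mem_filter] at hz ⊢
      exact ⟨hz.1, hz.2.1⟩
    exact_mod_cast this
  have h3 : ((n : ℝ) / E.card) ^ 4 * (ndSet E).card ≤ ((n : ℝ) / E.card) ^ 4 * energy E :=
    mul_le_mul_of_nonneg_left h2 (by positivity)
  linarith

end Pool.Agent.MP_546591_co
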